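import Pool.Agent.Helper90.HC.Defs

/-!
# Combinatorics
-/

namespace Pool.Agent.Helper90.HC

theorem sum_min_row (k i : ℕ) (hi : 1 ≤ i) (hk : i < k) :
    2 * ∑ j ∈ Finset.Ico 1 k, min (i * (k - j)) (j * (k - i)) = k * (i * (k - i)) := by
  obtain ⟨c, rfl⟩ : ∃ c, k = i + (c + 1) := ⟨k - i - 1, by omega⟩
  rw [Nat.add_sub_cancel_left]
  have h1 : ∑ j ∈ Finset.Ico 1 (i + (c + 1)), min (i * (i + (c + 1) - j)) (j * (c + 1)) =
      ∑ j ∈ Finset.Ico 1 (i + 1), j * (c + 1) +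
      ∑ j ∈ Finset.Ico (i + 1) (i + (c + 1)), i * (i + (c + 1) - j) := by
    rw [← Finset.sum_Ico_consecutive _ (by omega : 1 ≤ i + 1) (by omega : i + 1 ≤ i + (c + 1))]
    congr 1
    · apply Finset.sum_congr rfl
      intro j hj
      rw [Finset.mem_Ico] at hj
      apply min_eq_right
      obtain ⟨e, rfl⟩ : ∃ e, i = j + e := ⟨i - j, by omega⟩
      rw [show j + e + (c + 1) - j = e + (c + 1) by omega]
      nlinarith
    · apply Finset.sum_congr rfl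
      intro j hj
      rw [Finset.mem_Ico] at hj
      apply min_eq_left
      obtain ⟨e, rfl⟩ : ∃ e, j = i + e := ⟨j - i, by omega⟩
      obtain ⟨f, hf⟩ : ∃ f, c + 1 = e + f := ⟨c + 1 - e, by omega⟩
      rw [show i + (c + 1) - (i + e) = f by omega, hf]
      nlinarith
  have h2 : 2 * ∑ j ∈ Finset.Ico 1 (i + 1), j * (c + 1) = (i * (i + 1)) * (c + 1) := by
    clear hk h1 hi
    induction i with
    | zero => simp
    | succ n ih =>
      rw [Finset.sum_Ico_succ_top (by omega), mul_add, ih]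
      ring
  have h3 : 2 * ∑ j ∈ Finset.Ico (i + 1) (i + (c + 1)), i * (i + (c + 1) - j) =
      i * (c * (c + 1)) := by
    clear hk h1 hi h2
    induction c with
    | zero => simp
    | succ n ih =>
      have h4 : ∑ j ∈ Finset.Ico (i + 1) (i + (n + 1 + 1)), i * (i + (n + 1 + 1) - j) =
          i * (n + 1) + ∑ j ∈ Finset.Ico (i + 1) (i + (n + 1)), i * (i + (n + 1) - j) := by
        rw [Finset.sum_eq_sum_Ico_succ_bot (by omega)]
        congr 1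
        · congr 1
          omega
        · rw [Finset.sum_Ico_eq_sum_range, Finset.sum_Ico_eq_sum_range]
          rw [show i + (n + 1 + 1) - (i + 1 + 1) = n by omega,
            show i + (n + 1) - (i + 1) = n by omega]
          apply Finset.sum_congr rfl
          intro j _
          congr 1
          omega
      rw [h4, mul_add, ih]
      ring
  rw [h1, mul_add, h2, h3]
  ring

theorem sum_mul_sub (k : ℕ) (hk : 1 ≤ k) :
    6 * ∑ i ∈ Finset.Ico 1 k, i * (k - i) = k * (k ^ 2 - 1) := by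
  obtain ⟨n, rfl⟩ : ∃ n, k = n + 1 := ⟨k - 1, by omega⟩
  have h0 : ((n + 1) ^ 2 - 1 : ℕ) = n * (n + 2) := by
    have : (n + 1) ^ 2 = n * (n + 2) + 1 := by ring
    omega
  rw [h0]
  clear h0 hk
  induction n with
  | zero => simp
  | succ n ih =>
    have h1 : ∑ i ∈ Finset.Ico 1 (n + 1 + 1), i * (n + 1 + 1 - i) =
        ∑ i ∈ Finset.Ico 1 (n + 1), i * (n + 1 - i) + ∑ i ∈ Finset.Ico 1 (n + 1 + 1), i := by
      rw [Finset.sum_Ico_succ_top (by omega), Finset.sum_Ico_succ_top (by omega) (fun i => i)]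
      rw [← add_assoc, ← Finset.sum_add_distrib]
      congr 1
      · apply Finset.sum_congr rfl
        intro i hi
        rw [Finset.mem_Ico] at hi
        obtain ⟨e, he⟩ : ∃ e, n + 1 = i + e := ⟨n + 1 - i, by omega⟩
        rw [he, Nat.add_sub_cancel_left, show i + e + 1 - i = e + 1 by omega]
        ring
      · rw [Nat.add_sub_cancel_left, mul_one]
    have h2 : 2 * ∑ i ∈ Finset.Ico 1 (n + 1 + 1), i = (n + 1) * (n + 2) := by
      clear ih h1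
      induction n with
      | zero => simp
      | succ n ih =>
        rw [Finset.sum_Ico_succ_top (by omega), mul_add, ih]
        ring
    rw [h1, mul_add, ih, show 6 * ∑ i ∈ Finset.Ico 1 (n + 1 + 1), i =
      3 * (2 * ∑ i ∈ Finset.Ico 1 (n + 1 + 1), i) by ring, h2]
    ring

theorem sum_min (k : ℕ) (hk : 1 ≤ k) :
    3 * (4 * ∑ i ∈ Finset.Ico 1 k, ∑ j ∈ Finset.Ico 1 k, min (i * (k - j)) (j * (k - i))) =
      k ^ 2 * (k ^ 2 - 1) := by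
  have h1 : 2 * ∑ i ∈ Finset.Ico 1 k, ∑ j ∈ Finset.Ico 1 k, min (i * (k - j)) (j * (k - i)) =
      k * ∑ i ∈ Finset.Ico 1 k, i * (k - i) := by
    rw [Finset.mul_sum, Finset.mul_sum]
    apply Finset.sum_congr rfl
    intro i hi
    rw [Finset.mem_Ico] at hi
    exact sum_min_row k i hi.1 hi.2
  have h2 := sum_mul_sub k hk
  calc 3 * (4 * ∑ i ∈ Finset.Ico 1 k, ∑ j ∈ Finset.Ico 1 k, min (i * (k - j)) (j * (k - i)))
      = 6 * (2 * ∑ i ∈ Finset.Ico 1 k, ∑ j ∈ Finset.Ico 1 k,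
          min (i * (k - j)) (j * (k - i))) := by ring
    _ = k * (6 * ∑ i ∈ Finset.Ico 1 k, i * (k - i)) := by rw [h1]; ring
    _ = k ^ 2 * (k ^ 2 - 1) := by rw [h2]; ring

theorem comb_ell_lt {a b : ℕ} (ha : 0 < a) (hab : a < b) : ell a b = 1 + ell a (b - a) := by
  obtain ⟨a', rfl⟩ : ∃ a', a = a' + 1 := ⟨a - 1, by omega⟩
  obtain ⟨b', rfl⟩ : ∃ b', b = b' + 1 := ⟨b - 1, by omega⟩
  rw [ell]
  have h1 : a' < b' := by omega
  rw [if_pos h1]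
  congr 2
  omega

theorem comb_ell_gt {a b : ℕ} (hb : 0 < b) (hab : b < a) : ell a b = 1 + ell (a - b) b := by
  obtain ⟨a', rfl⟩ : ∃ a', a = a' + 1 := ⟨a - 1, by omega⟩
  obtain ⟨b', rfl⟩ : ∃ b', b = b' + 1 := ⟨b - 1, by omega⟩
  rw [ell]
  have h1 : ¬ a' < b' := by omega
  have h2 : b' < a' := by omega
  rw [if_neg h1, if_pos h2]
  congr 2
  omega

theorem comb_ell_self {a : ℕ} (ha : 0 < a) : ell a a = 1 := by
  obtain ⟨a', rfl⟩ : ∃ a', a = a' + 1 := ⟨a - 1, by omega⟩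
  rw [ell]
  simp

/-- quadruples `(x, y, α, β)` of positive integers with `α x + β y = k` -/
def UU (k : ℕ) : Finset (ℕ × ℕ × ℕ × ℕ) :=
  (Finset.Icc 1 k ×ˢ Finset.Icc 1 k ×ˢ Finset.Icc 1 k ×ˢ Finset.Icc 1 k).filter
    fun p => p.2.2.1 * p.1 + p.2.2.2 * p.2.1 = k

theorem mem_UU {k : ℕ} {p : ℕ × ℕ × ℕ × ℕ} : p ∈ UU k ↔
    (1 ≤ p.1 ∧ 1 ≤ p.2.1 ∧ 1 ≤ p.2.2.1 ∧ 1 ≤ p.2.2.2) ∧
      p.2.2.1 * p.1 + p.2.2.2 * p.2.1 = k := by
  unfold UU
  simp only [Finset.mem_filter, Finset.mem_product, Finset.mem_Icc]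
  constructor
  · rintro ⟨⟨⟨h1, _⟩, ⟨h2, _⟩, ⟨h3, _⟩, ⟨h4, _⟩⟩, h5⟩
    exact ⟨⟨h1, h2, h3, h4⟩, h5⟩
  · rintro ⟨⟨h1, h2, h3, h4⟩, h5⟩
    have h6 : p.1 ≤ p.2.2.1 * p.1 := Nat.le_mul_of_pos_left _ h3
    have h7 : p.2.2.1 ≤ p.2.2.1 * p.1 := Nat.le_mul_of_pos_right _ h1
    have h8 : p.2.1 ≤ p.2.2.2 * p.2.1 := Nat.le_mul_of_pos_left _ h4
    have h9 : p.2.2.2 ≤ p.2.2.2 * p.2.1 := Nat.le_mul_of_pos_right _ h2
    refine ⟨⟨⟨h1, ?_⟩, ⟨h2, ?_⟩, ⟨h3, ?_⟩, ⟨h4, ?_⟩⟩, h5⟩ <;> omega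

theorem sum_UU_A (k : ℕ) : ∑ p ∈ UU k, ell p.2.2.1 p.2.2.2 = (UU k).card +
    ∑ p ∈ UU k with p.2.2.1 < p.2.2.2, ell p.2.2.1 (p.2.2.2 - p.2.2.1) +
    ∑ p ∈ UU k with p.2.2.2 < p.2.2.1, ell (p.2.2.1 - p.2.2.2) p.2.2.2 := by
  rw [Finset.sum_filter, Finset.sum_filter, Finset.card_eq_sum_ones, ← Finset.sum_add_distrib,
    ← Finset.sum_add_distrib]
  apply Finset.sum_congr rfl
  intro p hp
  obtain ⟨⟨_, _, h3, h4⟩, _⟩ := mem_UU.1 hp
  rcases lt_trichotomy p.2.2.1 p.2.2.2 with h | h | h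
  · rw [if_pos h, if_neg (by omega), comb_ell_lt h3 h]
    omega
  · rw [if_neg (by omega), if_neg (by omega), h, comb_ell_self h4]
    rfl
  · rw [if_neg (by omega), if_pos h, comb_ell_gt h4 h]
    omega

theorem sum_UU_B (k : ℕ) :
    ∑ p ∈ UU k with p.2.2.1 < p.2.2.2, ell p.2.2.1 (p.2.2.2 - p.2.2.1) =
      ∑ p ∈ UU k with p.2.1 < p.1, ell p.2.2.1 p.2.2.2 := by
  apply Finset.sum_nbij' (fun p => (p.1 + p.2.1, p.2.1, p.2.2.1, p.2.2.2 - p.2.2.1))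
    (fun p => (p.1 - p.2.1, p.2.1, p.2.2.1, p.2.2.2 + p.2.2.1))
  · rintro ⟨x, y, a, b⟩ hp
    rw [Finset.mem_filter, mem_UU] at hp ⊢
    simp only at hp ⊢
    obtain ⟨⟨⟨h1, h2, h3, h4⟩, h5⟩, h6⟩ := hp
    obtain ⟨e, rfl⟩ : ∃ e, b = a + e := ⟨b - a, by omega⟩
    rw [Nat.add_sub_cancel_left]
    refine ⟨⟨⟨by omega, h2, h3, by omega⟩, ?_⟩, by omega⟩
    rw [← h5]
    ring
  · rintro ⟨x, y, a, b⟩ hp
    rw [Finset.mem_filter, mem_UU] at hp ⊢
    simp only at hp ⊢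
    obtain ⟨⟨⟨h1, h2, h3, h4⟩, h5⟩, h6⟩ := hp
    obtain ⟨e, rfl⟩ : ∃ e, x = y + e := ⟨x - y, by omega⟩
    rw [Nat.add_sub_cancel_left]
    refine ⟨⟨⟨by omega, h2, h3, by omega⟩, ?_⟩, by omega⟩
    rw [← h5]
    ring
  · rintro ⟨x, y, a, b⟩ hp
    rw [Finset.mem_filter] at hp
    simp only at hp ⊢
    have := hp.2
    simp only [Prod.mk.injEq, true_and]
    omega
  · rintro ⟨x, y, a, b⟩ hp
    rw [Finset.mem_filter] at hp
    simp only at hp ⊢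
    have := hp.2
    simp only [Prod.mk.injEq, true_and]
    omega
  · intro p _
    rfl

theorem sum_UU_C (k : ℕ) :
    ∑ p ∈ UU k with p.2.2.2 < p.2.2.1, ell (p.2.2.1 - p.2.2.2) p.2.2.2 =
      ∑ p ∈ UU k with p.1 < p.2.1, ell p.2.2.1 p.2.2.2 := by
  apply Finset.sum_nbij' (fun p => (p.1, p.1 + p.2.1, p.2.2.1 - p.2.2.2, p.2.2.2))
    (fun p => (p.1, p.2.1 - p.1, p.2.2.1 + p.2.2.2, p.2.2.2))
  · rintro ⟨x, y, a, b⟩ hp
    rw [Finset.mem_filter, mem_UU] at hp ⊢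
    simp only at hp ⊢
    obtain ⟨⟨⟨h1, h2, h3, h4⟩, h5⟩, h6⟩ := hp
    obtain ⟨e, rfl⟩ : ∃ e, a = b + e := ⟨a - b, by omega⟩
    rw [Nat.add_sub_cancel_left]
    refine ⟨⟨⟨h1, by omega, by omega, h4⟩, ?_⟩, by omega⟩
    rw [← h5]
    ring
  · rintro ⟨x, y, a, b⟩ hp
    rw [Finset.mem_filter, mem_UU] at hp ⊢
    simp only at hp ⊢
    obtain ⟨⟨⟨h1, h2, h3, h4⟩, h5⟩, h6⟩ := hp
    obtain ⟨e, rfl⟩ : ∃ e, y = x + e := ⟨y - x, by omega⟩
    rw [Nat.add_sub_cancel_left]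
    refine ⟨⟨⟨h1, by omega, by omega, h4⟩, ?_⟩, by omega⟩
    rw [← h5]
    ring
  · rintro ⟨x, y, a, b⟩ hp
    rw [Finset.mem_filter] at hp
    simp only at hp ⊢
    have := hp.2
    simp only [Prod.mk.injEq, true_and, and_true]
    omega
  · rintro ⟨x, y, a, b⟩ hp
    rw [Finset.mem_filter] at hp
    simp only at hp ⊢
    have := hp.2
    simp only [Prod.mk.injEq, true_and, and_true]
    omega
  · intro p _
    rfl

theorem sum_UU_D (k : ℕ) : ∑ p ∈ UU k with p.1 = p.2.1, ell p.2.2.1 p.2.2.2 = (UU k).card := by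
  have h1 := sum_UU_A k
  rw [sum_UU_B, sum_UU_C] at h1
  have h2 : ∑ p ∈ UU k, ell p.2.2.1 p.2.2.2 =
      ∑ p ∈ UU k with p.2.1 < p.1, ell p.2.2.1 p.2.2.2 +
      ∑ p ∈ UU k with p.1 < p.2.1, ell p.2.2.1 p.2.2.2 +
      ∑ p ∈ UU k with p.1 = p.2.1, ell p.2.2.1 p.2.2.2 := by
    rw [Finset.sum_filter, Finset.sum_filter, Finset.sum_filter, ← Finset.sum_add_distrib,
      ← Finset.sum_add_distrib]
    apply Finset.sum_congr rfl
    intro p _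
    rcases lt_trichotomy p.1 p.2.1 with h | h | h
    · rw [if_neg (by omega), if_pos h, if_neg (by omega)]; omega
    · rw [if_neg (by omega), if_neg (by omega), if_pos h]; omega
    · rw [if_pos h, if_neg (by omega), if_neg (by omega)]; omega
  omega

theorem sum_ell_le_card (k : ℕ) : ∑ i ∈ Finset.Ico 1 k, ell i (k - i) ≤ (UU k).card := by
  rw [← sum_UU_D]
  have h1 : ∑ i ∈ Finset.Ico 1 k, ell i (k - i) =
      ∑ p ∈ (Finset.Ico 1 k).image (fun i => ((1, 1, i, k - i) : ℕ × ℕ × ℕ × ℕ)),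
        ell p.2.2.1 p.2.2.2 := by
    rw [Finset.sum_image]
    intro i _ j _ hij
    simp only [Prod.mk.injEq, true_and] at hij
    exact hij.1
  rw [h1]
  apply Finset.sum_le_sum_of_subset
  intro p hp
  rw [Finset.mem_image] at hp
  obtain ⟨i, hi, rfl⟩ := hp
  rw [Finset.mem_Ico] at hi
  rw [Finset.mem_filter, mem_UU]
  simp only
  refine ⟨⟨⟨le_rfl, le_rfl, hi.1, by omega⟩, by omega⟩, trivial⟩

theorem card_VV (J : ℕ) : ∀ J' ≤ J, ∑ x ∈ Finset.Ico 1 (2 ^ J'), 2 ^ J / x ≤ J' * 2 ^ J := by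
  intro J'
  induction J' with
  | zero => intro _; simp
  | succ n ih =>
    intro hn
    have h1 : (1 : ℕ) ≤ 2 ^ n := Nat.one_le_two_pow
    have h2 : (2 : ℕ) ^ n ≤ 2 ^ (n + 1) := Nat.pow_le_pow_right (by norm_num) (by omega)
    rw [← Finset.sum_Ico_consecutive _ h1 h2, add_mul, one_mul]
    apply add_le_add (ih (by omega))
    have h3 : ∀ x ∈ Finset.Ico (2 ^ n) (2 ^ (n + 1)), 2 ^ J / x ≤ 2 ^ (J - n) := by
      intro x hx
      rw [Finset.mem_Ico] at hx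
      have h4 : 2 ^ J / x ≤ 2 ^ J / 2 ^ n := Nat.div_le_div_left hx.1 (by positivity)
      rwa [Nat.pow_div (by omega) (by norm_num)] at h4
    refine (Finset.sum_le_card_nsmul _ _ _ h3).trans ?_
    rw [Nat.card_Ico, smul_eq_mul, pow_succ, Nat.mul_two, Nat.add_sub_cancel, ← pow_add,
      Nat.add_sub_cancel' (by omega)]

theorem card_fiber (L k x a : ℕ) (hk : k ≤ 4 ^ L) :
    ((UU k).filter fun p => (p.1, p.2.2.1) = (x, a)).card ≤ 2 ^ L + 2 ^ L := by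
  have h1 : (UU k).filter (fun p => (p.1, p.2.2.1) = (x, a)) ⊆
      ((UU k).filter (fun p => (p.1, p.2.2.1) = (x, a) ∧ p.2.1 ≤ 2 ^ L)) ∪
      ((UU k).filter (fun p => (p.1, p.2.2.1) = (x, a) ∧ p.2.2.2 ≤ 2 ^ L)) := by
    intro p hp
    rw [Finset.mem_filter] at hp
    rw [Finset.mem_union, Finset.mem_filter, Finset.mem_filter]
    by_contra hcon
    rw [not_or] at hcon
    have h2 : 2 ^ L < p.2.1 := by
      by_contra h
      exact hcon.1 ⟨hp.1, hp.2, by omega⟩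
    have h3 : 2 ^ L < p.2.2.2 := by
      by_contra h
      exact hcon.2 ⟨hp.1, hp.2, by omega⟩
    have h4 := (mem_UU.1 hp.1).2
    have h5 : (4 : ℕ) ^ L = 2 ^ L * 2 ^ L := by
      rw [← mul_pow]
      norm_num
    have h6 : 2 ^ L * 2 ^ L < p.2.2.2 * p.2.1 := Nat.mul_lt_mul'' h3 h2
    omega
  refine (Finset.card_le_card h1).trans ((Finset.card_union_le _ _).trans (add_le_add ?_ ?_))
  · have h2 := Finset.card_le_card_of_injOn (s := (UU k).filter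
      (fun p => (p.1, p.2.2.1) = (x, a) ∧ p.2.1 ≤ 2 ^ L)) (t := Finset.Icc 1 (2 ^ L))
      (fun p => p.2.1)
      (by
        intro p hp
        rw [Finset.mem_coe, Finset.mem_filter] at hp
        rw [Finset.mem_coe, Finset.mem_Icc]
        exact ⟨(mem_UU.1 hp.1).1.2.1, hp.2.2⟩)
      (by
        rintro ⟨x1, y1, a1, b1⟩ hp ⟨x2, y2, a2, b2⟩ hq hpq
        rw [Finset.mem_coe, Finset.mem_filter, mem_UU] at hp hq
        simp only [Prod.mk.injEq] at hp hq hpq ⊢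
        obtain ⟨⟨⟨_, hy, _, _⟩, e1⟩, ⟨r1, r2⟩, _⟩ := hp
        obtain ⟨⟨_, e2⟩, ⟨r3, r4⟩, _⟩ := hq
        subst r1 r2 r3 r4 hpq
        have e3 : b1 * y1 = b2 * y1 := by omega
        exact ⟨rfl, rfl, rfl, Nat.eq_of_mul_eq_mul_right hy e3⟩)
    rwa [Nat.card_Icc, Nat.add_sub_cancel] at h2
  · have h2 := Finset.card_le_card_of_injOn (s := (UU k).filter
      (fun p => (p.1, p.2.2.1) = (x, a) ∧ p.2.2.2 ≤ 2 ^ L)) (t := Finset.Icc 1 (2 ^ L))
      (fun p => p.2.2.2)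
      (by
        intro p hp
        rw [Finset.mem_coe, Finset.mem_filter] at hp
        rw [Finset.mem_coe, Finset.mem_Icc]
        exact ⟨(mem_UU.1 hp.1).1.2.2.2, hp.2.2⟩)
      (by
        rintro ⟨x1, y1, a1, b1⟩ hp ⟨x2, y2, a2, b2⟩ hq hpq
        rw [Finset.mem_coe, Finset.mem_filter, mem_UU] at hp hq
        simp only [Prod.mk.injEq] at hp hq hpq ⊢
        obtain ⟨⟨⟨_, _, _, hb⟩, e1⟩, ⟨r1, r2⟩, _⟩ := hp
        obtain ⟨⟨_, e2⟩, ⟨r3, r4⟩, _⟩ := hq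
        subst r1 r2 r3 r4 hpq
        have e3 : b1 * y1 = b1 * y2 := by omega
        exact ⟨rfl, Nat.eq_of_mul_eq_mul_left hb e3, rfl, rfl⟩)
    rwa [Nat.card_Icc, Nat.add_sub_cancel] at h2

theorem card_image (J : ℕ) :
    ((UU (2 ^ J)).image fun p => (p.1, p.2.2.1)).card ≤ J * 2 ^ J := by
  refine le_trans ?_ (card_VV J J le_rfl)
  have h1 : (UU (2 ^ J)).image (fun p => (p.1, p.2.2.1)) ⊆
      ((Finset.Ico 1 (2 ^ J)).sigma (fun x => Finset.Icc 1 (2 ^ J / x))).image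
        (fun q => (q.1, q.2)) := by
    intro q hq
    rw [Finset.mem_image] at hq ⊢
    obtain ⟨p, hp, rfl⟩ := hq
    obtain ⟨⟨h1, h2, h3, h4⟩, h5⟩ := mem_UU.1 hp
    have h6 : 1 ≤ p.2.2.2 * p.2.1 := Nat.mul_pos h4 h2
    have h7 : p.1 ≤ p.2.2.1 * p.1 := Nat.le_mul_of_pos_left _ h3
    refine ⟨⟨p.1, p.2.2.1⟩, ?_, rfl⟩
    rw [Finset.mem_sigma, Finset.mem_Ico, Finset.mem_Icc]
    simp only
    refine ⟨⟨h1, by omega⟩, h3, ?_⟩
    rw [Nat.le_div_iff_mul_le h1]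
    omega
  refine (Finset.card_le_card h1).trans (Finset.card_image_le.trans ?_)
  rw [Finset.card_sigma]
  apply Finset.sum_le_sum
  intro x _
  rw [Nat.card_Icc, Nat.add_sub_cancel]

theorem card_UU (L : ℕ) : (UU (2 ^ (2 * L))).card ≤ (2 ^ L + 2 ^ L) * (2 * L * 2 ^ (2 * L)) := by
  refine (Finset.card_le_mul_card_image (f := fun p : ℕ × ℕ × ℕ × ℕ => (p.1, p.2.2.1)) _
    (2 ^ L + 2 ^ L) ?_).trans (Nat.mul_le_mul_left _ (card_image _))
  rintro ⟨x, a⟩ _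
  apply card_fiber
  rw [pow_mul]
  norm_num

/-- the average number of steps of the subtractive algorithm is `o(k)` -/
theorem sum_ell (T : ℕ) : ∃ J : ℕ, 1 ≤ J ∧
    T * (1 + ∑ i ∈ Finset.Ico 1 (2 ^ J), ell i (2 ^ J - i)) ≤ (2 ^ J) ^ 2 - 1 := by
  obtain ⟨M, hM⟩ : ∃ M, M = 9 * T + 9 := ⟨_, rfl⟩
  refine ⟨2 * (2 * M), by omega, ?_⟩
  have h1 := (sum_ell_le_card (2 ^ (2 * (2 * M)))).trans (card_UU (2 * M))
  have h2 : M < 2 ^ M := Nat.lt_two_pow_self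
  have h3 : M * M ≤ 2 ^ (2 * M) := by
    rw [mul_comm 2 M, pow_mul, sq]
    exact Nat.mul_le_mul h2.le h2.le
  set L := 2 * M with hL
  set E := ∑ i ∈ Finset.Ico 1 (2 ^ (2 * L)), ell i (2 ^ (2 * L) - i) with hE
  set P := 2 ^ L with hP
  have h4 : (2 : ℕ) ^ (2 * L) = P * P := by
    rw [hP, mul_comm 2 L, pow_mul, sq]
  rw [h4] at h1 ⊢
  have h5 : 1 ≤ P := Nat.one_le_two_pow
  have h6 : 4 * T * L + T + 1 ≤ P := by
    refine le_trans ?_ h3
    rw [hL]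
    nlinarith
  have h7 : T * (1 + E) + 1 ≤ (P * P) ^ 2 := by
    have h8 : T * E ≤ T * ((P + P) * (2 * L * (P * P))) := Nat.mul_le_mul_left T h1
    have h9 : (4 * T * L + T + 1) * (P * P * P) ≤ P * (P * P * P) := Nat.mul_le_mul_right _ h6
    have h10 : 1 ≤ P * P * P := Nat.mul_pos (Nat.mul_pos h5 h5) h5
    have h11 : T * 1 ≤ T * (P * P * P) := Nat.mul_le_mul_left T h10
    nlinarith
  omega

end Pool.Agent.Helper90.HC
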