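import Pool.Agent.Helper90.HC.CremC

/-!
# The Cremona step
-/

open MvPolynomial

namespace Pool.Agent.Helper90.HC

lemma pt_new {p q1 q2 t : P2} (ht : coeff 0 t = 0) (hp : coeff 0 p = 1) :
    pt ![t * q1 * q2, p * q2, p * q1] = ![0, coeff 0 q2, coeff 0 q1] := by
  funext i
  fin_cases i
  · show coeff 0 (t * q1 * q2) = 0
    rw [cc_mul, cc_mul, ht, zero_mul, zero_mul]
  · show coeff 0 (p * q2) = coeff 0 q2
    rw [cc_mul, hp, one_mul]
  · show coeff 0 (p * q1) = coeff 0 q1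
    rw [cc_mul, hp, one_mul]

/-- division in the chart `R` -/
lemma exists_quot_R (c : ℂ) {g : P2} (h : coeff 0 g = 0) :
    ∃ q : P2, thR c g = X 0 * q ∧
      coeff 0 q = coeff 0 (pderiv 0 g) + coeff 0 (pderiv 1 g) * c := by
  obtain ⟨q, hq⟩ := exists_chartR c ((ordGe_one_iff g).2 h)
  rw [← thR_apply, pow_one] at hq
  exact ⟨q, hq, (quot_R hq).1⟩

/-- division in the chart `L` -/
lemma exists_quot_L {g : P2} (h : coeff 0 g = 0) :
    ∃ q : P2, thL g = X 1 * q ∧ coeff 0 q = coeff 0 (pderiv 1 g) := by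
  obtain ⟨q, hq⟩ := exists_chartL ((ordGe_one_iff g).2 h)
  rw [← thL_apply, pow_one] at hq
  exact ⟨q, hq, (quot_L hq).1⟩

/-- two vectors on the line `x = 0` -/
lemma prl_line {a b c d : ℂ} (hb : b ≠ 0) (hd : d ≠ 0) (h : a * d = b * c) (_ : c ≠ 0) :
    Prl ![0, a, b] ![0, c, d] := by
  refine ⟨d / b, div_ne_zero hd hb, ?_⟩
  funext i
  fin_cases i
  · simp
  · show c = d / b * a
    rw [div_mul_eq_mul_div, eq_div_iff hb, mul_comm d a, h, mul_comm]
  · show d = d / b * b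
    rw [div_mul_cancel₀ _ hb]

/-- the new points on the line `x = 0` -/
theorem line_x {m d : ℕ} {F : P3} (hF : MulGe m F) (hd : F.IsHomogeneous d) (hmd : m ≤ d)
    {ρ : Par} (hρ : Etale ρ) (hpt : pt ρ = e0) {G : P2} (hloc : Loc F ρ G) (hG : OrdGe m G)
    (hc : ∀ c : ℂ, c ≠ 0 → ∀ H : P2, chartR c G = X 0 ^ m * H → ¬ OrdGe 2 H)
    (hX : dX ρ 1 ≠ 0 ∧ dX ρ 2 ≠ 0) (hY : dY ρ 1 ≠ 0 ∧ dY ρ 2 ≠ 0)
    {r : V3} (hr0 : r 0 = 0) (hr1 : r 1 ≠ 0) (hr2 : r 2 ≠ 0) (hr : Sg (crem m F) r) :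
    Prl ![0, dX ρ 2, dX ρ 1] r ∨ Prl ![0, dY ρ 2, dY ρ 1] r := by
  have hr' : r = ![0, r 1, r 2] := by
    funext i
    fin_cases i
    · exact hr0
    · rfl
    · rfl
  obtain ⟨c0, c1, c2⟩ := pt_e0 hpt
  have hdet : dX ρ 1 * dY ρ 2 - dX ρ 2 * dY ρ 1 ≠ 0 := by
    rw [← det_e0 hpt]
    exact hρ
  by_cases h1 : dY ρ 2 * r 2 - dY ρ 1 * r 1 = 0
  · right
    rw [hr']
    exact prl_line hY.1 hr2 (sub_eq_zero.1 h1) hr1
  · set c : ℂ := (dX ρ 1 * r 1 - dX ρ 2 * r 2) / (dY ρ 2 * r 2 - dY ρ 1 * r 1) with hcdef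
    have hc1 : c * (dY ρ 2 * r 2 - dY ρ 1 * r 1) = dX ρ 1 * r 1 - dX ρ 2 * r 2 := by
      rw [hcdef, div_mul_cancel₀ _ h1]
    by_cases hc0 : c = 0
    · left
      rw [hc0, zero_mul] at hc1
      rw [hr']
      exact prl_line hX.1 hr2 (sub_eq_zero.1 hc1.symm).symm hr1
    · exfalso
      obtain ⟨q1, hq1, hq1'⟩ := exists_quot_R c c1
      obtain ⟨q2, hq2, hq2'⟩ := exists_quot_R c c2
      rw [← dX_eq, ← dY_eq] at hq1' hq2'
      have hrel : coeff 0 q2 * r 2 = coeff 0 q1 * r 1 := by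
        rw [hq1', hq2']
        linear_combination hc1
      have hne1 : coeff 0 q1 ≠ 0 := by
        intro h0
        have h2 : coeff 0 q2 = 0 := by
          rw [h0, zero_mul] at hrel
          exact (mul_eq_zero.1 hrel).resolve_right hr2
        rw [hq1'] at h0
        rw [hq2'] at h2
        apply hdet
        linear_combination dY ρ 2 * h0 - dY ρ 1 * h2
      have hne2 : coeff 0 q2 ≠ 0 := by
        intro h0
        rw [h0, zero_mul] at hrel
        exact mul_ne_zero hne1 hr1 hrel.symm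
      obtain ⟨U, hU, hloc⟩ := hloc
      obtain ⟨H, hH⟩ := exists_chartR c hG
      have hL : Loc (crem m F) ![X 0 * q1 * q2, thR c (ρ 0) * q2, thR c (ρ 0) * q1] H :=
        locBlow hF hd hmd hloc (thR c) (X 0) q1 q2 H (X_ne_zero 0) (by rwa [cc_thR]) hq1 hq2
          hH hne1 hne2 (by rw [cc_thR, c0]; exact one_ne_zero)
      apply not_sg_of_loc hL (hc c hc0 H hH)
      have h5 : Prl r (pt ![X 0 * q1 * q2, thR c (ρ 0) * q2, thR c (ρ 0) * q1]) := by
        rw [pt_new (cc_X 0) (by rw [cc_thR, c0]), hr']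
        exact prl_line hr2 hne1 (by rw [mul_comm, ← hrel, mul_comm]) hne2
      obtain ⟨e, he, h5⟩ := h5
      rw [h5]
      exact sg_smul (crem_hom hF hd) he hr

/-- The Cremona step, in coordinates: the first active point is `(1, 0, 0)`, and the two other
vertices are in general position. -/
theorem cremona_step {d : ℕ} {F : P3} {D : List (V3 × ℕ)} {a : Act} {A : List Act}
    (h : St d F D (a :: A)) (ha : pt a.ρ = e0) (h1 : eval e1 F ≠ 0) (h2 : eval e2 F ≠ 0)
    (hT : ∀ s ∈ pts D A, ∀ i, s i ≠ 0)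
    (hX : dX a.ρ 1 ≠ 0 ∧ dX a.ρ 2 ≠ 0) (hY : dY a.ρ 1 ≠ 0 ∧ dY a.ρ 2 ≠ 0)
    {m : ℕ} {KR KL : P2} {N1 Q1 N2 Q2 : ℕ} (hG : OrdGe m a.G)
    (hR : chartR 0 a.G = X 0 ^ m * KR) (hL : chartL a.G = X 1 ^ m * KL)
    (hc : ∀ c : ℂ, c ≠ 0 → ∀ H : P2, chartR c a.G = X 0 ^ m * H → ¬ OrdGe 2 H)
    (t1 : Tr KR N1 Q1) (t2 : Tr KL N2 Q2) :
    ∃ (d' : ℕ) (F' : P3) (D' : List (V3 × ℕ)) (A' : List Act), St d' F' D' A' ∧
      D'.length = D.length + 3 ∧ A'.length = A.length + 2 ∧ Ns A' = Ns A + N1 + N2 ∧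
      Qs A' = Qs A + Q1 + Q2 ∧ (d' : ℤ) ^ 2 - sqs D' = (d : ℤ) ^ 2 - sqs D - (m : ℤ) ^ 2 := by
  obtain ⟨hρ, hloc, -⟩ := h.act a List.mem_cons_self
  have hact : ∀ b ∈ A, Etale b.ρ ∧ Loc F b.ρ b.G ∧ Tr b.G b.N b.Q :=
    fun b hb => h.act b (List.mem_cons_of_mem _ hb)
  obtain ⟨U, hU, hloc'⟩ := id hloc
  have hF : MulGe m F := by
    apply mulGe_of_par m h.hom hρ ha
    rw [hloc']
    exact hG.mul_left _
  have hmd : m ≤ d := by
    obtain ⟨s, hs⟩ := (support_nonempty (p := F)).2 h.ne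
    have h3 := hF s hs
    have h4 := degree_of_hom h.hom hs
    omega
  obtain ⟨c0, c1, c2⟩ := pt_e0 ha
  obtain ⟨q1, hq1, hq1'⟩ := exists_quot_R 0 c1
  obtain ⟨q2, hq2, hq2'⟩ := exists_quot_R 0 c2
  rw [← dX_eq, mul_zero, add_zero] at hq1' hq2'
  obtain ⟨u1, hu1, hu1'⟩ := exists_quot_L c1
  obtain ⟨u2, hu2, hu2'⟩ := exists_quot_L c2
  rw [← dY_eq] at hu1' hu2'
  let aR : Act := ⟨![X 0 * q1 * q2, thR 0 (a.ρ 0) * q2, thR 0 (a.ρ 0) * q1], KR, N1, Q1⟩
  let aL : Act := ⟨![X 1 * u1 * u2, thL (a.ρ 0) * u2, thL (a.ρ 0) * u1], KL, N2, Q2⟩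
  have hptR : pt aR.ρ = ![0, dX a.ρ 2, dX a.ρ 1] := by
    rw [← hq1', ← hq2']
    exact pt_new (cc_X 0) (by rw [cc_thR, c0])
  have hptL : pt aL.ρ = ![0, dY a.ρ 2, dY a.ρ 1] := by
    rw [← hu1', ← hu2']
    exact pt_new (cc_X 1) (by rw [cc_thL, c0])
  let f : V3 × ℕ → V3 × ℕ := fun s => (sgm s.1, s.2)
  let g : Act → Act := fun b => ⟨sgm b.ρ, b.G, b.N, b.Q⟩
  let D' : List (V3 × ℕ) := (e0, d) :: (e1, d - m) :: (e2, d - m) :: D.map f
  let A' : List Act := aR :: aL :: A.map g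
  have hpts : (pts D' A').Perm (e0 :: e1 :: e2 :: pt aR.ρ :: pt aL.ρ :: (pts D A).map sgm) := by
    have h3 : pts D' A' = e0 :: e1 :: e2 :: ((D.map fun s => sgm s.1) ++
        (pt aR.ρ :: pt aL.ρ :: (A.map fun b => sgm (pt b.ρ)))) := by
      simp only [pts, D', A', List.map_cons, List.map_map, List.cons_append]
      congr 4
      · congr 3
        funext b
        exact pt_sgm b.ρ
    have h4 : (pts D A).map sgm = (D.map fun s => sgm s.1) ++ (A.map fun b => sgm (pt b.ρ)) := by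
      simp only [pts, List.map_append, List.map_map]
      rfl
    rw [h3, h4]
    refine List.Perm.cons _ (List.Perm.cons _ (List.Perm.cons _ ?_))
    refine (List.perm_middle).trans (List.Perm.cons _ ?_)
    exact List.perm_middle
  have hdet : dX a.ρ 1 * dY a.ρ 2 - dX a.ρ 2 * dY a.ρ 1 ≠ 0 := by
    rw [← det_e0 ha]
    exact hρ
  refine ⟨2 * d - m, crem m F, D', A', ⟨crem_ne hF h.hom h.ne, crem_hom hF h.hom, ?_, ?_, ?_, ?_⟩,
    ?_, ?_, ?_, ?_, ?_⟩
  · -- active points
    intro b hb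
    rcases List.mem_cons.1 hb with rfl | hb
    · refine ⟨etale_R hρ ha hq1 hq2 (by rw [hq1']; exact hX.1) (by rw [hq2']; exact hX.2), ?_, t1⟩
      exact locBlow hF h.hom hmd hloc' (thR 0) (X 0) q1 q2 KR (X_ne_zero 0) (by rwa [cc_thR])
        hq1 hq2 hR (by rw [hq1']; exact hX.1) (by rw [hq2']; exact hX.2)
        (by rw [cc_thR, c0]; exact one_ne_zero)
    rcases List.mem_cons.1 hb with rfl | hb
    · refine ⟨etale_L hρ ha hu1 hu2 (by rw [hu1']; exact hY.1) (by rw [hu2']; exact hY.2), ?_, t2⟩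
      exact locBlow hF h.hom hmd hloc' thL (X 1) u1 u2 KL (X_ne_zero 1) (by rwa [cc_thL])
        hu1 hu2 hL (by rw [hu1']; exact hY.1) (by rw [hu2']; exact hY.2)
        (by rw [cc_thL, c0]; exact one_ne_zero)
    obtain ⟨b', hb', rfl⟩ := List.mem_map.1 hb
    obtain ⟨k1, k2, k3⟩ := hact b' hb'
    have k4 : ∀ i, pt b'.ρ i ≠ 0 :=
      hT _ (List.mem_append_right _ (List.mem_map_of_mem hb'))
    exact ⟨etale_sgm k1 k4, k2.sgm hF h.hom hmd k4, k3⟩
  · -- done points
    intro s hs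
    have he : e0 ≠ 0 ∧ e1 ≠ 0 ∧ e2 ≠ 0 := by
      refine ⟨fun h => ?_, fun h => ?_, fun h => ?_⟩
      · simpa [e0] using congrFun h 0
      · simpa [e1] using congrFun h 1
      · simpa [e2] using congrFun h 2
    rcases List.mem_cons.1 hs with rfl | hs
    · exact ⟨he.1, crem_e0 h.hom⟩
    rcases List.mem_cons.1 hs with rfl | hs
    · exact ⟨he.2.1, crem_e1 hF h.hom⟩
    rcases List.mem_cons.1 hs with rfl | hs
    · exact ⟨he.2.2, crem_e2 hF h.hom⟩
    obtain ⟨s', hs', rfl⟩ := List.mem_map.1 hs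
    have k4 : ∀ i, s'.1 i ≠ 0 := hT _ (List.mem_append_left _ (List.mem_map_of_mem hs'))
    refine ⟨fun h0 => sgm_ne k4 0 (congrFun h0 0), don_sgm hF h.hom k4 (h.don s' hs').2⟩
  · -- distinct points
    rw [hpts.pairwise_iff (fun {x y} hxy hyx => hxy hyx.symm)]
    have hsg : ∀ s ∈ (pts D A).map sgm, ∀ i, s i ≠ 0 := by
      intro s hs
      obtain ⟨s', hs', rfl⟩ := List.mem_map.1 hs
      exact sgm_ne (hT s' hs')
    have hRi : ∀ i : Fin 3, pt aR.ρ i = 0 ↔ i = 0 := by
      intro i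
      rw [hptR]
      fin_cases i
      · simp
      · simpa using hX.2
      · simpa using hX.1
    have hLi : ∀ i : Fin 3, pt aL.ρ i = 0 ↔ i = 0 := by
      intro i
      rw [hptL]
      fin_cases i
      · simp
      · simpa using hY.2
      · simpa using hY.1
    refine List.pairwise_cons.2 ⟨?_, List.pairwise_cons.2 ⟨?_, List.pairwise_cons.2 ⟨?_,
      List.pairwise_cons.2 ⟨?_, List.pairwise_cons.2 ⟨?_, ?_⟩⟩⟩⟩⟩
    · intro s hs hp
      have z0 := hp.zero_iff 0
      have z1 := hp.zero_iff 1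
      simp only [List.mem_cons] at hs
      rcases hs with rfl | rfl | rfl | rfl | hs
      · simp [e0, e1] at z0
      · simp [e0, e2] at z0
      · rw [hRi] at z0
        simp [e0] at z0
      · rw [hLi] at z0
        simp [e0] at z0
      · exact hsg s hs 1 (z1.1 (by simp [e0]))
    · intro s hs hp
      have z1 := hp.zero_iff 1
      have z2 := hp.zero_iff 2
      simp only [List.mem_cons] at hs
      rcases hs with rfl | rfl | rfl | hs
      · simp [e1, e2] at z1
      · rw [hRi] at z2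
        simp [e1] at z2
      · rw [hLi] at z2
        simp [e1] at z2
      · exact hsg s hs 2 (z2.1 (by simp [e1]))
    · intro s hs hp
      have z1 := hp.zero_iff 1
      simp only [List.mem_cons] at hs
      rcases hs with rfl | rfl | hs
      · rw [hRi] at z1
        simp [e2] at z1
      · rw [hLi] at z1
        simp [e2] at z1
      · exact hsg s hs 1 (z1.1 (by simp [e2]))
    · intro s hs hp
      simp only [List.mem_cons] at hs
      rcases hs with rfl | hs
      · rw [hptR, hptL] at hp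
        obtain ⟨c, hc', hp⟩ := hp
        have p1 : dY a.ρ 2 = c * dX a.ρ 2 := congrFun hp 1
        have p2 : dY a.ρ 1 = c * dX a.ρ 1 := congrFun hp 2
        apply hdet
        rw [p1, p2]
        ring
      · exact hsg s hs 0 ((hp.zero_iff 0).1 ((hRi 0).2 rfl))
    · intro s hs hp
      exact hsg s hs 0 ((hp.zero_iff 0).1 ((hLi 0).2 rfl))
    · rw [List.pairwise_map]
      have hdis : (pts D A).Pairwise fun r s => ¬ Prl r s := by
        have h3 := h.dis
        have h4 : (pts D A).Sublist (pts D (a :: A)) := by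
          rw [pts, pts, List.map_cons]
          exact List.Sublist.append_left (List.sublist_cons_self _ _) _
        exact h3.sublist h4
      refine hdis.imp_of_mem fun {r s} hr hs hn hp => hn ?_
      exact Prl.of_sgm (hT r hr) (hT s hs) hp
  · -- singular points
    intro r hr hsg
    have hmem : ∀ s : V3, s ∈ e0 :: e1 :: e2 :: pt aR.ρ :: pt aL.ρ :: (pts D A).map sgm →
        s ∈ pts D' A' := fun s hs => hpts.mem_iff.2 hs
    by_cases r0 : r 0 = 0
    · by_cases r1 : r 1 = 0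
      · refine ⟨e2, hmem _ (by simp), r 2, ?_, ?_⟩
        · intro r2
          apply hr
          funext i
          fin_cases i
          · exact r0
          · exact r1
          · exact r2
        · funext i
          fin_cases i <;> simp [e2, r0, r1]
      · by_cases r2 : r 2 = 0
        · refine ⟨e1, hmem _ (by simp), r 1, r1, ?_⟩
          funext i
          fin_cases i <;> simp [e1, r0, r2]
        · rcases line_x hF h.hom hmd hρ ha hloc hG hc hX hY r0 r1 r2 hsg with hp | hp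
          · exact ⟨pt aR.ρ, hmem _ (by simp), by rw [hptR]; exact hp⟩
          · exact ⟨pt aL.ρ, hmem _ (by simp), by rw [hptL]; exact hp⟩
    · by_cases r1 : r 1 = 0
      · by_cases r2 : r 2 = 0
        · refine ⟨e0, hmem _ (by simp), r 0, r0, ?_⟩
          funext i
          fin_cases i <;> simp [e0, r1, r2]
        · exact absurd hsg.1 (line_y hF h.hom h1 r0 r1 r2)
      · by_cases r2 : r 2 = 0
        · exact absurd hsg.1 (line_z hF h.hom h2 r0 r1 r2)
        · have hr' : ∀ i, r i ≠ 0 := by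
            intro i
            fin_cases i
            · exact r0
            · exact r1
            · exact r2
          have h3 := sg_torus hF h.hom hr' hsg
          obtain ⟨s, hs, hp⟩ := h.sing (sgm r) (fun h0 => sgm_ne hr' 0 (congrFun h0 0)) h3
          have h4 : s = pt a.ρ ∨ s ∈ pts D A := by
            simp only [pts, List.map_cons, List.mem_append, List.mem_cons] at hs ⊢
            tauto
          rcases h4 with rfl | h4
          · exfalso
            rw [ha] at hp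
            exact sgm_ne hr' 1 ((hp.zero_iff 1).1 (by simp [e0]))
          · refine ⟨sgm s, hmem _ ?_, ?_⟩
            · simp only [List.mem_cons]
              right; right; right; right; right
              exact List.mem_map_of_mem h4
            · exact hp.sgm.trans (prl_sgm_sgm hr').symm
  · simp [D']
  · simp [A']
  · simp only [Ns, A', List.map_cons, List.sum_cons, List.map_map, aR, aL]
    have h3 : A.map (Act.N ∘ g) = A.map Act.N := rfl
    rw [h3]
    ring
  · simp only [Qs, A', List.map_cons, List.sum_cons, List.map_map, aR, aL]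
    have h3 : A.map ((fun a => (a.Q : ℤ)) ∘ g) = A.map fun a => (a.Q : ℤ) := rfl
    rw [h3]
    ring
  · simp only [sqs, D', List.map_cons, List.sum_cons, List.map_map]
    have h3 : D.map ((fun s : V3 × ℕ => (s.2 : ℤ) ^ 2) ∘ f) = D.map fun s => (s.2 : ℤ) ^ 2 := rfl
    rw [h3]
    have h4 : ((2 * d - m : ℕ) : ℤ) = 2 * d - m := by
      rw [Nat.cast_sub (by omega)]
      push_cast
      rfl
    have h5 : ((d - m : ℕ) : ℤ) = d - m := by
      rw [Nat.cast_sub hmd]
    rw [h4, h5]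
    ring

end Pool.Agent.Helper90.HC
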