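import Pool.Agent.Helper90.HC.Lin

/-!
# The Cremona transform of a plane curve
-/

open MvPolynomial

namespace Pool.Agent.Helper90.HC

/-- the standard quadratic map -/
def sgm {A : Type*} [Mul A] (v : Fin 3 → A) : Fin 3 → A := ![v 1 * v 2, v 0 * v 2, v 0 * v 1]

/-- the exponent of the image of a monomial -/
noncomputable def cexp (m : ℕ) (s : Fin 3 →₀ ℕ) : Fin 3 →₀ ℕ :=
  Finsupp.equivFunOnFinite.symm ![s 1 + s 2 - m, s 0 + s 2, s 0 + s 1]

@[simp] lemma cexp_zero (m : ℕ) (s : Fin 3 →₀ ℕ) : cexp m s 0 = s 1 + s 2 - m := rfl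
@[simp] lemma cexp_one (m : ℕ) (s : Fin 3 →₀ ℕ) : cexp m s 1 = s 0 + s 2 := rfl
@[simp] lemma cexp_two (m : ℕ) (s : Fin 3 →₀ ℕ) : cexp m s 2 = s 0 + s 1 := rfl

/-- the Cremona transform -/
noncomputable def crem (m : ℕ) (F : P3) : P3 :=
  ∑ s ∈ F.support, monomial (cexp m s) (coeff s F)

lemma aeval_monomial3 {A : Type*} [CommRing A] [Algebra ℂ A] (v : Fin 3 → A) (s : Fin 3 →₀ ℕ)
    (c : ℂ) : aeval v (monomial s c : P3) =
      algebraMap ℂ A c * (v 0 ^ s 0 * v 1 ^ s 1 * v 2 ^ s 2) := by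
  rw [aeval_monomial, Finsupp.prod_fintype _ _ (fun i => pow_zero _), Fin.prod_univ_three]

lemma aeval_eq_sum3 {A : Type*} [CommRing A] [Algebra ℂ A] (v : Fin 3 → A) (F : P3) :
    aeval v F = ∑ s ∈ F.support,
      algebraMap ℂ A (coeff s F) * (v 0 ^ s 0 * v 1 ^ s 1 * v 2 ^ s 2) := by
  rw [aeval_def, eval₂_eq']
  refine Finset.sum_congr rfl fun s _ => ?_
  rw [Fin.prod_univ_three]

/-- the multiplicity of `F` at `(1, 0, 0)` is at least `m` -/
def MulGe (m : ℕ) (F : P3) : Prop := ∀ s ∈ F.support, m ≤ s 1 + s 2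

lemma crem_key {A : Type*} [CommRing A] [Algebra ℂ A] {m : ℕ} {F : P3} (hF : MulGe m F)
    (v : Fin 3 → A) : aeval (sgm v) F = v 0 ^ m * aeval v (crem m F) := by
  rw [crem, map_sum, aeval_eq_sum3, Finset.mul_sum]
  refine Finset.sum_congr rfl fun s hs => ?_
  rw [aeval_monomial3]
  obtain ⟨t, ht⟩ := Nat.exists_eq_add_of_le (hF s hs)
  have h1 : s 1 + s 2 - m = t := by omega
  simp only [cexp_zero, cexp_one, cexp_two, h1, sgm, Matrix.cons_val_zero, Matrix.cons_val_one,
    Matrix.cons_val_two, Matrix.tail_cons, Matrix.head_cons]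
  have h2 : v 0 ^ m * v 0 ^ t = v 0 ^ (s 1) * v 0 ^ (s 2) := by
    rw [← pow_add, ← pow_add, ← ht]
  simp only [mul_pow, pow_add]
  linear_combination (- algebraMap ℂ A (coeff s F) * v 1 ^ (s 0) * v 1 ^ (s 2) * v 2 ^ (s 0) *
    v 2 ^ (s 1)) * h2

lemma sgm_sgm {A : Type*} [CommRing A] (v : Fin 3 → A) :
    sgm (sgm v) = fun i => (v 0 * v 1 * v 2) * v i := by
  funext i
  fin_cases i <;> simp [sgm] <;> ring

lemma crem_key' {A : Type*} [CommRing A] [Algebra ℂ A] {m d : ℕ} {F : P3} (hF : MulGe m F)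
    (hd : F.IsHomogeneous d) (v : Fin 3 → A) :
    (v 0 * v 1 * v 2) ^ d * aeval v F = (v 1 * v 2) ^ m * aeval (sgm v) (crem m F) := by
  have h1 := crem_key hF (sgm v)
  rw [sgm_sgm, aeval_smul_of_hom hd] at h1
  exact h1

lemma crem_ne {m d : ℕ} {F : P3} (hF : MulGe m F) (hd : F.IsHomogeneous d) (h0 : F ≠ 0) :
    crem m F ≠ 0 := by
  intro h
  have h1 := crem_key' hF hd (X : Fin 3 → P3)
  rw [h, map_zero, mul_zero, aeval_X_left, AlgHom.id_apply] at h1
  have h2 : ∀ i : Fin 3, (X i : P3) ≠ 0 := fun i => X_ne_zero i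
  exact h0 ((mul_eq_zero.1 h1).resolve_left
    (pow_ne_zero _ (mul_ne_zero (mul_ne_zero (h2 0) (h2 1)) (h2 2))))

lemma degree3 (s : Fin 3 →₀ ℕ) : s.degree = s 0 + s 1 + s 2 := by
  rw [Finsupp.degree_eq_sum, Fin.sum_univ_three]

lemma degree_of_hom {d : ℕ} {F : P3} (hd : F.IsHomogeneous d) {s : Fin 3 →₀ ℕ}
    (hs : s ∈ F.support) : s 0 + s 1 + s 2 = d := by
  rw [← degree3, ← hd (mem_support_iff.1 hs)]
  exact DFunLike.congr_fun Finsupp.degree_eq_weight_one s

lemma crem_hom {m d : ℕ} {F : P3} (hF : MulGe m F) (hd : F.IsHomogeneous d) :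
    (crem m F).IsHomogeneous (2 * d - m) := by
  refine IsHomogeneous.sum _ _ _ fun s hs => ?_
  refine isHomogeneous_monomial _ ?_
  rw [degree3, cexp_zero, cexp_one, cexp_two]
  have h1 := degree_of_hom hd hs
  have h2 := hF s hs
  omega

/-- orders of the Cremona transform at the vertices -/
lemma crem_tr (m : ℕ) (F : P3) (p : V3) (e : ℕ)
    (h : ∀ s ∈ F.support, OrdGe e (tr p (monomial (cexp m s) 1))) : OrdGe e (tr p (crem m F)) := by
  rw [crem, tr, map_sum]
  refine OrdGe.sum _ _ fun s hs => ?_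
  have h1 : (monomial (cexp m s) (coeff s F) : P3) =
      C (coeff s F) * monomial (cexp m s) 1 := by rw [C_mul_monomial, mul_one]
  rw [h1, map_mul]
  exact (h s hs).mul_left _

lemma tr_monomial (p : V3) (s : Fin 3 →₀ ℕ) : tr p (monomial s 1 : P3) =
    (C (p 0) + X 0) ^ s 0 * (C (p 1) + X 1) ^ s 1 * (C (p 2) + X 2) ^ s 2 := by
  rw [tr, aeval_monomial3, map_one, one_mul]

lemma ordGe_X {σ : Type} (i : σ) : OrdGe 1 (X i : MvPolynomial σ ℂ) := by
  rw [ordGe_one_iff]
  simp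

lemma crem_e0 {m d : ℕ} {F : P3} (hd : F.IsHomogeneous d) : OrdGe d (tr e0 (crem m F)) := by
  refine crem_tr m F e0 d fun s hs => ?_
  rw [tr_monomial]
  simp only [e0, Matrix.cons_val_zero, Matrix.cons_val_one, Matrix.cons_val, C_0, zero_add,
    cexp_zero, cexp_one, cexp_two]
  have h1 := degree_of_hom hd hs
  have h2 : OrdGe (1 * (s 0 + s 2) + 1 * (s 0 + s 1))
      (X 1 ^ (s 0 + s 2) * X 2 ^ (s 0 + s 1) : P3) :=
    ((ordGe_X 1).pow _).mul ((ordGe_X 2).pow _)
  rw [mul_assoc]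
  exact (h2.mul_left _).mono (by omega)

lemma crem_e1 {m d : ℕ} {F : P3} (hF : MulGe m F) (hd : F.IsHomogeneous d) :
    OrdGe (d - m) (tr e1 (crem m F)) := by
  refine crem_tr m F e1 (d - m) fun s hs => ?_
  rw [tr_monomial]
  simp only [e1, Matrix.cons_val_zero, Matrix.cons_val_one, Matrix.cons_val, C_0, zero_add,
    cexp_zero, cexp_one, cexp_two]
  have h1 := degree_of_hom hd hs
  have h3 := hF s hs
  have h2 : OrdGe (1 * (s 1 + s 2 - m) + 1 * (s 0 + s 1))
      (X 0 ^ (s 1 + s 2 - m) * X 2 ^ (s 0 + s 1) : P3) :=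
    ((ordGe_X 0).pow _).mul ((ordGe_X 2).pow _)
  have h4 : (X 0 ^ (s 1 + s 2 - m) * (C 1 + X 1) ^ (s 0 + s 2) * X 2 ^ (s 0 + s 1) : P3) =
    (C 1 + X 1) ^ (s 0 + s 2) * (X 0 ^ (s 1 + s 2 - m) * X 2 ^ (s 0 + s 1)) := by ring
  rw [h4]
  exact (h2.mul_left _).mono (by omega)

lemma crem_e2 {m d : ℕ} {F : P3} (hF : MulGe m F) (hd : F.IsHomogeneous d) :
    OrdGe (d - m) (tr e2 (crem m F)) := by
  refine crem_tr m F e2 (d - m) fun s hs => ?_
  rw [tr_monomial]
  simp only [e2, Matrix.cons_val_zero, Matrix.cons_val_one, Matrix.cons_val, C_0, zero_add,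
    cexp_zero, cexp_one, cexp_two]
  have h1 := degree_of_hom hd hs
  have h3 := hF s hs
  have h2 : OrdGe (1 * (s 1 + s 2 - m) + 1 * (s 0 + s 2))
      (X 0 ^ (s 1 + s 2 - m) * X 1 ^ (s 0 + s 2) : P3) :=
    ((ordGe_X 0).pow _).mul ((ordGe_X 1).pow _)
  rw [mul_comm]
  exact (h2.mul_left _).mono (by omega)

/-! ### The multiplicity at the vertex -/

lemma OrdGe.pderiv {σ : Type} {m : ℕ} {G : MvPolynomial σ ℂ} (h : OrdGe (m + 1) G) (i : σ) :
    OrdGe m (MvPolynomial.pderiv i G) := by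
  rw [ordGe_iff'] at *
  intro s hs
  rw [coeff_pderiv, h, zero_mul]
  rw [map_add, Finsupp.degree_single]
  omega

lemma coeff_zero_det (R : Fin 3 → Fin 3 → P2) :
    coeff 0 (Matrix.det (Matrix.of R)) = Matrix.det (Matrix.of fun i j => coeff 0 (R i j)) := by
  have := RingHom.map_det (constantCoeff : P2 →+* ℂ) (Matrix.of R)
  rw [constantCoeff_eq] at this
  rw [this]
  rfl

lemma dX_eq (ρ : Par) (i : Fin 3) : dX ρ i = coeff 0 (pderiv 0 (ρ i)) := by
  rw [coeff_pderiv]
  simp [dX]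

lemma dY_eq (ρ : Par) (i : Fin 3) : dY ρ i = coeff 0 (pderiv 1 (ρ i)) := by
  rw [coeff_pderiv]
  simp [dY]

lemma eval_e0_of_hom {d : ℕ} {F : P3} (hd : F.IsHomogeneous d) {s : Fin 3 →₀ ℕ}
    (hs : s ∈ F.support) (h1 : s 1 = 0) (h2 : s 2 = 0) : eval e0 F = coeff s F := by
  rw [← coe_aeval_eq_eval, RingHom.coe_coe, aeval_eq_sum3, Finset.sum_eq_single s]
  · simp [e0, h1, h2]
  · intro t ht hts
    have h3 : t 1 ≠ 0 ∨ t 2 ≠ 0 := by
      by_contra h
      push Not at h
      apply hts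
      have := degree_of_hom hd hs
      have := degree_of_hom hd ht
      ext i
      fin_cases i
      · show t 0 = s 0
        omega
      · show t 1 = s 1
        omega
      · show t 2 = s 2
        omega
    rcases h3 with h3 | h3 <;> simp [e0, h3]
  · intro h
    exact absurd hs h

/-- the multiplicity at `(1, 0, 0)`, from a local equation -/
theorem mulGe_of_par (m : ℕ) : ∀ {d : ℕ} {F : P3}, F.IsHomogeneous d → ∀ {ρ : Par}, Etale ρ →
    pt ρ = e0 → OrdGe m (aeval ρ F) → MulGe m F := by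
  induction m with
  | zero => intro d F _ ρ _ _ _ s _; exact Nat.zero_le _
  | succ m ih =>
    intro d F hd ρ hρ hpt h s hs
    let Mt : Matrix (Fin 3) (Fin 3) P2 :=
      Matrix.of ![ρ, fun i => pderiv 0 (ρ i), fun i => pderiv 1 (ρ i)]
    let w : Fin 3 → P2 := fun i => aeval ρ (pderiv i F)
    have hdet : coeff 0 Mt.det ≠ 0 := by
      have : coeff 0 Mt.det = Matrix.det (Matrix.of ![pt ρ, dX ρ, dY ρ]) := by
        rw [coeff_zero_det]
        congr 1
        ext i j
        fin_cases i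
        · rfl
        · exact (dX_eq ρ j).symm
        · exact (dY_eq ρ j).symm
      rw [this]
      exact hρ
    have hw : ∀ i, OrdGe m (Mt.mulVec w i) := by
      intro i
      fin_cases i
      · have h1 := congrArg (aeval ρ) hd.sum_X_mul_pderiv
        rw [map_sum, map_nsmul] at h1
        have h2 : Mt.mulVec w 0 = d • aeval ρ F := by
          rw [← h1]
          simp only [Matrix.mulVec, dotProduct, map_mul, aeval_X]
          rfl
        change OrdGe m (Mt.mulVec w 0)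
        rw [h2, nsmul_eq_mul]
        exact (h.mono (Nat.le_succ m)).mul_left _
      · have h2 : Mt.mulVec w 1 = pderiv 0 (aeval ρ F) := by
          rw [pderiv_aeval]
          simp only [Matrix.mulVec, dotProduct]
          exact Finset.sum_congr rfl fun j _ => mul_comm _ _
        change OrdGe m (Mt.mulVec w 1)
        rw [h2]
        exact h.pderiv 0
      · have h2 : Mt.mulVec w 2 = pderiv 1 (aeval ρ F) := by
          rw [pderiv_aeval]
          simp only [Matrix.mulVec, dotProduct]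
          exact Finset.sum_congr rfl fun j _ => mul_comm _ _
        change OrdGe m (Mt.mulVec w 2)
        rw [h2]
        exact h.pderiv 1
    have hw' : ∀ i, OrdGe m (w i) := by
      intro i
      refine OrdGe.of_unit_mul hdet ?_
      have h1 : Mt.adjugate.mulVec (Mt.mulVec w) i = Mt.det * w i := by
        rw [Matrix.mulVec_mulVec, Matrix.adjugate_mul, Matrix.smul_mulVec, Matrix.one_mulVec]
        rfl
      rw [← h1]
      simp only [Matrix.mulVec, dotProduct]
      exact OrdGe.sum _ _ fun j _ => (hw j).mul_left _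
    have key : ∀ i : Fin 3, s i ≠ 0 → s - Finsupp.single i 1 ∈ (pderiv i F).support := by
      intro i hi
      rw [mem_support_iff, coeff_pderiv]
      have h1 : s - Finsupp.single i 1 + Finsupp.single i 1 = s :=
        tsub_add_cancel_of_le (Finsupp.single_le_iff.2 (Nat.one_le_iff_ne_zero.2 hi))
      rw [h1]
      refine mul_ne_zero (mem_support_iff.1 hs) ?_
      exact Nat.cast_add_one_ne_zero _
    by_cases h1 : s 1 = 0
    · by_cases h2 : s 2 = 0
      · exfalso
        have h3 := eval_e0_of_hom hd hs h1 h2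
        have h4 : coeff 0 (aeval ρ F) = 0 :=
          (ordGe_one_iff _).1 (h.mono (by omega))
        rw [coeff_zero_aeval] at h4
        have h5 : (fun i => coeff 0 (ρ i)) = e0 := hpt
        rw [h5, h3] at h4
        exact (mem_support_iff.1 hs) h4
      · have := ih (hd.pderiv (i := 2)) hρ hpt (hw' 2) _ (key 2 h2)
        simp at this
        omega
    · have := ih (hd.pderiv (i := 1)) hρ hpt (hw' 1) _ (key 1 h1)
      simp at this
      omega

end Pool.Agent.Helper90.HC
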