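import Pool.Agent.Helper90.HC.CremA

/-!
# Local equations and parametrisations after a Cremona transformation
-/

open MvPolynomial

namespace Pool.Agent.Helper90.HC

/-- the constant coefficient is multiplicative -/
lemma cc_mul {σ : Type} (a b : MvPolynomial σ ℂ) : coeff 0 (a * b) = coeff 0 a * coeff 0 b := by
  have := (constantCoeff : MvPolynomial σ ℂ →+* ℂ).map_mul a b
  simpa only [constantCoeff_eq] using this

lemma cc_pow {σ : Type} (a : MvPolynomial σ ℂ) (n : ℕ) : coeff 0 (a ^ n) = coeff 0 a ^ n := by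
  have := (constantCoeff : MvPolynomial σ ℂ →+* ℂ).map_pow a n
  simpa only [constantCoeff_eq] using this

lemma cc_X {σ : Type} (i : σ) : coeff 0 (X i : MvPolynomial σ ℂ) = 0 := by simp

/-- the local equation after a Cremona transformation, at a point of the exceptional curve -/
lemma locBlow {m d : ℕ} {F : P3} (hF : MulGe m F) (hd : F.IsHomogeneous d) (hmd : m ≤ d)
    {ρ : Par} {G U : P2} (hloc : aeval ρ F = U * G) (θ : P2 →ₐ[ℂ] P2) (t q1 q2 H : P2)
    (ht : t ≠ 0) (hU : coeff 0 (θ U) ≠ 0) (h1 : θ (ρ 1) = t * q1) (h2 : θ (ρ 2) = t * q2)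
    (hH : θ G = t ^ m * H) (hq1 : coeff 0 q1 ≠ 0) (hq2 : coeff 0 q2 ≠ 0)
    (hp : coeff 0 (θ (ρ 0)) ≠ 0) :
    Loc (crem m F) ![t * q1 * q2, θ (ρ 0) * q2, θ (ρ 0) * q1] H := by
  set v : Fin 3 → P2 := ![t * q1 * q2, θ (ρ 0) * q2, θ (ρ 0) * q1] with hv
  have hs : sgm v = fun i => (θ (ρ 0) * q1 * q2) * θ (ρ i) := by
    funext i
    fin_cases i
    · show θ (ρ 0) * q2 * (θ (ρ 0) * q1) = (θ (ρ 0) * q1 * q2) * θ (ρ 0)
      ring
    · show t * q1 * q2 * (θ (ρ 0) * q1) = (θ (ρ 0) * q1 * q2) * θ (ρ 1)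
      rw [h1]
      ring
    · show t * q1 * q2 * (θ (ρ 0) * q2) = (θ (ρ 0) * q1 * q2) * θ (ρ 2)
      rw [h2]
      ring
  have hk := crem_key hF v
  rw [hs, aeval_smul_of_hom hd] at hk
  have hθ : aeval (fun i => θ (ρ i)) F = θ U * θ G := by
    rw [← map_mul, ← hloc, ← AlgHom.comp_apply, comp_aeval]
  rw [hθ, hH] at hk
  have hq1' : q1 ≠ 0 := by rintro rfl; simp at hq1
  have hq2' : q2 ≠ 0 := by rintro rfl; simp at hq2
  refine ⟨θ (ρ 0) ^ d * (q1 * q2) ^ (d - m) * θ U, ?_, ?_⟩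
  · rw [cc_mul, cc_mul, cc_pow, cc_pow, cc_mul]
    exact mul_ne_zero (mul_ne_zero (pow_ne_zero _ hp) (pow_ne_zero _ (mul_ne_zero hq1 hq2))) hU
  · have h3 : (t * q1 * q2) ^ m ≠ 0 :=
      pow_ne_zero _ (mul_ne_zero (mul_ne_zero ht hq1') hq2')
    apply mul_left_cancel₀ h3
    have h4 : v 0 = t * q1 * q2 := rfl
    rw [← h4, ← hk, h4]
    obtain ⟨e, rfl⟩ := Nat.exists_eq_add_of_le hmd
    rw [Nat.add_sub_cancel_left, mul_pow, mul_pow, mul_pow, mul_pow, mul_pow]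
    ring

/-! ### The charts -/

/-- the chart `(X, X (c + Y))` -/
noncomputable def thR (c : ℂ) : P2 →ₐ[ℂ] P2 := aeval ![X 0, X 0 * (C c + X 1)]
/-- the chart `(X Y, Y)` -/
noncomputable def thL : P2 →ₐ[ℂ] P2 := aeval ![X 0 * X 1, X 1]

lemma thR_apply (c : ℂ) (G : P2) : thR c G = chartR c G := rfl
lemma thL_apply (G : P2) : thL G = chartL G := rfl

lemma aeval_eq_sum2 {A : Type*} [CommRing A] [Algebra ℂ A] (v : Fin 2 → A) (F : P2) :
    aeval v F = ∑ s ∈ F.support, algebraMap ℂ A (coeff s F) * (v 0 ^ s 0 * v 1 ^ s 1) := by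
  rw [aeval_def, eval₂_eq']
  refine Finset.sum_congr rfl fun s _ => ?_
  rw [Fin.prod_univ_two]

lemma degree2 (s : Fin 2 →₀ ℕ) : s.degree = s 0 + s 1 := by
  rw [Finsupp.degree_eq_sum, Fin.sum_univ_two]

lemma exists_chartR (c : ℂ) {m : ℕ} {G : P2} (h : OrdGe m G) :
    ∃ H : P2, chartR c G = X 0 ^ m * H := by
  refine ⟨∑ s ∈ G.support, C (coeff s G) * (X 0 ^ (s 0 + s 1 - m) * (C c + X 1) ^ s 1), ?_⟩
  rw [chartR, aeval_eq_sum2, Finset.mul_sum]
  refine Finset.sum_congr rfl fun s hs => ?_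
  have h1 := h s hs
  rw [degree2] at h1
  obtain ⟨t, ht⟩ := Nat.exists_eq_add_of_le h1
  have h2 : s 0 + s 1 - m = t := by omega
  rw [h2, algebraMap_eq]
  simp only [Matrix.cons_val_zero, Matrix.cons_val_one]
  have h3 : (X 0 : P2) ^ s 0 * X 0 ^ s 1 = X 0 ^ m * X 0 ^ t := by
    rw [← pow_add, ← pow_add, ht]
  rw [mul_pow]
  linear_combination (C (coeff s G) * (C c + X 1) ^ s 1) * h3

lemma exists_chartL {m : ℕ} {G : P2} (h : OrdGe m G) :
    ∃ H : P2, chartL G = X 1 ^ m * H := by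
  refine ⟨∑ s ∈ G.support, C (coeff s G) * (X 0 ^ s 0 * X 1 ^ (s 0 + s 1 - m)), ?_⟩
  rw [chartL, aeval_eq_sum2, Finset.mul_sum]
  refine Finset.sum_congr rfl fun s hs => ?_
  have h1 := h s hs
  rw [degree2] at h1
  obtain ⟨t, ht⟩ := Nat.exists_eq_add_of_le h1
  have h2 : s 0 + s 1 - m = t := by omega
  rw [h2, algebraMap_eq]
  simp only [Matrix.cons_val_zero, Matrix.cons_val_one]
  have h3 : (X 1 : P2) ^ s 0 * X 1 ^ s 1 = X 1 ^ m * X 1 ^ t := by
    rw [← pow_add, ← pow_add, ht]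
  rw [mul_pow]
  linear_combination (C (coeff s G) * X 0 ^ s 0) * h3

lemma cc_thR (c : ℂ) (G : P2) : coeff 0 (thR c G) = coeff 0 G := by
  rw [thR, coeff_zero_aeval]
  have : (fun i => coeff 0 ((![X 0, X 0 * (C c + X 1)] : Fin 2 → P2) i)) = (0 : Fin 2 → ℂ) := by
    funext i
    fin_cases i <;> simp [cc_mul]
  rw [this, eval_zero, constantCoeff_eq]

lemma cc_thL (G : P2) : coeff 0 (thL G) = coeff 0 G := by
  rw [thL, coeff_zero_aeval]
  have : (fun i => coeff 0 ((![X 0 * X 1, X 1] : Fin 2 → P2) i)) = (0 : Fin 2 → ℂ) := by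
    funext i
    fin_cases i <;> simp [cc_mul]
  rw [this, eval_zero, constantCoeff_eq]

lemma d0_thR (c : ℂ) (G : P2) : pderiv 0 (thR c G) =
    thR c (pderiv 0 G) + thR c (pderiv 1 G) * (C c + X 1) := by
  rw [thR, pderiv_aeval, Fin.sum_univ_two]
  simp

lemma d1_thR (c : ℂ) (G : P2) : pderiv 1 (thR c G) = thR c (pderiv 1 G) * X 0 := by
  rw [thR, pderiv_aeval, Fin.sum_univ_two]
  simp

lemma d0_thL (G : P2) : pderiv 0 (thL G) = thL (pderiv 0 G) * X 1 := by
  rw [thL, pderiv_aeval, Fin.sum_univ_two]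
  simp

lemma d1_thL (G : P2) : pderiv 1 (thL G) = thL (pderiv 0 G) * X 0 + thL (pderiv 1 G) := by
  rw [thL, pderiv_aeval, Fin.sum_univ_two]
  simp

/-- the quotient in the chart `R` -/
lemma quot_R {c : ℂ} {g q : P2} (h : thR c g = X 0 * q) :
    coeff 0 q = coeff 0 (pderiv 0 g) + coeff 0 (pderiv 1 g) * c ∧
      coeff 0 (pderiv 1 q) = coeff 0 (pderiv 1 g) := by
  have h1 := congrArg (pderiv 0) h
  rw [d0_thR, pderiv_mul, pderiv_X_self, one_mul] at h1
  constructor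
  · have h2 := congrArg (coeff 0) h1
    simp only [coeff_add, cc_mul, cc_thR, cc_X, zero_mul, add_zero, coeff_zero_C] at h2
    exact h2.symm
  · have h2 := congrArg (coeff 0) (congrArg (pderiv 1) h1)
    simp only [map_add, pderiv_mul, d1_thR, coeff_add, cc_mul, cc_X, cc_thR, mul_zero, zero_mul,
      add_zero, zero_add, pderiv_C, pderiv_X_self, mul_one] at h2
    rw [pderiv_X_of_ne (by decide)] at h2
    simp only [coeff_zero, zero_mul, add_zero] at h2
    exact h2.symm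

/-- the quotient in the chart `L` -/
lemma quot_L {g q : P2} (h : thL g = X 1 * q) :
    coeff 0 q = coeff 0 (pderiv 1 g) ∧ coeff 0 (pderiv 0 q) = coeff 0 (pderiv 0 g) := by
  have h1 := congrArg (pderiv 1) h
  rw [d1_thL, pderiv_mul, pderiv_X_self, one_mul] at h1
  constructor
  · have h2 := congrArg (coeff 0) h1
    simp only [coeff_add, cc_mul, cc_thL, cc_X, mul_zero, zero_mul, add_zero, zero_add] at h2
    exact h2.symm
  · have h2 := congrArg (coeff 0) (congrArg (pderiv 0) h1)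
    simp only [map_add, pderiv_mul, d0_thL, coeff_add, cc_mul, cc_X, cc_thL, mul_zero, zero_mul,
      add_zero, zero_add, pderiv_X_self, mul_one] at h2
    rw [pderiv_X_of_ne (by decide)] at h2
    simp only [coeff_zero, zero_mul, add_zero] at h2
    exact h2.symm

end Pool.Agent.Helper90.HC
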