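import Pool.Agent.Helper90.HC.CremB

/-!
# The points after a Cremona transformation
-/

open MvPolynomial

namespace Pool.Agent.Helper90.HC

lemma pt_e0 {ρ : Par} (h : pt ρ = e0) : coeff 0 (ρ 0) = 1 ∧ coeff 0 (ρ 1) = 0 ∧ coeff 0 (ρ 2) = 0 :=
  ⟨congrFun h 0, congrFun h 1, congrFun h 2⟩

lemma det_e0 {ρ : Par} (h : pt ρ = e0) : Matrix.det (Matrix.of ![pt ρ, dX ρ, dY ρ]) =
    dX ρ 1 * dY ρ 2 - dX ρ 2 * dY ρ 1 := by
  rw [Matrix.det_fin_three, h]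
  simp [e0]

lemma det_pq {r p q : V3} : Matrix.det (Matrix.of ![r, p, q]) =
    r 0 * (p 1 * q 2 - p 2 * q 1) - r 1 * (p 0 * q 2 - p 2 * q 0) +
      r 2 * (p 0 * q 1 - p 1 * q 0) := by
  rw [Matrix.det_fin_three]
  simp
  ring

/-- the new parametrisation is etale (chart `R`) -/
lemma etale_R {c : ℂ} {ρ : Par} (hρ : Etale ρ) (hpt : pt ρ = e0) {q1 q2 : P2}
    (h1 : thR c (ρ 1) = X 0 * q1) (h2 : thR c (ρ 2) = X 0 * q2)
    (hX1 : coeff 0 q1 ≠ 0) (hX2 : coeff 0 q2 ≠ 0) :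
    Etale ![X 0 * q1 * q2, thR c (ρ 0) * q2, thR c (ρ 0) * q1] := by
  obtain ⟨a1, a2⟩ := quot_R h1
  obtain ⟨b1, b2⟩ := quot_R h2
  obtain ⟨c0, -, -⟩ := pt_e0 hpt
  unfold Etale at hρ ⊢
  rw [det_e0 hpt] at hρ
  simp only [dX_eq, dY_eq] at hρ
  rw [det_pq]
  simp only [dX_eq, dY_eq, pt, Matrix.cons_val_zero, Matrix.cons_val_one, Matrix.cons_val,
    pderiv_mul, pderiv_X_self, coeff_add, cc_mul, cc_X, cc_thR, d1_thR, a2, b2, c0,
    zero_mul, mul_zero, add_zero, zero_add, one_mul]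
  rw [pderiv_X_of_ne (by decide)]
  simp only [coeff_zero, zero_mul, mul_zero, sub_zero, zero_sub]
  have h3 : coeff 0 q1 * coeff 0 q2 * (coeff 0 ((pderiv 0) (ρ 1)) * coeff 0 ((pderiv 1) (ρ 2)) -
      coeff 0 ((pderiv 0) (ρ 2)) * coeff 0 ((pderiv 1) (ρ 1))) ≠ 0 :=
    mul_ne_zero (mul_ne_zero hX1 hX2) hρ
  intro h4
  apply h3
  rw [← h4, a1, b1]
  ring

/-- the new parametrisation is etale (chart `L`) -/
lemma etale_L {ρ : Par} (hρ : Etale ρ) (hpt : pt ρ = e0) {q1 q2 : P2}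
    (h1 : thL (ρ 1) = X 1 * q1) (h2 : thL (ρ 2) = X 1 * q2)
    (hX1 : coeff 0 q1 ≠ 0) (hX2 : coeff 0 q2 ≠ 0) :
    Etale ![X 1 * q1 * q2, thL (ρ 0) * q2, thL (ρ 0) * q1] := by
  obtain ⟨a1, a2⟩ := quot_L h1
  obtain ⟨b1, b2⟩ := quot_L h2
  obtain ⟨c0, -, -⟩ := pt_e0 hpt
  unfold Etale at hρ ⊢
  rw [det_e0 hpt] at hρ
  simp only [dX_eq, dY_eq] at hρ
  rw [det_pq]
  simp only [dX_eq, dY_eq, pt, Matrix.cons_val_zero, Matrix.cons_val_one, Matrix.cons_val,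
    pderiv_mul, pderiv_X_self, coeff_add, cc_mul, cc_X, cc_thL, d0_thL, a2, b2, c0,
    zero_mul, mul_zero, add_zero, zero_add, one_mul]
  rw [pderiv_X_of_ne (by decide)]
  simp only [coeff_zero, zero_mul, zero_sub]
  have h3 : coeff 0 q1 * coeff 0 q2 * (coeff 0 ((pderiv 0) (ρ 1)) * coeff 0 ((pderiv 1) (ρ 2)) -
      coeff 0 ((pderiv 0) (ρ 2)) * coeff 0 ((pderiv 1) (ρ 1))) ≠ 0 :=
    mul_ne_zero (mul_ne_zero hX1 hX2) hρ
  intro h4
  apply h3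
  rw [a1, b1] at h4 ⊢
  linear_combination h4

/-! ### Points in the torus -/

lemma pt_sgm (ρ : Par) : pt (sgm ρ) = sgm (pt ρ) := by
  funext i
  fin_cases i
  · exact cc_mul _ _
  · exact cc_mul _ _
  · exact cc_mul _ _

/-- the transformed parametrisation is etale -/
lemma etale_sgm {ρ : Par} (hρ : Etale ρ) (h0 : ∀ i, pt ρ i ≠ 0) : Etale (sgm ρ) := by
  unfold Etale at hρ ⊢
  rw [det_pq] at hρ ⊢
  simp only [dX_eq, dY_eq, pt, sgm, Matrix.cons_val_zero, Matrix.cons_val_one, Matrix.cons_val,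
    pderiv_mul, coeff_add, cc_mul] at hρ ⊢
  have h3 := mul_ne_zero (mul_ne_zero (mul_ne_zero (h0 0) (h0 1)) (h0 2)) hρ
  simp only [pt] at h3
  intro h4
  apply h3
  rw [← h4]
  ring

/-- the easy direction of the order in a parametrisation, with any number of variables -/
lemma OrdGe.par' {σ : Type} {m : ℕ} {F : P3} {w : Fin 3 → MvPolynomial σ ℂ}
    (h : OrdGe m (tr (fun i => coeff 0 (w i)) F)) : OrdGe m (MvPolynomial.aeval w F) := by
  have h1 : MvPolynomial.aeval (fun i => w i - C (coeff 0 (w i)))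
      (tr (fun i => coeff 0 (w i)) F) = MvPolynomial.aeval w F := by
    rw [tr, ← AlgHom.comp_apply, comp_aeval]
    congr 2
    funext i
    simp
  rw [← h1]
  refine h.aeval _ fun i => ?_
  simp

lemma Loc.sgm {m d : ℕ} {F : P3} (hF : MulGe m F) (hd : F.IsHomogeneous d) (hmd : m ≤ d)
    {ρ : Par} {G : P2} (hloc : Loc F ρ G) (h0 : ∀ i, pt ρ i ≠ 0) :
    Loc (crem m F) (HC.sgm ρ) G := by
  obtain ⟨U, hU, h⟩ := hloc
  have hk := crem_key' hF hd ρ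
  have hn : ∀ i, ρ i ≠ 0 := by
    intro i hi
    apply h0 i
    rw [pt, hi, coeff_zero]
  refine ⟨ρ 0 ^ d * (ρ 1 * ρ 2) ^ (d - m) * U, ?_, ?_⟩
  · rw [cc_mul, cc_mul, cc_pow, cc_pow, cc_mul]
    exact mul_ne_zero (mul_ne_zero (pow_ne_zero _ (h0 0))
      (pow_ne_zero _ (mul_ne_zero (h0 1) (h0 2)))) hU
  · have h3 : (ρ 1 * ρ 2) ^ m ≠ 0 := pow_ne_zero _ (mul_ne_zero (hn 1) (hn 2))
    apply mul_left_cancel₀ h3
    rw [← hk, h]
    obtain ⟨e, rfl⟩ := Nat.exists_eq_add_of_le hmd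
    rw [Nat.add_sub_cancel_left, mul_assoc (ρ 0), mul_pow, pow_add (ρ 1 * ρ 2) m e]
    ring

lemma cc_v (r : V3) (i : Fin 3) : coeff 0 ((C (r i) + X i : P3)) = r i := by simp

lemma cc_sgm_v (r : V3) : (fun i => coeff 0 (sgm (fun i => (C (r i) + X i : P3)) i)) = sgm r := by
  funext i
  fin_cases i
  · show coeff 0 ((C (r 1) + X 1 : P3) * (C (r 2) + X 2)) = r 1 * r 2
    rw [cc_mul, cc_v, cc_v]
  · show coeff 0 ((C (r 0) + X 0 : P3) * (C (r 2) + X 2)) = r 0 * r 2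
    rw [cc_mul, cc_v, cc_v]
  · show coeff 0 ((C (r 0) + X 0 : P3) * (C (r 1) + X 1)) = r 0 * r 1
    rw [cc_mul, cc_v, cc_v]

lemma sgm_ne {r : V3} (h0 : ∀ i, r i ≠ 0) : ∀ i, sgm r i ≠ 0 := by
  intro i
  fin_cases i
  · exact mul_ne_zero (h0 1) (h0 2)
  · exact mul_ne_zero (h0 0) (h0 2)
  · exact mul_ne_zero (h0 0) (h0 1)

lemma sgm_sgm_smul (r : V3) : sgm (sgm r) = (r 0 * r 1 * r 2) • r := by
  rw [sgm_sgm]
  rfl

/-- the order at a point of the torus does not drop -/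
lemma don_sgm {m d e : ℕ} {F : P3} (hF : MulGe m F) (hd : F.IsHomogeneous d) {s : V3}
    (h0 : ∀ i, s i ≠ 0) (h : OrdGe e (tr s F)) : OrdGe e (tr (sgm s) (crem m F)) := by
  have hk := crem_key hF (fun i => (C (sgm s i) + X i : P3))
  have h1 : OrdGe e (MvPolynomial.aeval (sgm fun i => (C (sgm s i) + X i : P3)) F) := by
    apply OrdGe.par'
    rw [cc_sgm_v, sgm_sgm_smul]
    exact ordGe_tr_smul hd (mul_ne_zero (mul_ne_zero (h0 0) (h0 1)) (h0 2)) h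
  rw [hk] at h1
  refine h1.of_unit_mul ?_
  rw [cc_pow, cc_v]
  exact pow_ne_zero _ (sgm_ne h0 0)

/-- singular points in the torus come from singular points in the torus -/
lemma sg_torus {m d : ℕ} {F : P3} (hF : MulGe m F) (hd : F.IsHomogeneous d) {r : V3}
    (h0 : ∀ i, r i ≠ 0) (h : Sg (crem m F) r) : Sg F (sgm r) := by
  rw [sg_iff] at h ⊢
  have hk := crem_key' hF hd (fun i => (C (sgm r i) + X i : P3))
  have h1 : OrdGe 2 (MvPolynomial.aeval (sgm fun i => (C (sgm r i) + X i : P3)) (crem m F)) := by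
    apply OrdGe.par'
    rw [cc_sgm_v, sgm_sgm_smul]
    exact ordGe_tr_smul (crem_hom hF hd) (mul_ne_zero (mul_ne_zero (h0 0) (h0 1)) (h0 2)) h
  have h2 := h1.mul_left (((C (sgm r 1) + X 1 : P3) * (C (sgm r 2) + X 2)) ^ m)
  rw [← hk] at h2
  refine h2.of_unit_mul ?_
  rw [cc_pow, cc_mul, cc_mul, cc_v, cc_v, cc_v]
  exact pow_ne_zero _ (mul_ne_zero (mul_ne_zero (sgm_ne h0 0) (sgm_ne h0 1)) (sgm_ne h0 2))

lemma Prl.zero_iff {r s : V3} (h : Prl r s) (i : Fin 3) : r i = 0 ↔ s i = 0 := by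
  obtain ⟨c, hc, rfl⟩ := h
  simp [hc]

lemma Prl.sgm {r s : V3} (h : Prl r s) : Prl (HC.sgm r) (HC.sgm s) := by
  obtain ⟨c, hc, rfl⟩ := h
  refine ⟨c * c, mul_ne_zero hc hc, ?_⟩
  funext i
  fin_cases i <;> simp [HC.sgm] <;> ring

lemma prl_sgm_sgm {r : V3} (h0 : ∀ i, r i ≠ 0) : Prl r (HC.sgm (HC.sgm r)) :=
  ⟨r 0 * r 1 * r 2, mul_ne_zero (mul_ne_zero (h0 0) (h0 1)) (h0 2), sgm_sgm_smul r⟩

lemma Prl.of_sgm {r s : V3} (hr : ∀ i, r i ≠ 0) (hs : ∀ i, s i ≠ 0)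
    (h : Prl (HC.sgm r) (HC.sgm s)) : Prl r s :=
  ((prl_sgm_sgm hr).trans h.sgm).trans (prl_sgm_sgm hs).symm

/-! ### The points on the lines -/

lemma aeval_eq_eval (r : V3) (F : P3) : MvPolynomial.aeval r F = eval r F := rfl

lemma eval_crem {m : ℕ} {F : P3} (hF : MulGe m F) (r : V3) :
    eval (sgm r) F = r 0 ^ m * eval r (crem m F) := by
  have := crem_key hF r
  rwa [aeval_eq_eval, aeval_eq_eval] at this

lemma eval_smul_hom {d : ℕ} {F : P3} (hd : F.IsHomogeneous d) (c : ℂ) (r : V3) :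
    eval (c • r) F = c ^ d * eval r F := by
  have := aeval_smul_of_hom hd c r
  rw [aeval_eq_eval, aeval_eq_eval] at this
  exact this

/-- on the two other lines, the transform vanishes only at the vertices -/
lemma line_y {m d : ℕ} {F : P3} (hF : MulGe m F) (hd : F.IsHomogeneous d)
    (h1 : eval e1 F ≠ 0) {r : V3} (hr0 : r 0 ≠ 0) (hr1 : r 1 = 0) (hr2 : r 2 ≠ 0) :
    eval r (crem m F) ≠ 0 := by
  intro h
  have hk := eval_crem hF r
  rw [h, mul_zero] at hk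
  have h2 : sgm r = (r 0 * r 2) • e1 := by
    funext i
    fin_cases i <;> simp [sgm, e1, hr1]
  rw [h2, eval_smul_hom hd] at hk
  exact mul_ne_zero (pow_ne_zero _ (mul_ne_zero hr0 hr2)) h1 hk

lemma line_z {m d : ℕ} {F : P3} (hF : MulGe m F) (hd : F.IsHomogeneous d)
    (h2 : eval e2 F ≠ 0) {r : V3} (hr0 : r 0 ≠ 0) (hr1 : r 1 ≠ 0) (hr2 : r 2 = 0) :
    eval r (crem m F) ≠ 0 := by
  intro h
  have hk := eval_crem hF r
  rw [h, mul_zero] at hk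
  have h3 : sgm r = (r 0 * r 1) • e2 := by
    funext i
    fin_cases i <;> simp [sgm, e2, hr2]
  rw [h3, eval_smul_hom hd] at hk
  exact mul_ne_zero (pow_ne_zero _ (mul_ne_zero hr0 hr1)) h2 hk

end Pool.Agent.Helper90.HC
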