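import Pool.Agent.Helper90.HC.Lin

/-!
# The torsion curves
-/

open MvPolynomial

namespace Pool.Agent.Helper90.HC

/-- chain rule -/
theorem crv_chain (g : Fin 3 → P3) (F : P3) (j : Fin 3) :
    pderiv j (aeval g F) = ∑ i, aeval g (pderiv i F) * pderiv j (g i) := by
  induction F using MvPolynomial.induction_on with
  | C a => simp
  | add p q hp hq =>
    simp only [map_add, hp, hq, add_mul, Finset.sum_add_distrib]
  | mul_X p n hp =>
    simp only [map_mul, aeval_X, Derivation.leibniz, smul_eq_mul, pderiv_X, map_add, hp]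
    rw [Finset.mul_sum]
    have h1 : ∀ i : Fin 3, aeval g (Pi.single (M := fun _ => P3) i 1 n) =
        if i = n then 1 else 0 := by
      intro i
      rw [Pi.single_apply]
      split_ifs with h h' h'
      · simp
      · exact absurd h.symm h'
      · exact absurd h'.symm h
      · simp
    simp only [h1, mul_ite, mul_one, mul_zero, add_mul, ite_mul, zero_mul,
      Finset.sum_add_distrib, Finset.sum_ite_eq', Finset.mem_univ, if_true]
    congr 1
    apply Finset.sum_congr rfl
    intro i _
    ring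

theorem crv_eval_aeval (g : Fin 3 → P3) (F : P3) (r : V3) :
    eval r (aeval g F) = eval (fun i => eval r (g i)) F := by
  induction F using MvPolynomial.induction_on with
  | C a => simp
  | add p q hp hq => simp only [map_add, hp, hq]
  | mul_X p n hp => simp only [map_mul, aeval_X, eval_X, hp]

theorem crv_eval_smul {d : ℕ} {F : P3} (hF : F.IsHomogeneous d) (c : ℂ) (v : V3) :
    eval (c • v) F = c ^ d * eval v F := by
  rw [eval_eq', eval_eq', Finset.mul_sum]
  apply Finset.sum_congr rfl
  intro s hs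
  have h1 : s.degree = d := by
    rw [Finsupp.degree_eq_weight_one]
    exact hF (mem_support_iff.1 hs)
  simp only [Pi.smul_apply, smul_eq_mul, mul_pow, Finset.prod_mul_distrib]
  rw [Finset.prod_pow_eq_pow_sum, ← h1, Finsupp.degree_eq_sum]
  ring

theorem del_hom (i : Fin 3) : (del i).IsHomogeneous 4 := by
  have h : ∀ a b : Fin 3, ((X a : P3) ^ 2 * X b ^ 2).IsHomogeneous 4 := by
    intro a b
    exact ((isHomogeneous_X ℂ a).pow 2).mul ((isHomogeneous_X ℂ b).pow 2)
  fin_cases i
  · exact ((h 0 1).add (h 0 2)).sub (h 1 2)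
  · exact ((h 0 1).add (h 1 2)).sub (h 0 2)
  · exact ((h 0 2).add (h 1 2)).sub (h 0 1)

theorem crv_succ (J : ℕ) : crv (J + 1) = X 0 * X 1 * X 2 * aeval del (crv J) := rfl

theorem crv_hom (J : ℕ) : (crv J).IsHomogeneous (4 ^ J - 1) := by
  induction J with
  | zero => exact isHomogeneous_one _ _
  | succ J ih =>
    rw [crv_succ]
    have h1 : (X 0 * X 1 * X 2 : P3).IsHomogeneous (1 + 1 + 1) :=
      ((isHomogeneous_X ℂ 0).mul (isHomogeneous_X ℂ 1)).mul (isHomogeneous_X ℂ 2)
    have h2 := h1.mul (ih.aeval del del_hom)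
    have h3 : 4 ^ (J + 1) - 1 = 1 + 1 + 1 + 4 * (4 ^ J - 1) := by
      have : 1 ≤ 4 ^ J := Nat.one_le_pow _ _ (by norm_num)
      rw [pow_succ]
      omega
    rw [h3]
    exact h2

theorem eval_del (r : V3) : (fun i => eval r (del i)) =
    ![r 0 ^ 2 * r 1 ^ 2 + r 0 ^ 2 * r 2 ^ 2 - r 1 ^ 2 * r 2 ^ 2,
      r 0 ^ 2 * r 1 ^ 2 + r 1 ^ 2 * r 2 ^ 2 - r 0 ^ 2 * r 2 ^ 2,
      r 0 ^ 2 * r 2 ^ 2 + r 1 ^ 2 * r 2 ^ 2 - r 0 ^ 2 * r 1 ^ 2] := by
  ext i
  fin_cases i <;> simp [del]

theorem eval_crv_succ (J : ℕ) (r : V3) : eval r (crv (J + 1)) = r 0 * r 1 * r 2 *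
    eval ![r 0 ^ 2 * r 1 ^ 2 + r 0 ^ 2 * r 2 ^ 2 - r 1 ^ 2 * r 2 ^ 2,
      r 0 ^ 2 * r 1 ^ 2 + r 1 ^ 2 * r 2 ^ 2 - r 0 ^ 2 * r 2 ^ 2,
      r 0 ^ 2 * r 2 ^ 2 + r 1 ^ 2 * r 2 ^ 2 - r 0 ^ 2 * r 1 ^ 2] (crv J) := by
  rw [crv_succ, map_mul, crv_eval_aeval, eval_del]
  simp

/-- the curve does not contain the points `(±1, ±1, ±1)` -/
theorem crv_unit (J : ℕ) (a b c : ℂ) (ha : a ^ 2 = 1) (hb : b ^ 2 = 1) (hc : c ^ 2 = 1) :
    eval ![a, b, c] (crv J) ≠ 0 := by
  induction J generalizing a b c with
  | zero => simp [crv]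
  | succ J ih =>
    have ha0 : a ≠ 0 := by rintro rfl; norm_num at ha
    have hb0 : b ≠ 0 := by rintro rfl; norm_num at hb
    have hc0 : c ≠ 0 := by rintro rfl; norm_num at hc
    rw [eval_crv_succ]
    simp only [Matrix.cons_val_zero, Matrix.cons_val_one, Matrix.cons_val, ha, hb, hc]
    have h1 := ih 1 1 1 (one_pow 2) (one_pow 2) (one_pow 2)
    have h2 : (![1 * 1 + 1 * 1 - 1 * 1, 1 * 1 + 1 * 1 - 1 * 1, 1 * 1 + 1 * 1 - 1 * 1] : V3) =
        ![1, 1, 1] := by norm_num
    rw [h2]
    exact mul_ne_zero (mul_ne_zero (mul_ne_zero ha0 hb0) hc0) h1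

theorem crv_ne (J : ℕ) : crv J ≠ 0 := by
  intro h
  have := crv_unit J 1 1 1 (one_pow 2) (one_pow 2) (one_pow 2)
  rw [h] at this
  simp at this

/-- cyclic symmetry -/
theorem crv_cyc (J : ℕ) : aeval ![X 1, X 2, X 0] (crv J) = crv J := by
  induction J with
  | zero => simp [crv]
  | succ J ih =>
    rw [crv_succ, map_mul]
    have h1 : aeval (![X 1, X 2, X 0] : Fin 3 → P3) (X 0 * X 1 * X 2 : P3) = X 0 * X 1 * X 2 := by
      simp only [map_mul, aeval_X]
      simp only [Matrix.cons_val_zero, Matrix.cons_val_one, Matrix.cons_val]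
      ring
    have h2 : aeval (![X 1, X 2, X 0] : Fin 3 → P3) (aeval del (crv J)) =
        aeval del (aeval (![X 1, X 2, X 0] : Fin 3 → P3) (crv J)) := by
      have h3 : (aeval (![X 1, X 2, X 0] : Fin 3 → P3)).comp (aeval del) =
          (aeval del).comp (aeval (![X 1, X 2, X 0] : Fin 3 → P3)) := by
        ext i : 1
        fin_cases i
        · simp [del]
          ring
        · simp [del]
          ring
        · simp [del]
          ring
      exact DFunLike.congr_fun h3 (crv J)
    rw [h1, h2, ih]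

theorem eval_pderiv_crv_succ (J : ℕ) (r : V3) (j : Fin 3) :
    eval r (pderiv j (crv (J + 1))) =
      eval r (pderiv j (X 0 * X 1 * X 2 : P3)) * eval (fun i => eval r (del i)) (crv J) +
      r 0 * r 1 * r 2 * ∑ i, eval (fun l => eval r (del l)) (pderiv i (crv J)) *
        eval r (pderiv j (del i)) := by
  rw [crv_succ, Derivation.leibniz, crv_chain]
  simp only [smul_eq_mul, map_add, map_mul, map_sum, eval_X, crv_eval_aeval]
  ring

theorem pderiv_del (j i : Fin 3) (r : V3) : eval r (pderiv j (del i)) =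
    (![![2 * r 0 * (r 1 ^ 2 + r 2 ^ 2), 2 * r 0 * (r 1 ^ 2 - r 2 ^ 2),
        2 * r 0 * (r 2 ^ 2 - r 1 ^ 2)],
      ![2 * r 1 * (r 0 ^ 2 - r 2 ^ 2), 2 * r 1 * (r 0 ^ 2 + r 2 ^ 2),
        2 * r 1 * (r 2 ^ 2 - r 0 ^ 2)],
      ![2 * r 2 * (r 0 ^ 2 - r 1 ^ 2), 2 * r 2 * (r 1 ^ 2 - r 0 ^ 2),
        2 * r 2 * (r 0 ^ 2 + r 1 ^ 2)]] : Fin 3 → Fin 3 → ℂ) j i := by
  fin_cases j <;> fin_cases i <;>
    simp [del, Derivation.leibniz, Derivation.leibniz_pow, pderiv_X] <;> ring

theorem crv_cheb_aux (J : ℕ) : ∀ (t e : ℂ), e ^ 2 = 1 →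
    ¬ (eval ![t, 1, e] (crv J) = 0 ∧ eval ![t, 1, e] (pderiv 0 (crv J)) = 0) := by
  induction J with
  | zero =>
    rintro t e _ ⟨h, _⟩
    simp [crv] at h
  | succ J ih =>
    rintro t e he ⟨h1, h2⟩
    have he0 : e ≠ 0 := by rintro rfl; norm_num at he
    have hdel : (fun i => eval ![t, 1, e] (del i)) = (![2 * t ^ 2 - 1, 1, 1] : V3) := by
      rw [eval_del]
      simp only [Matrix.cons_val_zero, Matrix.cons_val_one, Matrix.cons_val, he, one_pow,
        mul_one]
      ext i
      fin_cases i
      · simp; ring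
      · simp
      · simp
    have h3 : eval ![t, 1, e] (crv (J + 1)) = e * t * eval ![2 * t ^ 2 - 1, 1, 1] (crv J) := by
      rw [crv_succ, map_mul, crv_eval_aeval, hdel]
      simp only [map_mul, eval_X, Matrix.cons_val_zero, Matrix.cons_val_one, Matrix.cons_val,
        mul_one]
      ring
    have h4 : eval ![t, 1, e] (pderiv 0 (crv (J + 1))) =
        e * eval ![2 * t ^ 2 - 1, 1, 1] (crv J) +
        t * e * (4 * t) * eval ![2 * t ^ 2 - 1, 1, 1] (pderiv 0 (crv J)) := by
      rw [eval_pderiv_crv_succ, hdel, Fin.sum_univ_three]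
      simp only [pderiv_del]
      simp [Derivation.leibniz, pderiv_X, he]
      ring
    rw [h3] at h1
    rw [h4] at h2
    rcases mul_eq_zero.1 h1 with h5 | h5
    · have ht : t = 0 := (mul_eq_zero.1 h5).resolve_left he0
      subst ht
      simp only [mul_zero, zero_mul, add_zero] at h2
      have h6 := (mul_eq_zero.1 h2).resolve_left he0
      exact crv_unit J (2 * 0 ^ 2 - 1) 1 1 (by norm_num) (one_pow 2) (one_pow 2) h6
    · by_cases ht : t = 0
      · subst ht
        exact crv_unit J (2 * 0 ^ 2 - 1) 1 1 (by norm_num) (one_pow 2) (one_pow 2) h5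
      · rw [h5, mul_zero, zero_add] at h2
        have h6 : t * e * (4 * t) ≠ 0 :=
          mul_ne_zero (mul_ne_zero ht he0) (mul_ne_zero (by norm_num) ht)
        exact ih (2 * t ^ 2 - 1) 1 (one_pow 2) ⟨h5, (mul_eq_zero.1 h2).resolve_left h6⟩

/-- the curve is transversal to the line `y + z = 0` outside the vertices -/
theorem crv_cheb (J : ℕ) (t : ℂ) :
    ¬ (eval ![t, 1, -1] (crv J) = 0 ∧ eval ![t, 1, -1] (pderiv 0 (crv J)) = 0) :=
  crv_cheb_aux J t (-1) (by norm_num)

/-- the Jacobian matrix of the doubling map is invertible outside the coordinate lines -/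
theorem jac_aux {a b c P Q R : ℂ} (ha : a ≠ 0) (hb : b ≠ 0) (hc : c ≠ 0)
    (h1 : b * P + c * Q = 0) (h2 : a * P + c * R = 0) (h3 : a * Q + b * R = 0) :
    P = 0 ∧ Q = 0 ∧ R = 0 := by
  have h4 : (2 * a * b) * P = 0 := by linear_combination a * h1 + b * h2 - c * h3
  have hP : P = 0 :=
    (mul_eq_zero.1 h4).resolve_left (mul_ne_zero (mul_ne_zero two_ne_zero ha) hb)
  subst hP
  rw [mul_zero, zero_add] at h1 h2
  exact ⟨rfl, (mul_eq_zero.1 h1).resolve_left hc, (mul_eq_zero.1 h2).resolve_left hc⟩

/-- the singular points are the vertices -/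
theorem crv_sing (J : ℕ) (r : V3) (hr : r ≠ 0) (h : Sg (crv J) r) :
    Prl e0 r ∨ Prl e1 r ∨ Prl e2 r := by
  induction J generalizing r with
  | zero =>
    exfalso
    have := h.1
    simp [crv] at this
  | succ J ih =>
    obtain ⟨hF, hD⟩ := h
    have hG : ∀ i, eval r (pderiv i (crv (J + 1))) = 0 := hD
    by_cases h0 : r 0 = 0
    · by_cases h1 : r 1 = 0
      · right; right
        have h2 : r 2 ≠ 0 := by
          intro h2
          apply hr
          ext i
          fin_cases i
          · exact h0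
          · exact h1
          · exact h2
        refine ⟨r 2, h2, ?_⟩
        ext i
        fin_cases i
        · simp [e2, h0]
        · simp [e2, h1]
        · simp [e2]
      · by_cases h2 : r 2 = 0
        · right; left
          refine ⟨r 1, h1, ?_⟩
          ext i
          fin_cases i
          · simp [e1, h0]
          · simp [e1]
          · simp [e1, h2]
        · exfalso
          have h3 := hG 0
          rw [eval_pderiv_crv_succ, h0] at h3
          have h4 : eval r (pderiv 0 (X 0 * X 1 * X 2 : P3)) = r 1 * r 2 := by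
            simp [Derivation.leibniz, pderiv_X]
            ring
          rw [h4, eval_del] at h3
          simp only [zero_mul, add_zero, h0] at h3
          have h5 : (![0 ^ 2 * r 1 ^ 2 + 0 ^ 2 * r 2 ^ 2 - r 1 ^ 2 * r 2 ^ 2,
              0 ^ 2 * r 1 ^ 2 + r 1 ^ 2 * r 2 ^ 2 - 0 ^ 2 * r 2 ^ 2,
              0 ^ 2 * r 2 ^ 2 + r 1 ^ 2 * r 2 ^ 2 - 0 ^ 2 * r 1 ^ 2] : V3) =
              (r 1 ^ 2 * r 2 ^ 2) • ![-1, 1, 1] := by
            ext i
            fin_cases i <;> simp
          rw [h5, crv_eval_smul (crv_hom J)] at h3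
          exact mul_ne_zero (mul_ne_zero h1 h2) (mul_ne_zero (pow_ne_zero _
            (mul_ne_zero (pow_ne_zero _ h1) (pow_ne_zero _ h2)))
            (crv_unit J (-1) 1 1 (by norm_num) (one_pow 2) (one_pow 2))) h3
    · by_cases h1 : r 1 = 0
      · by_cases h2 : r 2 = 0
        · left
          refine ⟨r 0, h0, ?_⟩
          ext i
          fin_cases i
          · simp [e0]
          · simp [e0, h1]
          · simp [e0, h2]
        · exfalso
          have h3 := hG 1
          rw [eval_pderiv_crv_succ, h1] at h3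
          have h4 : eval r (pderiv 1 (X 0 * X 1 * X 2 : P3)) = r 0 * r 2 := by
            simp [Derivation.leibniz, pderiv_X]
            ring
          rw [h4, eval_del] at h3
          simp only [zero_mul, mul_zero, add_zero, h1] at h3
          have h5 : (![r 0 ^ 2 * 0 ^ 2 + r 0 ^ 2 * r 2 ^ 2 - 0 ^ 2 * r 2 ^ 2,
              r 0 ^ 2 * 0 ^ 2 + 0 ^ 2 * r 2 ^ 2 - r 0 ^ 2 * r 2 ^ 2,
              r 0 ^ 2 * r 2 ^ 2 + 0 ^ 2 * r 2 ^ 2 - r 0 ^ 2 * 0 ^ 2] : V3) =
              (r 0 ^ 2 * r 2 ^ 2) • ![1, -1, 1] := by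
            ext i
            fin_cases i <;> simp
          rw [h5, crv_eval_smul (crv_hom J)] at h3
          exact mul_ne_zero (mul_ne_zero h0 h2) (mul_ne_zero (pow_ne_zero _
            (mul_ne_zero (pow_ne_zero _ h0) (pow_ne_zero _ h2)))
            (crv_unit J 1 (-1) 1 (one_pow 2) (by norm_num) (one_pow 2))) h3
      · by_cases h2 : r 2 = 0
        · exfalso
          have h3 := hG 2
          rw [eval_pderiv_crv_succ, h2] at h3
          have h4 : eval r (pderiv 2 (X 0 * X 1 * X 2 : P3)) = r 0 * r 1 := by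
            simp [Derivation.leibniz, pderiv_X]
          rw [h4, eval_del] at h3
          simp only [zero_mul, mul_zero, add_zero, h2] at h3
          have h5 : (![r 0 ^ 2 * r 1 ^ 2 + r 0 ^ 2 * 0 ^ 2 - r 1 ^ 2 * 0 ^ 2,
              r 0 ^ 2 * r 1 ^ 2 + r 1 ^ 2 * 0 ^ 2 - r 0 ^ 2 * 0 ^ 2,
              r 0 ^ 2 * 0 ^ 2 + r 1 ^ 2 * 0 ^ 2 - r 0 ^ 2 * r 1 ^ 2] : V3) =
              (r 0 ^ 2 * r 1 ^ 2) • ![1, 1, -1] := by
            ext i
            fin_cases i <;> simp
          rw [h5, crv_eval_smul (crv_hom J)] at h3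
          exact mul_ne_zero (mul_ne_zero h0 h1) (mul_ne_zero (pow_ne_zero _
            (mul_ne_zero (pow_ne_zero _ h0) (pow_ne_zero _ h1)))
            (crv_unit J 1 1 (-1) (one_pow 2) (one_pow 2) (by norm_num))) h3
        · exfalso
          -- all the coordinates are nonzero
          have h012 : r 0 * r 1 * r 2 ≠ 0 := mul_ne_zero (mul_ne_zero h0 h1) h2
          set v : V3 := fun i => eval r (del i) with hv
          have hv' := eval_del r
          rw [← hv] at hv'
          have hF' : eval v (crv J) = 0 := by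
            rw [eval_crv_succ, ← hv'] at hF
            exact (mul_eq_zero.1 hF).resolve_left h012
          have hS : ∀ j, ∑ i, eval v (pderiv i (crv J)) * eval r (pderiv j (del i)) = 0 := by
            intro j
            have h3 := hG j
            rw [eval_pderiv_crv_succ, ← hv, hF', mul_zero, zero_add] at h3
            exact (mul_eq_zero.1 h3).resolve_left h012
          set a := eval v (pderiv 0 (crv J)) with ha
          set b := eval v (pderiv 1 (crv J)) with hb
          set c := eval v (pderiv 2 (crv J)) with hc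
          have s0 := hS 0
          have s1 := hS 1
          have s2 := hS 2
          simp only [Fin.sum_univ_three, pderiv_del, Matrix.cons_val_zero, Matrix.cons_val_one,
            Matrix.cons_val, ← ha, ← hb, ← hc] at s0 s1 s2
          have t0 : r 1 ^ 2 * (a + b - c) + r 2 ^ 2 * (a - b + c) = 0 := by
            have : (2 * r 0) * (r 1 ^ 2 * (a + b - c) + r 2 ^ 2 * (a - b + c)) = 0 := by
              linear_combination s0
            exact (mul_eq_zero.1 this).resolve_left (mul_ne_zero two_ne_zero h0)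
          have t1 : r 0 ^ 2 * (a + b - c) + r 2 ^ 2 * (-a + b + c) = 0 := by
            have : (2 * r 1) * (r 0 ^ 2 * (a + b - c) + r 2 ^ 2 * (-a + b + c)) = 0 := by
              linear_combination s1
            exact (mul_eq_zero.1 this).resolve_left (mul_ne_zero two_ne_zero h1)
          have t2 : r 0 ^ 2 * (a - b + c) + r 1 ^ 2 * (-a + b + c) = 0 := by
            have : (2 * r 2) * (r 0 ^ 2 * (a - b + c) + r 1 ^ 2 * (-a + b + c)) = 0 := by
              linear_combination s2
            exact (mul_eq_zero.1 this).resolve_left (mul_ne_zero two_ne_zero h2)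
          obtain ⟨u1, u2, u3⟩ := jac_aux (pow_ne_zero 2 h0) (pow_ne_zero 2 h1)
            (pow_ne_zero 2 h2) t0 t1 t2
          have ha0 : a = 0 := by linear_combination (u1 + u2) / 2
          have hb0 : b = 0 := by linear_combination (u1 + u3) / 2
          have hc0 : c = 0 := by linear_combination (u2 + u3) / 2
          have v01 : v 0 + v 1 = 2 * r 0 ^ 2 * r 1 ^ 2 := by
            rw [hv']
            simp only [Matrix.cons_val_zero, Matrix.cons_val_one]
            ring
          have v02 : v 0 + v 2 = 2 * r 0 ^ 2 * r 2 ^ 2 := by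
            rw [hv']
            simp only [Matrix.cons_val_zero, Matrix.cons_val]
            ring
          have v12 : v 1 + v 2 = 2 * r 1 ^ 2 * r 2 ^ 2 := by
            rw [hv']
            simp only [Matrix.cons_val_one, Matrix.cons_val]
            ring
          have n01 : v 0 + v 1 ≠ 0 := by
            rw [v01]
            exact mul_ne_zero (mul_ne_zero two_ne_zero (pow_ne_zero _ h0)) (pow_ne_zero _ h1)
          have n02 : v 0 + v 2 ≠ 0 := by
            rw [v02]
            exact mul_ne_zero (mul_ne_zero two_ne_zero (pow_ne_zero _ h0)) (pow_ne_zero _ h2)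
          have n12 : v 1 + v 2 ≠ 0 := by
            rw [v12]
            exact mul_ne_zero (mul_ne_zero two_ne_zero (pow_ne_zero _ h1)) (pow_ne_zero _ h2)
          have hv0 : v ≠ 0 := by
            intro h
            rw [h] at n01
            simp at n01
          have hsg : Sg (crv J) v := by
            refine ⟨hF', ?_⟩
            intro i
            fin_cases i
            · exact ha0
            · exact hb0
            · exact hc0
          rcases ih v hv0 hsg with h3 | h3 | h3
          · obtain ⟨q, _, hq⟩ := h3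
            rw [hq] at n12
            simp [e0] at n12
          · obtain ⟨q, _, hq⟩ := h3
            rw [hq] at n02
            simp [e1] at n02
          · obtain ⟨q, _, hq⟩ := h3
            rw [hq] at n01
            simp [e2] at n01

end Pool.Agent.Helper90.HC
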