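import Mathlib

/-!
# H-constants of plane curves: definitions for the Cremona machine

`P3` are the polynomials in three variables (plane curves are homogeneous elements), `P2` the
polynomials in two variables (local equations).  A `Par` is a polynomial parametrisation of a
neighbourhood of a point of the plane.  `Tr G N Q` says that the germ `G` at the origin has a
resolution tree in which all the infinitely near singular points are toric, with `N` nodes and sum
of squares of the multiplicities `Q`.
-/

open MvPolynomial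

namespace Pool.Agent.Helper90.HC

/-- polynomials in two variables -/
abbrev P2 : Type := MvPolynomial (Fin 2) ℂ
/-- polynomials in three variables -/
abbrev P3 : Type := MvPolynomial (Fin 3) ℂ
/-- vectors -/
abbrev V3 : Type := Fin 3 → ℂ
/-- parametrisations -/
abbrev Par : Type := Fin 3 → P2

/-- the order at the origin is at least `m` -/
def OrdGe {σ : Type} (m : ℕ) (G : MvPolynomial σ ℂ) : Prop := ∀ s ∈ G.support, m ≤ s.degree

/-- translation: the Taylor expansion of `F` at `p` -/
noncomputable def tr (p : V3) (F : P3) : P3 := aeval (fun i => C (p i) + X i) F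

/-- the value of a parametrisation at the origin -/
noncomputable def pt (ρ : Par) : V3 := fun i => coeff 0 (ρ i)
/-- the derivative with respect to the first variable at the origin -/
noncomputable def dX (ρ : Par) : V3 := fun i => coeff (Finsupp.single 0 1) (ρ i)
/-- the derivative with respect to the second variable at the origin -/
noncomputable def dY (ρ : Par) : V3 := fun i => coeff (Finsupp.single 1 1) (ρ i)
/-- `ρ` parametrises a neighbourhood of its value at the origin -/
def Etale (ρ : Par) : Prop := Matrix.det (Matrix.of ![pt ρ, dX ρ, dY ρ]) ≠ 0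
/-- in the parametrisation `ρ`, the curve `F` has the local equation `G` -/
def Loc (F : P3) (ρ : Par) (G : P2) : Prop := ∃ U : P2, coeff 0 U ≠ 0 ∧ aeval ρ F = U * G

/-- `G(X, X (c + Y))` -/
noncomputable def chartR (c : ℂ) (G : P2) : P2 := aeval ![X 0, X 0 * (C c + X 1)] G
/-- `G(X Y, Y)` -/
noncomputable def chartL (G : P2) : P2 := aeval ![X 0 * X 1, X 1] G

/-- toric resolution trees: `N` singular infinitely near points, sum of the squares of their
multiplicities `Q` -/
inductive Tr : P2 → ℕ → ℕ → Prop
  | leaf (G : P2) (h : ¬ OrdGe 2 G) : Tr G 0 0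
  | node (G : P2) (m : ℕ) (KR KL : P2) (N1 Q1 N2 Q2 : ℕ) (hG : OrdGe m G)
      (hR : chartR 0 G = X 0 ^ m * KR) (hL : chartL G = X 1 ^ m * KL)
      (hc : ∀ c : ℂ, c ≠ 0 → ∀ H : P2, chartR c G = X 0 ^ m * H → ¬ OrdGe 2 H)
      (h1 : Tr KR N1 Q1) (h2 : Tr KL N2 Q2) : Tr G (1 + N1 + N2) (m ^ 2 + Q1 + Q2)

/-- proportional vectors -/
def Prl (r s : V3) : Prop := ∃ c : ℂ, c ≠ 0 ∧ s = c • r

/-- `F` is singular at `r` -/
def Sg (F : P3) (r : V3) : Prop := eval r F = 0 ∧ ∀ i, eval r (pderiv i F) = 0

/-- an active point: a parametrisation, a local equation, and the size of its tree -/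
structure Act where
  /-- the parametrisation -/
  ρ : Par
  /-- the local equation -/
  G : P2
  /-- the number of nodes -/
  N : ℕ
  /-- the sum of the squares of the multiplicities -/
  Q : ℕ

/-- the points of a state -/
noncomputable def pts (D : List (V3 × ℕ)) (A : List Act) : List V3 :=
  D.map Prod.fst ++ A.map (fun a => pt a.ρ)

/-- A state of the machine: a plane curve `F` of degree `d`, a list `D` of points with lower bounds
of the multiplicities, and a list `A` of active points; these are distinct points, and all the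
singular points of `F` are among them. -/
structure St (d : ℕ) (F : P3) (D : List (V3 × ℕ)) (A : List Act) : Prop where
  ne : F ≠ 0
  hom : F.IsHomogeneous d
  act : ∀ a ∈ A, Etale a.ρ ∧ Loc F a.ρ a.G ∧ Tr a.G a.N a.Q
  don : ∀ s ∈ D, s.1 ≠ 0 ∧ OrdGe s.2 (tr s.1 F)
  dis : (pts D A).Pairwise (fun r s => ¬ Prl r s)
  sing : ∀ r : V3, r ≠ 0 → Sg F r → ∃ s ∈ pts D A, Prl s r

/-- sum of the squares of the multiplicities of the done points -/
def sqs (D : List (V3 × ℕ)) : ℤ := (D.map fun s => (s.2 : ℤ) ^ 2).sum

/-- total number of nodes -/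
def Ns (A : List Act) : ℕ := (A.map Act.N).sum

/-- total sum of squares of the multiplicities of the active points -/
def Qs (A : List Act) : ℤ := (A.map fun a => (a.Q : ℤ)).sum

/-- the number of steps of the subtractive Euclidean algorithm -/
def ell : ℕ → ℕ → ℕ
  | 0, _ => 0
  | _ + 1, 0 => 0
  | a + 1, b + 1 =>
    if a < b then 1 + ell (a + 1) (b - a)
    else if b < a then 1 + ell (a - b) (b + 1)
    else 1
termination_by a b => a + b

/-- the `x`-coordinate doubling map of the Legendre family, in homogeneous coordinates -/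
noncomputable def del : Fin 3 → P3 :=
  ![X 0 ^ 2 * X 1 ^ 2 + X 0 ^ 2 * X 2 ^ 2 - X 1 ^ 2 * X 2 ^ 2,
    X 0 ^ 2 * X 1 ^ 2 + X 1 ^ 2 * X 2 ^ 2 - X 0 ^ 2 * X 2 ^ 2,
    X 0 ^ 2 * X 2 ^ 2 + X 1 ^ 2 * X 2 ^ 2 - X 0 ^ 2 * X 1 ^ 2]

/-- the curves of `2 ^ (J + 1)`-torsion points -/
noncomputable def crv : ℕ → P3
  | 0 => 1
  | J + 1 => X 0 * X 1 * X 2 * aeval del (crv J)

/-- the parametrisation of the plane at the vertex `(1, 0, 0)` -/
noncomputable def rho0 : Par := ![1, C (1 / 2) * (X 0 + X 1), C (1 / 2) * (X 1 - X 0)]

end Pool.Agent.Helper90.HC
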