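import Pool.Agent.Helper90.HC.Lin

/-!
# From the final state to the H-constant
-/

open MvPolynomial

namespace Pool.Agent.Helper90.HC

/-- the set of the singular points of a curve -/
def singSet (F : P3) : Set (Projectivization ℂ (Fin 3 → ℂ)) :=
  {p : Projectivization ℂ (Fin 3 → ℂ) |
    MvPolynomial.eval p.rep F = 0 ∧
      ∀ i : Fin 3, MvPolynomial.eval p.rep (MvPolynomial.pderiv i F) = 0}

/-- the multiplicity -/
noncomputable def mlt (F : P3) (r : V3) : ℕ :=
  sInf {k : ℕ | ∃ s ∈ (tr r F).support, ∑ j : Fin 3, s j = k}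

lemma tr_ne_zero {F : P3} (hF : F ≠ 0) (r : V3) : tr r F ≠ 0 := by
  intro h
  apply hF
  have h1 : aeval (fun i => X i - C (r i) : Fin 3 → P3) (tr r F) = F := by
    rw [tr, ← AlgHom.comp_apply, comp_aeval]
    have h2 : (fun i => aeval (fun i => X i - C (r i) : Fin 3 → P3) (C (r i) + X i : P3)) = X := by
      funext i
      simp
    rw [h2, aeval_X_left, AlgHom.id_apply]
  rw [← h1, h, map_zero]

lemma le_mlt {F : P3} (hF : F ≠ 0) {r : V3} {m : ℕ} (h : OrdGe m (tr r F)) : m ≤ mlt F r := by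
  obtain ⟨s, hs⟩ := (support_nonempty (p := tr r F)).2 (tr_ne_zero hF r)
  have h1 : {k : ℕ | ∃ s ∈ (tr r F).support, ∑ j : Fin 3, s j = k}.Nonempty := ⟨_, s, hs, rfl⟩
  obtain ⟨t, ht, ht'⟩ := Nat.sInf_mem h1
  have h2 := h t ht
  rw [Finsupp.degree_eq_sum, ht'] at h2
  exact h2

/-- the point of the projective plane of a vector -/
noncomputable def toProj (s : V3) : Projectivization ℂ V3 := by
  classical
  exact if h : s = 0 then Projectivization.mk ℂ (fun _ => 1) (fun h => one_ne_zero (congrFun h 0))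
    else Projectivization.mk ℂ s h

lemma toProj_of_ne {s : V3} (h : s ≠ 0) : toProj s = Projectivization.mk ℂ s h := dif_neg h

lemma toProj_rep {s : V3} (h : s ≠ 0) : Prl s (toProj s).rep := by
  rw [toProj_of_ne h]
  obtain ⟨a, ha⟩ := Projectivization.exists_smul_eq_mk_rep ℂ s h
  exact ⟨a, a.ne_zero, ha.symm⟩

lemma toProj_inj {r s : V3} (hr : r ≠ 0) (hs : s ≠ 0) (h : toProj r = toProj s) : Prl r s :=
  (toProj_rep hr).trans (h ▸ (toProj_rep hs).symm)

lemma toProj_eq {s : V3} (hs : s ≠ 0) (p : Projectivization ℂ V3) (h : Prl s p.rep) :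
    toProj s = p := by
  rw [toProj_of_ne hs, ← p.mk_rep, Projectivization.mk_eq_mk_iff']
  obtain ⟨c, hc, h⟩ := h.symm
  exact ⟨c, h.symm⟩

lemma sg_iff_of_prl {d : ℕ} {F : P3} (hF : F.IsHomogeneous d) {r s : V3} (h : Prl r s) :
    Sg F r ↔ Sg F s := by
  constructor
  · intro hr
    obtain ⟨c, hc, rfl⟩ := h
    exact sg_smul hF hc hr
  · intro hs
    obtain ⟨c, hc, h⟩ := h.symm
    rw [h]
    exact sg_smul hF hc hs

/-- a curve with finitely many singular points is reduced -/
lemma squarefree_of_finite {F : P3} (hF : F ≠ 0) (L : List V3) (hL0 : L ≠ [])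
    (hL : ∀ s ∈ L, s ≠ 0) (hsing : ∀ r : V3, r ≠ 0 → Sg F r → ∃ s ∈ L, Prl s r) :
    Squarefree F := by
  intro A hA
  obtain ⟨B, hB⟩ := hA
  have hA0 : A ≠ 0 := by
    rintro rfl
    apply hF
    rw [hB]
    ring
  have hzero : ∀ r : V3, r ≠ 0 → eval r A = 0 → ∃ s ∈ L, Prl s r := by
    intro r hr h0
    apply hsing r hr
    constructor
    · rw [hB, map_mul, map_mul, h0]
      ring
    · intro i
      rw [hB, pderiv_mul, pderiv_mul]
      simp only [map_add, map_mul, h0]
      ring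
  -- a general point
  obtain ⟨u, -, hu⟩ : ∃ u : V3, eval u (1 : P3) ≠ 0 ∧
      ∀ l ∈ (L.map fun s => crs s (Pi.single 0 1)) ++ ((L.map fun s => crs s (Pi.single 1 1)) ++
        (L.map fun s => crs s (Pi.single 2 1))), l = 0 ∨ dot l u ≠ 0 := by
    classical
    obtain ⟨p, hp1, hp2⟩ := exists_avoid 1 one_ne_zero
      (((L.map fun s => crs s (Pi.single 0 1)) ++ ((L.map fun s => crs s (Pi.single 1 1)) ++
        (L.map fun s => crs s (Pi.single 2 1)))).filter (fun l => l ≠ 0)) (by
        intro l hl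
        simpa using (List.mem_filter.1 hl).2)
    refine ⟨p, hp1, fun l hl => ?_⟩
    by_cases h0 : l = 0
    · exact Or.inl h0
    · exact Or.inr (hp2 l (List.mem_filter.2 ⟨hl, by simpa using h0⟩))
  have hus : ∀ s ∈ L, crs s u ≠ 0 := by
    intro s hs h0
    have z0 : s 1 * u 2 - s 2 * u 1 = 0 := congrFun h0 0
    have z1 : s 2 * u 0 - s 0 * u 2 = 0 := congrFun h0 1
    have z2 : s 0 * u 1 - s 1 * u 0 = 0 := congrFun h0 2
    obtain ⟨i, hi⟩ := Function.ne_iff.1 (hL s hs)
    simp only [Pi.zero_apply] at hi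
    have k0 : crs s (Pi.single 0 1) = ![0, s 2, - s 1] := by
      funext j
      fin_cases j <;> simp [crs]
    have k1 : crs s (Pi.single 1 1) = ![- s 2, 0, s 0] := by
      funext j
      fin_cases j <;> simp [crs]
    have k2 : crs s (Pi.single 2 1) = ![s 1, - s 0, 0] := by
      funext j
      fin_cases j <;> simp [crs]
    have m0 := hu (crs s (Pi.single 0 1)) (List.mem_append_left _ (List.mem_map.2 ⟨s, hs, rfl⟩))
    have m1 := hu (crs s (Pi.single 1 1)) (List.mem_append_right _ (List.mem_append_left _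
      (List.mem_map.2 ⟨s, hs, rfl⟩)))
    have m2 := hu (crs s (Pi.single 2 1)) (List.mem_append_right _ (List.mem_append_right _
      (List.mem_map.2 ⟨s, hs, rfl⟩)))
    rw [k0] at m0
    rw [k1] at m1
    rw [k2] at m2
    have n0 : dot ![0, s 2, - s 1] u = 0 := by
      simp only [dot, Matrix.cons_val_zero, Matrix.cons_val_one, Matrix.cons_val]
      linear_combination (-1 : ℂ) * z0
    have n1 : dot ![- s 2, 0, s 0] u = 0 := by
      simp only [dot, Matrix.cons_val_zero, Matrix.cons_val_one, Matrix.cons_val]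
      linear_combination (-1 : ℂ) * z1
    have n2 : dot ![s 1, - s 0, 0] u = 0 := by
      simp only [dot, Matrix.cons_val_zero, Matrix.cons_val_one, Matrix.cons_val]
      linear_combination (-1 : ℂ) * z2
    have m0' := m0.resolve_right (fun h => h n0)
    have m1' := m1.resolve_right (fun h => h n1)
    fin_cases i
    · exact hi (congrFun m1' 2)
    · exact hi (neg_eq_zero.1 (congrFun m0' 2))
    · exact hi (congrFun m0' 1)
  -- `A` is constant
  have hconst : ∀ v : V3, (∀ s ∈ L, dot (crs s u) v ≠ 0) → eval v A = eval u A := by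
    intro v hv
    let g : Polynomial ℂ :=
      aeval (fun i => Polynomial.C (u i) + Polynomial.X * Polynomial.C (v i - u i)) A
    have hg : ∀ t : ℂ, g.eval t = eval (fun i => u i + t * (v i - u i)) A := by
      intro t
      have h1 : (Polynomial.aeval t : Polynomial ℂ →ₐ[ℂ] ℂ) g =
          aeval (fun i => u i + t * (v i - u i)) A := by
        rw [← AlgHom.comp_apply, comp_aeval]
        congr 2
        funext i
        simp
      exact h1
    have hdeg : g.degree ≤ 0 := by
      by_contra hd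
      push Not at hd
      obtain ⟨t, ht⟩ := Complex.exists_root hd
      rw [Polynomial.IsRoot.def, hg] at ht
      set r : V3 := fun i => u i + t * (v i - u i) with hr
      have key : ∀ s ∈ L, dot (crs s u) r = t * dot (crs s u) v := by
        intro s _
        simp only [dot, crs, hr, Matrix.cons_val_zero, Matrix.cons_val_one, Matrix.cons_val]
        ring
      have fin : ∀ s ∈ L, ∀ c : ℂ, r = c • s → False := by
        intro s hs c hc
        have h1 := key s hs
        have h2 : dot (crs s u) r = 0 := by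
          rw [hc]
          simp only [dot, crs, Pi.smul_apply, smul_eq_mul, Matrix.cons_val_zero,
            Matrix.cons_val_one, Matrix.cons_val]
          ring
        rw [h2] at h1
        have ht0 : t = 0 := (mul_eq_zero.1 h1.symm).resolve_right (hv s hs)
        have hru : r = u := by
          funext i
          simp [hr, ht0]
        apply hus s hs
        rw [← hru, hc]
        funext i
        fin_cases i <;> simp [crs] <;> ring
      obtain ⟨s0, hs0⟩ := List.exists_mem_of_ne_nil L hL0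
      have hr0 : r ≠ 0 := fun h0 => fin s0 hs0 0 (by rw [h0, zero_smul])
      obtain ⟨s, hs, c, _, hc⟩ := hzero r hr0 ht
      exact fin s hs c hc
    have h0 := hg 0
    have h1 := hg 1
    rw [Polynomial.eq_C_of_degree_le_zero hdeg, Polynomial.eval_C] at h0 h1
    rw [h0] at h1
    simpa using h1.symm
  have hAc : A = C (eval u A) := by
    by_contra hne
    obtain ⟨p, hp1, hp2⟩ := exists_avoid (A - C (eval u A)) (sub_ne_zero.2 hne)
      (L.map fun s => crs s u) (by
        intro l hl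
        obtain ⟨s, hs, rfl⟩ := List.mem_map.1 hl
        exact hus s hs)
    apply hp1
    rw [map_sub, eval_C, hconst p fun s hs => hp2 _ (List.mem_map.2 ⟨s, hs, rfl⟩), sub_self]
  have hA1 : eval u A ≠ 0 := by
    intro h0
    rw [h0, C_0] at hAc
    exact hA0 hAc
  rw [hAc]
  exact (isUnit_iff_ne_zero.2 hA1).map C

theorem final_of_St {d : ℕ} {F : P3} {D : List (V3 × ℕ)} (h : St d F D [])
    (hneg : (d : ℤ) ^ 2 - sqs D + D.length < 0) :
    Squarefree F ∧ (singSet F).Nonempty ∧
      (((d : ℝ) ^ 2 -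
            ∑ᶠ p ∈ singSet F,
              (((sInf {k : ℕ | ∃ s ∈ (MvPolynomial.aeval
                    (fun i : Fin 3 =>
                      (MvPolynomial.C (p.rep i) + MvPolynomial.X i : MvPolynomial (Fin 3) ℂ))
                    F).support, ∑ j : Fin 3, s j = k} : ℕ) : ℝ) ^ 2)) /
          (((singSet F).ncard : ℕ) : ℝ)) ≤
        (((d : ℤ) ^ 2 - sqs D + D.length : ℤ) : ℝ) / (D.length : ℝ) := by
  classical
  have hpts : pts D [] = D.map Prod.fst := by simp [pts]
  have hdis := h.dis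
  rw [hpts, List.pairwise_map] at hdis
  have : Std.Symm (fun r s : V3 × ℕ => ¬ Prl r.1 s.1) := ⟨fun _ _ h h' => h h'.symm⟩
  have hnodup : D.Nodup := by
    refine hdis.imp ?_
    rintro r s hrs rfl
    exact hrs (Prl.refl _)
  have hprl : ∀ r ∈ D, ∀ s ∈ D, Prl r.1 s.1 → r = s := by
    intro r hr s hs hp
    by_contra hne
    exact hdis.forall hr hs hne hp
  have hne : ∀ s ∈ D, s.1 ≠ 0 := fun s hs => (h.don s hs).1
  have hsing : ∀ r : V3, r ≠ 0 → Sg F r → ∃ s ∈ D, Prl s.1 r := by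
    intro r hr hs
    obtain ⟨s, hs1, hs2⟩ := h.sing r hr hs
    rw [hpts] at hs1
    obtain ⟨s', hs', rfl⟩ := List.mem_map.1 hs1
    exact ⟨s', hs', hs2⟩
  -- sums over finsets
  set E : Finset (V3 × ℕ) := D.toFinset with hE
  have hmem : ∀ s, s ∈ E ↔ s ∈ D := fun s => List.mem_toFinset
  have hcard : E.card = D.length := List.toFinset_card_of_nodup hnodup
  have hsqs : ∑ s ∈ E, (s.2 : ℤ) ^ 2 = sqs D := List.sum_toFinset _ hnodup
  let E1 : Finset (V3 × ℕ) := E.filter fun s => Sg F s.1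
  let E2 : Finset (V3 × ℕ) := E.filter fun s => ¬ Sg F s.1
  have hinj : Set.InjOn (fun s : V3 × ℕ => toProj s.1) (E1 : Set (V3 × ℕ)) := by
    intro r hr s hs hrs
    have hr' : r ∈ D := (hmem r).1 (Finset.mem_filter.1 hr).1
    have hs' : s ∈ D := (hmem s).1 (Finset.mem_filter.1 hs).1
    exact hprl r hr' s hs' (toProj_inj (hne r hr') (hne s hs') hrs)
  have hS : singSet F = ((E1.image fun s => toProj s.1 : Finset (Projectivization ℂ V3)) :
      Set (Projectivization ℂ V3)) := by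
    ext p
    rw [Finset.mem_coe, Finset.mem_image]
    constructor
    · intro hp
      obtain ⟨s, hs, hp'⟩ := hsing p.rep p.rep_nonzero hp
      refine ⟨s, Finset.mem_filter.2 ⟨(hmem s).2 hs, ?_⟩, toProj_eq (hne s hs) p hp'⟩
      exact (sg_iff_of_prl h.hom hp').2 hp
    · rintro ⟨s, hs, rfl⟩
      have hs' : s ∈ D := (hmem s).1 (Finset.mem_filter.1 hs).1
      exact (sg_iff_of_prl h.hom (toProj_rep (hne s hs'))).1 (Finset.mem_filter.1 hs).2
  have hE2 : ∀ s ∈ E2, (s.2 : ℤ) ^ 2 ≤ 1 := by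
    intro s hs
    have hs' : s ∈ D := (hmem s).1 (Finset.mem_filter.1 hs).1
    have h1 : s.2 < 2 := by
      by_contra hlt
      push Not at hlt
      apply (Finset.mem_filter.1 hs).2
      rw [sg_iff]
      exact (h.don s hs').2.mono hlt
    have h2 : (s.2 : ℤ) ≤ 1 := by exact_mod_cast Nat.lt_succ_iff.1 h1
    nlinarith [Int.natCast_nonneg s.2]
  have hsplit : ∑ s ∈ E1, (s.2 : ℤ) ^ 2 + ∑ s ∈ E2, (s.2 : ℤ) ^ 2 = sqs D := by
    rw [← hsqs]
    exact Finset.sum_filter_add_sum_filter_not _ _ _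
  have hsplit' : E1.card + E2.card = D.length := by
    rw [← hcard]
    exact Finset.card_filter_add_card_filter_not _
  have hE2' : ∑ s ∈ E2, (s.2 : ℤ) ^ 2 ≤ E2.card := by
    calc ∑ s ∈ E2, (s.2 : ℤ) ^ 2 ≤ ∑ s ∈ E2, (1 : ℤ) := Finset.sum_le_sum hE2
      _ = E2.card := by simp
  have hE1 : E1.Nonempty := by
    by_contra h0
    rw [Finset.not_nonempty_iff_eq_empty] at h0
    rw [h0, Finset.sum_empty, zero_add] at hsplit
    rw [h0, Finset.card_empty, zero_add] at hsplit'
    rw [hsplit, hsplit'] at hE2'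
    nlinarith [sq_nonneg (d : ℤ)]
  have hD0 : D ≠ [] := by
    rintro rfl
    simp [E1, E] at hE1
  refine ⟨?_, ?_, ?_⟩
  · refine squarefree_of_finite h.ne (D.map Prod.fst) (by simpa using hD0) ?_ ?_
    · intro s hs
      obtain ⟨s', hs', rfl⟩ := List.mem_map.1 hs
      exact hne s' hs'
    · intro r hr hs
      obtain ⟨s, hs1, hs2⟩ := hsing r hr hs
      exact ⟨s.1, List.mem_map_of_mem hs1, hs2⟩
  · rw [hS, Finset.coe_nonempty]
    exact hE1.image _
  · have hncard : (singSet F).ncard = E1.card := by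
      rw [hS, Set.ncard_coe_finset, Finset.card_image_of_injOn hinj]
    have hsum : ∑ᶠ p ∈ singSet F, ((mlt F p.rep : ℕ) : ℝ) ^ 2 =
        ∑ s ∈ E1, ((mlt F (toProj s.1).rep : ℕ) : ℝ) ^ 2 := by
      rw [hS, finsum_mem_coe_finset, Finset.sum_image hinj]
    have hle : ((∑ s ∈ E1, (s.2 : ℤ) ^ 2 : ℤ) : ℝ) ≤
        ∑ s ∈ E1, ((mlt F (toProj s.1).rep : ℕ) : ℝ) ^ 2 := by
      push_cast
      refine Finset.sum_le_sum fun s hs => ?_
      have hs' : s ∈ D := (hmem s).1 (Finset.mem_filter.1 hs).1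
      have h1 : s.2 ≤ mlt F (toProj s.1).rep := by
        apply le_mlt h.ne
        obtain ⟨c, hc, hc'⟩ := toProj_rep (hne s hs')
        rw [hc']
        exact ordGe_tr_smul h.hom hc (h.don s hs').2
      have h2 : (s.2 : ℝ) ≤ (mlt F (toProj s.1).rep : ℕ) := by exact_mod_cast h1
      exact pow_le_pow_left₀ (Nat.cast_nonneg _) h2 2
    change ((d : ℝ) ^ 2 - ∑ᶠ p ∈ singSet F, ((mlt F p.rep : ℕ) : ℝ) ^ 2) /
      (((singSet F).ncard : ℕ) : ℝ) ≤ _
    rw [hncard, hsum]
    have hc1 : (0 : ℝ) < E1.card := by exact_mod_cast hE1.card_pos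
    have hc2 : (E1.card : ℝ) ≤ D.length := by
      rw [← hsplit']
      push_cast
      have : (0 : ℝ) ≤ E2.card := Nat.cast_nonneg _
      linarith
    have hc3 : (0 : ℝ) < D.length := lt_of_lt_of_le hc1 hc2
    have hX : ((d : ℝ) ^ 2 - ((∑ s ∈ E1, (s.2 : ℤ) ^ 2 : ℤ) : ℝ)) ≤
        (((d : ℤ) ^ 2 - sqs D + D.length : ℤ) : ℝ) - E1.card := by
      have h3 : ((d : ℤ) ^ 2 - ∑ s ∈ E1, (s.2 : ℤ) ^ 2) ≤
          ((d : ℤ) ^ 2 - sqs D + D.length) - E1.card := by
        have h4 : (D.length : ℤ) = E1.card + E2.card := by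
          rw [← hsplit']
          push_cast
          rfl
        rw [h4, ← hsplit]
        linarith
      have h5 : (((d : ℤ) ^ 2 - ∑ s ∈ E1, (s.2 : ℤ) ^ 2 : ℤ) : ℝ) ≤
          ((((d : ℤ) ^ 2 - sqs D + D.length) - E1.card : ℤ) : ℝ) := Int.cast_le.2 h3
      rw [Int.cast_sub, Int.cast_sub] at h5
      push_cast at h5 ⊢
      exact h5
    set Y : ℝ := (((d : ℤ) ^ 2 - sqs D + D.length : ℤ) : ℝ) with hY
    have hYneg : Y < 0 := by
      rw [hY]
      exact_mod_cast hneg
    have h6 : ((d : ℝ) ^ 2 - ∑ s ∈ E1, ((mlt F (toProj s.1).rep : ℕ) : ℝ) ^ 2) ≤ Y := by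
      linarith
    calc ((d : ℝ) ^ 2 - ∑ s ∈ E1, ((mlt F (toProj s.1).rep : ℕ) : ℝ) ^ 2) / (E1.card : ℝ)
        ≤ Y / (E1.card : ℝ) := div_le_div_of_nonneg_right h6 hc1.le
      _ ≤ Y / (D.length : ℝ) := by
          rw [div_le_div_iff₀ hc1 hc3]
          nlinarith

end Pool.Agent.Helper90.HC
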