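import Pool.Agent.Helper90.HC.Curve

/-!
# Newton polygons of the torsion curves at the vertices
-/

open MvPolynomial

namespace Pool.Agent.Helper90.HC

/-- the support function of the Newton polygon of `∏ (X ^ (2 (k - i)) - Y ^ (2 i))` -/
def hh (k a b : ℕ) : ℕ := 2 * ∑ i ∈ Finset.Ico 1 k, min ((k - i) * a) (i * b)

/-- the part of weight `h` -/
noncomputable def face (a b h : ℕ) (G : P2) : P2 :=
  ∑ s ∈ G.support with a * s 0 + b * s 1 = h, monomial s (coeff s G)

/-- `φ` is singular at `(x, y)` -/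
def Sg2 (φ : P2) (x y : ℂ) : Prop :=
  eval ![x, y] φ = 0 ∧ eval ![x, y] (pderiv 0 φ) = 0 ∧ eval ![x, y] (pderiv 1 φ) = 0

/-- The Newton polygon of `G` has the support function `hh k`, and the faces are nondegenerate. -/
def Good (k : ℕ) (G : P2) : Prop :=
  ∀ a b : ℕ, 1 ≤ a → 1 ≤ b → (∀ s ∈ G.support, hh k a b ≤ a * s 0 + b * s 1) ∧
    ∀ x y : ℂ, x ≠ 0 → y ≠ 0 → ¬ Sg2 (face a b (hh k a b) G) x y

/-- the support function is symmetric under `a, b ↦ b, a` up to reflection -/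
theorem hh_symm (k a b : ℕ) : hh k a b = hh k b a := by
  unfold hh
  congr 1
  rcases Nat.eq_zero_or_pos k with rfl | hk
  · simp
  apply Finset.sum_nbij' (fun i => k - i) (fun i => k - i)
  · intro i hi
    rw [Finset.mem_Ico] at hi ⊢
    omega
  · intro i hi
    rw [Finset.mem_Ico] at hi ⊢
    omega
  · intro i hi
    rw [Finset.mem_Ico] at hi
    omega
  · intro i hi
    rw [Finset.mem_Ico] at hi
    omega
  · intro i hi
    rw [Finset.mem_Ico] at hi
    rw [Nat.sub_sub_self (by omega), min_comm]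

/-- doubling, for `a ≤ b` -/
theorem hh_double (k a b : ℕ) (hk : 1 ≤ k) (hab : a ≤ b) :
    hh (2 * k) a b = 2 * a * k ^ 2 + hh k (b - a) (2 * a) := by
  obtain ⟨e, rfl⟩ : ∃ e, b = a + e := ⟨b - a, by omega⟩
  rw [Nat.add_sub_cancel_left]
  unfold hh
  have h1 : ∑ i ∈ Finset.Ico 1 (2 * k), min ((2 * k - i) * a) (i * (a + e)) =
      ∑ i ∈ Finset.Ico 1 k, min ((2 * k - i) * a) (i * (a + e)) + k * a +
      ∑ i ∈ Finset.Ico 1 k, i * a := by
    rw [← Finset.sum_Ico_consecutive _ (by omega : 1 ≤ k) (by omega : k ≤ 2 * k),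
      Finset.sum_eq_sum_Ico_succ_bot (by omega : k < 2 * k), add_assoc]
    congr 2
    · rw [show 2 * k - k = k by omega]
      apply min_eq_left
      nlinarith [Nat.zero_le (k * e)]
    · apply Finset.sum_nbij' (fun i => 2 * k - i) (fun i => 2 * k - i)
      · intro i hi
        rw [Finset.mem_Ico] at hi ⊢
        omega
      · intro i hi
        rw [Finset.mem_Ico] at hi ⊢
        omega
      · intro i hi
        rw [Finset.mem_Ico] at hi
        omega
      · intro i hi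
        rw [Finset.mem_Ico] at hi
        omega
      · intro i hi
        rw [Finset.mem_Ico] at hi
        apply min_eq_left
        obtain ⟨f, hf⟩ : ∃ f, i = 2 * k - i + f := ⟨i - (2 * k - i), by omega⟩
        calc (2 * k - i) * a ≤ i * a := Nat.mul_le_mul_right _ (by omega)
          _ ≤ i * (a + e) := Nat.mul_le_mul_left _ (by omega)
  have h2 : ∑ i ∈ Finset.Ico 1 k, min ((2 * k - i) * a) (i * (a + e)) +
      ∑ i ∈ Finset.Ico 1 k, i * a =
      2 * ∑ i ∈ Finset.Ico 1 k, i * a +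
      ∑ i ∈ Finset.Ico 1 k, min ((k - i) * e) (i * (2 * a)) := by
    have h3 : ∑ i ∈ Finset.Ico 1 k, min ((k - i) * e) (i * (2 * a)) =
        ∑ i ∈ Finset.Ico 1 k, min (i * e) ((k - i) * (2 * a)) := by
      apply Finset.sum_nbij' (fun i => k - i) (fun i => k - i)
      · intro i hi
        rw [Finset.mem_Ico] at hi ⊢
        omega
      · intro i hi
        rw [Finset.mem_Ico] at hi ⊢
        omega
      · intro i hi
        rw [Finset.mem_Ico] at hi
        omega
      · intro i hi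
        rw [Finset.mem_Ico] at hi
        omega
      · intro i hi
        rw [Finset.mem_Ico] at hi
        rw [Nat.sub_sub_self (by omega)]
    rw [h3, Finset.mul_sum, ← Finset.sum_add_distrib, ← Finset.sum_add_distrib]
    apply Finset.sum_congr rfl
    intro i hi
    rw [Finset.mem_Ico] at hi
    obtain ⟨f, rfl⟩ : ∃ f, k = i + f := ⟨k - i, by omega⟩
    rw [show i + f - i = f by omega, show 2 * (i + f) - i = i + 2 * f by omega]
    have e1 : (i + 2 * f) * a = i * a + f * (2 * a) := by ring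
    have e2 : i * (a + e) = i * a + i * e := by ring
    rw [e1, e2, min_add_add_left, min_comm]
    ring
  have h4 : 2 * ∑ i ∈ Finset.Ico 1 k, i * a + k * a = a * k ^ 2 := by
    clear h1 h2
    obtain ⟨n, rfl⟩ : ∃ n, k = n + 1 := ⟨k - 1, by omega⟩
    clear hk
    induction n with
    | zero => simp
    | succ n ih =>
      rw [Finset.sum_Ico_succ_top (by omega), mul_add]
      nlinarith
  rw [h1]
  nlinarith

/-- the curve in the coordinates `x`, `X = y - z`, `Y = y + z` -/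
noncomputable def PP (J : ℕ) : P3 :=
  aeval ![X 0, C (1 / 2) * (X 1 + X 2), C (1 / 2) * (X 2 - X 1)] (crv J)

/-- the doubling map in these coordinates -/
noncomputable def DD : Fin 3 → P3 :=
  ![C (1 / 2) * (X 0 ^ 2 * (X 1 ^ 2 + X 2 ^ 2)) - C (1 / 16) * (X 2 ^ 2 - X 1 ^ 2) ^ 2,
    C 2 * (X 0 ^ 2 * (X 1 * X 2)), C (1 / 8) * (X 2 ^ 2 - X 1 ^ 2) ^ 2]

theorem eval_PP (J : ℕ) (r : V3) :
    eval r (PP J) = eval ![r 0, (r 1 + r 2) / 2, (r 2 - r 1) / 2] (crv J) := by
  unfold PP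
  rw [crv_eval_aeval]
  have h : (fun i => eval r ((![X 0, C (1 / 2) * (X 1 + X 2), C (1 / 2) * (X 2 - X 1)] :
      Fin 3 → P3) i)) = ![r 0, (r 1 + r 2) / 2, (r 2 - r 1) / 2] := by
    funext i
    fin_cases i
    · simp
    · simp
      ring
    · simp
      ring
  rw [h]

theorem eval_DD (r : V3) : (fun i => eval r (DD i)) =
    ![r 0 ^ 2 * (r 1 ^ 2 + r 2 ^ 2) / 2 - (r 2 ^ 2 - r 1 ^ 2) ^ 2 / 16,
      2 * r 0 ^ 2 * r 1 * r 2, (r 2 ^ 2 - r 1 ^ 2) ^ 2 / 8] := by
  funext i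
  fin_cases i
  · simp [DD]
    ring
  · simp [DD]
    ring
  · simp [DD]
    ring

theorem PP_succ (J : ℕ) :
    PP (J + 1) = X 0 * (C (1 / 4) * (X 2 ^ 2 - X 1 ^ 2)) * aeval DD (PP J) := by
  apply MvPolynomial.funext
  intro r
  rw [eval_PP, eval_crv_succ, map_mul, crv_eval_aeval, eval_DD, eval_PP]
  simp only [Matrix.cons_val_zero, Matrix.cons_val_one, Matrix.cons_val, map_mul, map_sub,
    map_pow, eval_X, eval_C]
  have h1 : r 0 * ((r 1 + r 2) / 2) * ((r 2 - r 1) / 2) =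
      r 0 * (1 / 4 * (r 2 ^ 2 - r 1 ^ 2)) := by ring
  have h2 : (![r 0 ^ 2 * ((r 1 + r 2) / 2) ^ 2 + r 0 ^ 2 * ((r 2 - r 1) / 2) ^ 2 -
        ((r 1 + r 2) / 2) ^ 2 * ((r 2 - r 1) / 2) ^ 2,
      r 0 ^ 2 * ((r 1 + r 2) / 2) ^ 2 + ((r 1 + r 2) / 2) ^ 2 * ((r 2 - r 1) / 2) ^ 2 -
        r 0 ^ 2 * ((r 2 - r 1) / 2) ^ 2,
      r 0 ^ 2 * ((r 2 - r 1) / 2) ^ 2 + ((r 1 + r 2) / 2) ^ 2 * ((r 2 - r 1) / 2) ^ 2 -
        r 0 ^ 2 * ((r 1 + r 2) / 2) ^ 2] : V3) =
      ![r 0 ^ 2 * (r 1 ^ 2 + r 2 ^ 2) / 2 - (r 2 ^ 2 - r 1 ^ 2) ^ 2 / 16,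
      (2 * r 0 ^ 2 * r 1 * r 2 + (r 2 ^ 2 - r 1 ^ 2) ^ 2 / 8) / 2,
      ((r 2 ^ 2 - r 1 ^ 2) ^ 2 / 8 - 2 * r 0 ^ 2 * r 1 * r 2) / 2] := by
    funext i
    fin_cases i
    · simp
      ring
    · simp
      ring
    · simp
      ring
  rw [h1, h2]

theorem PP_hom (J : ℕ) : (PP J).IsHomogeneous (4 ^ J - 1) := by
  have h := (crv_hom J).aeval
    (![X 0, C (1 / 2) * (X 1 + X 2), C (1 / 2) * (X 2 - X 1)] : Fin 3 → P3) (n := 1) (by
      intro i
      have h0 : ∀ j : Fin 3, (X j : P3).IsHomogeneous 1 := fun j => isHomogeneous_X ℂ j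
      fin_cases i
      · exact h0 0
      · have := (isHomogeneous_C (Fin 3) (1 / 2 : ℂ)).mul ((h0 1).add (h0 2))
        rwa [zero_add] at this
      · have := (isHomogeneous_C (Fin 3) (1 / 2 : ℂ)).mul ((h0 2).sub (h0 1))
        rwa [zero_add] at this)
  rwa [one_mul] at h

/-- the ring of polynomials in the scaling parameter -/
abbrev SS : Type := Polynomial P3

/-- `x, s ^ a X, s ^ b Y` -/
noncomputable def sb (a b : ℕ) : Fin 3 → SS :=
  ![Polynomial.C (X 0), Polynomial.X ^ a * Polynomial.C (X 1),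
    Polynomial.X ^ b * Polynomial.C (X 2)]

/-- `φ` is the initial form of `PP J`, of weight `h` -/
def Wt (J a b h : ℕ) (φ : P3) : Prop :=
  ∃ T : SS, aeval (sb a b) (PP J) = Polynomial.X ^ h * T ∧ T.coeff 0 = φ

/-- substitution of `A` for the variables, keeping the scaling parameter -/
noncomputable def subs (A : Fin 3 → SS) : SS →ₐ[ℂ] SS :=
  { Polynomial.eval₂RingHom (aeval A : P3 →ₐ[ℂ] SS).toRingHom Polynomial.X with
    commutes' := by
      intro r
      simp [Polynomial.algebraMap_apply] }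

theorem subs_C (A : Fin 3 → SS) (φ : P3) : subs A (Polynomial.C φ) = aeval A φ := by
  show Polynomial.eval₂ _ _ _ = _
  rw [Polynomial.eval₂_C]
  rfl

theorem subs_X (A : Fin 3 → SS) : subs A Polynomial.X = Polynomial.X := by
  show Polynomial.eval₂ _ _ _ = _
  rw [Polynomial.eval₂_X]

theorem coeff_zero_aevalS (A : Fin 3 → SS) (φ : P3) :
    (aeval A φ).coeff 0 = aeval (fun i => (A i).coeff 0) φ := by
  induction φ using MvPolynomial.induction_on with
  | C a => simp [Polynomial.algebraMap_apply]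
  | add p q hp hq => simp only [map_add, Polynomial.coeff_add, hp, hq]
  | mul_X p n hp => simp only [map_mul, Polynomial.mul_coeff_zero, hp, aeval_X]

/-- the recursion of the initial forms -/
theorem Wt_succ {J a b c a' b' h : ℕ} {φ : P3} (hφ : Wt J a' b' h φ) (q : SS) (A : Fin 3 → SS)
    (hq : aeval (sb a b) (C (1 / 4) * (X 2 ^ 2 - X 1 ^ 2) : P3) = Polynomial.X ^ c * q)
    (h0 : aeval (sb a b) (DD 0) = Polynomial.X ^ c * A 0)
    (h1 : aeval (sb a b) (DD 1) = Polynomial.X ^ c * (Polynomial.X ^ a' * A 1))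
    (h2 : aeval (sb a b) (DD 2) = Polynomial.X ^ c * (Polynomial.X ^ b' * A 2)) :
    Wt (J + 1) a b (c + c * (4 ^ J - 1) + h)
      (X 0 * q.coeff 0 * aeval (fun i => (A i).coeff 0) φ) := by
  obtain ⟨T, hT, rfl⟩ := hφ
  refine ⟨Polynomial.C (X 0) * q * subs A T, ?_, ?_⟩
  · rw [PP_succ, map_mul, map_mul, aeval_X, hq, ← AlgHom.comp_apply, comp_aeval]
    have h3 : (fun i => aeval (sb a b) (DD i)) = fun i => Polynomial.X ^ c *
        (![A 0, Polynomial.X ^ a' * A 1, Polynomial.X ^ b' * A 2] : Fin 3 → SS) i := by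
      funext i
      fin_cases i
      · exact h0
      · exact h1
      · exact h2
    have h4 : aeval (![A 0, Polynomial.X ^ a' * A 1, Polynomial.X ^ b' * A 2] : Fin 3 → SS)
        (PP J) = subs A (aeval (sb a' b') (PP J)) := by
      rw [← AlgHom.comp_apply, comp_aeval]
      congr 2
      funext i
      fin_cases i
      · simp [sb, subs_C]
      · simp [sb, subs_C, subs_X]
        ring
      · simp [sb, subs_C, subs_X]
        ring
    rw [h3, aeval_smul_of_hom (PP_hom J), h4, hT, map_mul, map_pow, subs_X]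
    simp only [sb, Matrix.cons_val_zero]
    rw [← pow_mul, pow_add, pow_add]
    ring
  · rw [Polynomial.mul_coeff_zero, Polynomial.mul_coeff_zero, Polynomial.coeff_C_zero]
    congr 1
    have h5 : ∀ T : SS, (subs A T).coeff 0 = aeval (fun i => (A i).coeff 0) (T.coeff 0) := by
      intro T
      conv_lhs => rw [← Polynomial.divX_mul_X_add T]
      rw [map_add, map_mul, subs_X, subs_C, Polynomial.coeff_add, Polynomial.mul_coeff_zero,
        Polynomial.coeff_X_zero, mul_zero, zero_add, coeff_zero_aevalS]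
    exact h5 T

/-- singular points of a product with a factor which does not vanish -/
theorem Sg_mul {m g : P3} {r : V3} (hm : eval r m ≠ 0) (h : Sg (m * g) r) : Sg g r := by
  obtain ⟨h0, h1⟩ := h
  have h2 : eval r g = 0 := by
    rw [map_mul] at h0
    exact (mul_eq_zero.1 h0).resolve_left hm
  refine ⟨h2, fun i => ?_⟩
  have h3 := h1 i
  rw [pderiv_mul, map_add, map_mul, map_mul, h2, mul_zero, zero_add] at h3
  exact (mul_eq_zero.1 h3).resolve_left hm

/-- singular points of a pull back -/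
theorem Sg_aeval {E : Fin 3 → P3} {φ : P3} {r : V3} (h : Sg (aeval E φ) r)
    (hE : ∀ u : Fin 3 → ℂ, (∀ j, ∑ i, u i * eval r (pderiv j (E i)) = 0) → ∀ i, u i = 0) :
    Sg φ (fun i => eval r (E i)) := by
  obtain ⟨h0, h1⟩ := h
  rw [crv_eval_aeval] at h0
  refine ⟨h0, hE _ fun j => ?_⟩
  have h2 := h1 j
  rw [pderiv_aeval, map_sum] at h2
  simp only [map_mul, crv_eval_aeval] at h2
  exact h2

theorem sing_step1 {φ : P3} (hφ : ∀ r : V3, r 0 ≠ 0 → r 1 ≠ 0 → r 2 ≠ 0 → ¬ Sg φ r) (r : V3)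
    (h0 : r 0 ≠ 0) (h1 : r 1 ≠ 0) (h2 : r 2 ≠ 0) :
    ¬ Sg (X 0 * (C (-1 / 4) * X 1 ^ 2) * aeval (![C (1 / 2) * (X 0 ^ 2 * X 1 ^ 2),
      C 2 * (X 0 ^ 2 * (X 1 * X 2)), C (1 / 8) * X 1 ^ 4] : Fin 3 → P3) φ) r := by
  intro h
  have h3 := Sg_mul (by
    simp only [map_mul, map_pow, eval_X, eval_C]
    exact mul_ne_zero h0 (mul_ne_zero (by norm_num) (pow_ne_zero 2 h1))) h
  have h4 := Sg_aeval h3 (by
    intro u hu
    have e0 := hu 0
    have e1 := hu 1
    have e2 := hu 2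
    simp only [Fin.sum_univ_three, Matrix.cons_val_zero, Matrix.cons_val_one, Matrix.cons_val,
      pderiv_mul, pderiv_pow, pderiv_C, pderiv_X, map_add, map_mul, map_pow, eval_X, eval_C,
      map_natCast, map_zero] at e0 e1 e2
    simp at e0 e1 e2
    have hu1 : u 1 = 0 := by
      rcases e2 with e2 | e2 | e2
      · exact e2
      · exact absurd e2 h0
      · exact absurd e2 h1
    have hu0 : u 0 = 0 := by
      have h5 : (r 0 * r 1 ^ 2) * u 0 = 0 := by
        rw [hu1] at e0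
        linear_combination e0
      exact (mul_eq_zero.1 h5).resolve_left (mul_ne_zero h0 (pow_ne_zero 2 h1))
    have hu2 : u 2 = 0 := by
      have h5 : (r 1 ^ 3) * u 2 = 0 := by
        rw [hu1, hu0] at e1
        linear_combination 2 * e1
      exact (mul_eq_zero.1 h5).resolve_left (pow_ne_zero 3 h1)
    intro i
    fin_cases i
    · exact hu0
    · exact hu1
    · exact hu2)
  refine hφ _ ?_ ?_ ?_ h4
  · simp [h0, h1]
  · simp [h0, h1, h2]
  · simp [h1]

theorem sing_step2 {φ : P3} (hφ : ∀ r : V3, r 0 ≠ 0 → r 1 ≠ 0 → r 2 ≠ 0 → ¬ Sg φ r) (r : V3)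
    (h0 : r 0 ≠ 0) (h1 : r 1 ≠ 0) (h2 : r 2 ≠ 0) :
    ¬ Sg (X 0 * (C (1 / 4) * X 2 ^ 2) * aeval (![C (1 / 2) * (X 0 ^ 2 * X 2 ^ 2),
      C 2 * (X 0 ^ 2 * (X 1 * X 2)), C (1 / 8) * X 2 ^ 4] : Fin 3 → P3) φ) r := by
  intro h
  have h3 := Sg_mul (by
    simp only [map_mul, map_pow, eval_X, eval_C]
    exact mul_ne_zero h0 (mul_ne_zero (by norm_num) (pow_ne_zero 2 h2))) h
  have h4 := Sg_aeval h3 (by
    intro u hu
    have e0 := hu 0
    have e1 := hu 1
    have e2 := hu 2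
    simp only [Fin.sum_univ_three, Matrix.cons_val_zero, Matrix.cons_val_one, Matrix.cons_val,
      pderiv_mul, pderiv_pow, pderiv_C, pderiv_X, map_add, map_mul, map_pow, eval_X, eval_C,
      map_natCast, map_zero] at e0 e1 e2
    simp at e0 e1 e2
    have hu1 : u 1 = 0 := by
      rcases e1 with e1 | e1 | e1
      · exact e1
      · exact absurd e1 h0
      · exact absurd e1 h2
    have hu0 : u 0 = 0 := by
      have h5 : (r 0 * r 2 ^ 2) * u 0 = 0 := by
        rw [hu1] at e0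
        linear_combination e0
      exact (mul_eq_zero.1 h5).resolve_left (mul_ne_zero h0 (pow_ne_zero 2 h2))
    have hu2 : u 2 = 0 := by
      have h5 : (r 2 ^ 3) * u 2 = 0 := by
        rw [hu1, hu0] at e2
        linear_combination 2 * e2
      exact (mul_eq_zero.1 h5).resolve_left (pow_ne_zero 3 h2)
    intro i
    fin_cases i
    · exact hu0
    · exact hu1
    · exact hu2)
  refine hφ _ ?_ ?_ ?_ h4
  · simp [h0, h2]
  · simp [h0, h1, h2]
  · simp [h2]

/-- the case of equal weights -/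
theorem sing_step3 (J : ℕ) (r : V3) (h0 : r 0 ≠ 0) (h1 : r 1 ≠ 0) (h2 : r 2 ≠ 0) :
    ¬ Sg (X 0 * (C (1 / 4) * (X 2 ^ 2 - X 1 ^ 2)) *
      aeval (![C (1 / 2) * (X 0 ^ 2 * (X 1 ^ 2 + X 2 ^ 2)), X 0 ^ 2 * (X 1 * X 2),
        - (X 0 ^ 2 * (X 1 * X 2))] : Fin 3 → P3) (crv J)) r := by
  intro h
  set g : P3 := aeval (![C (1 / 2) * (X 0 ^ 2 * (X 1 ^ 2 + X 2 ^ 2)), X 0 ^ 2 * (X 1 * X 2),
        - (X 0 ^ 2 * (X 1 * X 2))] : Fin 3 → P3) (crv J) with hg
  have hw : r 0 ^ 2 * (r 1 * r 2) ≠ 0 := mul_ne_zero (pow_ne_zero 2 h0) (mul_ne_zero h1 h2)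
  have hv : (fun i => eval r ((![C (1 / 2) * (X 0 ^ 2 * (X 1 ^ 2 + X 2 ^ 2)),
      X 0 ^ 2 * (X 1 * X 2), - (X 0 ^ 2 * (X 1 * X 2))] : Fin 3 → P3) i)) =
      (r 0 ^ 2 * (r 1 * r 2)) • (![(r 1 ^ 2 + r 2 ^ 2) / (2 * (r 1 * r 2)), 1, -1] : V3) := by
    funext i
    fin_cases i
    · simp
      field_simp
    · simp
    · simp
  by_cases hq : r 2 ^ 2 - r 1 ^ 2 = 0
  · have h3 : eval r g ≠ 0 := by
      rw [hg, crv_eval_aeval, hv, crv_eval_smul (crv_hom J)]
      refine mul_ne_zero (pow_ne_zero _ hw) (crv_unit J _ _ _ ?_ (by norm_num) (by norm_num))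
      have h5 : r 2 ^ 2 = r 1 ^ 2 := sub_eq_zero.1 hq
      rw [div_pow, div_eq_one_iff_eq (pow_ne_zero 2 (mul_ne_zero two_ne_zero
        (mul_ne_zero h1 h2)))]
      have h6 : (2 * (r 1 * r 2)) ^ 2 = 4 * (r 1 ^ 2 * r 2 ^ 2) := by ring
      rw [h6, h5]
      ring
    have h4 : eval r (pderiv 2 (X 0 * (C (1 / 4) * (X 2 ^ 2 - X 1 ^ 2)) : P3)) * eval r g +
        eval r (X 0 * (C (1 / 4) * (X 2 ^ 2 - X 1 ^ 2)) : P3) * eval r (pderiv 2 g) = 0 := by
      rw [← map_mul, ← map_mul, ← map_add, ← pderiv_mul]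
      exact h.2 2
    have h5 : eval r (X 0 * (C (1 / 4) * (X 2 ^ 2 - X 1 ^ 2)) : P3) = 0 := by
      simp [hq]
    have h6 : eval r (pderiv 2 (X 0 * (C (1 / 4) * (X 2 ^ 2 - X 1 ^ 2)) : P3)) =
        r 0 * r 2 / 2 := by
      simp [pderiv_X]
      ring
    rw [h5, zero_mul, add_zero, h6] at h4
    exact (mul_ne_zero (div_ne_zero (mul_ne_zero h0 h2) two_ne_zero) h3) h4
  · have h3 := Sg_mul (by
      simp only [map_mul, map_pow, eval_X, eval_C, map_sub]
      exact mul_ne_zero h0 (mul_ne_zero (by norm_num) hq)) h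
    obtain ⟨h4, h5⟩ := h3
    have e1 := h5 1
    have e2 := h5 2
    rw [hg] at h4 e1 e2
    rw [crv_eval_aeval, hv, crv_eval_smul (crv_hom J)] at h4
    have h6 := (mul_eq_zero.1 h4).resolve_left (pow_ne_zero _ hw)
    rw [pderiv_aeval, map_sum] at e1 e2
    simp only [map_mul, crv_eval_aeval, hv] at e1 e2
    simp only [crv_eval_smul (crv_hom J).pderiv] at e1 e2
    simp only [Fin.sum_univ_three, Matrix.cons_val_zero, Matrix.cons_val_one, Matrix.cons_val,
      pderiv_mul, pderiv_pow, pderiv_C, pderiv_X, map_add, map_mul, map_pow, eval_X, eval_C,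
      map_natCast, map_zero] at e1 e2
    simp at e1 e2
    refine crv_cheb J _ ⟨h6, ?_⟩
    have h7 : ((r 0 ^ 2 * (r 1 * r 2)) ^ (4 ^ J - 1 - 1) * (r 0 ^ 2 * (r 2 ^ 2 - r 1 ^ 2))) *
        eval ![(r 1 ^ 2 + r 2 ^ 2) / (2 * (r 1 * r 2)), 1, -1] (pderiv 0 (crv J)) = 0 := by
      linear_combination r 2 * e2 - r 1 * e1
    exact (mul_eq_zero.1 h7).resolve_left (mul_ne_zero (pow_ne_zero _ hw)
      (mul_ne_zero (pow_ne_zero 2 h0) hq))

theorem hh_zero (k b : ℕ) : hh k 0 b = 0 := by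
  simp [hh]

theorem hh_one (a b : ℕ) : hh 1 a b = 0 := by
  simp [hh]

theorem PP_zero : PP 0 = 1 := by
  simp [PP, crv]

theorem Wt_trivial (J b : ℕ) (hb : 1 ≤ b) :
    Wt J 0 b 0 (aeval ![X 0, X 1, 0] (PP J)) := by
  refine ⟨aeval (sb 0 b) (PP J), by simp, ?_⟩
  rw [coeff_zero_aevalS]
  congr 2
  funext i
  fin_cases i
  · simp [sb]
  · simp [sb]
  · have : b ≠ 0 := by omega
    simp [sb, Polynomial.coeff_X_pow, this.symm]

theorem hom_step {J : ℕ} {m φ : P3} {E : Fin 3 → P3} (hm : m.IsHomogeneous 3)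
    (hE : ∀ i, (E i).IsHomogeneous 4) (hφ : φ.IsHomogeneous (4 ^ J - 1)) :
    (m * aeval E φ).IsHomogeneous (4 ^ (J + 1) - 1) := by
  have h1 := hm.mul (hφ.aeval E hE)
  have h2 : 4 ^ (J + 1) - 1 = 3 + 4 * (4 ^ J - 1) := by
    have : 1 ≤ 4 ^ J := Nat.one_le_pow _ _ (by norm_num)
    rw [pow_succ]
    omega
  rw [h2]
  exact h1

theorem weight_step (J a : ℕ) (h : ℕ) :
    2 * a + 2 * a * (4 ^ J - 1) + h = 2 * a * (2 ^ J) ^ 2 + h := by
  have h1 : (2 ^ J) ^ 2 = 4 ^ J := by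
    rw [← pow_mul, mul_comm J 2, pow_mul]
    norm_num
  rw [h1]
  obtain ⟨n, hn⟩ : ∃ n, 4 ^ J = n + 1 := ⟨4 ^ J - 1, by
    have : 1 ≤ 4 ^ J := Nat.one_le_pow _ _ (by norm_num)
    omega⟩
  rw [hn, Nat.add_sub_cancel]
  ring

theorem hom_const (c : ℂ) {φ : P3} {n : ℕ} (h : φ.IsHomogeneous n) :
    (C c * φ).IsHomogeneous n := by
  have := (isHomogeneous_C (Fin 3) c).mul h
  rwa [zero_add] at this

theorem hom_XX : (X 0 ^ 2 * (X 1 * X 2) : P3).IsHomogeneous 4 := by
  have h0 : ∀ j : Fin 3, (X j : P3).IsHomogeneous 1 := fun j => isHomogeneous_X ℂ j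
  exact ((h0 0).pow 2).mul ((h0 1).mul (h0 2))

/-- initial forms: the case `a < b` -/
theorem claim_lt {J a e : ℕ} (ha : 1 ≤ a) (he : 1 ≤ e) {φ : P3}
    (h1 : Wt J e (2 * a) (hh (2 ^ J) e (2 * a)) φ) (h2 : φ.IsHomogeneous (4 ^ J - 1))
    (h3 : ∀ r : V3, r 0 ≠ 0 → r 1 ≠ 0 → r 2 ≠ 0 → ¬ Sg φ r) :
    ∃ ψ, Wt (J + 1) a (a + e) (hh (2 ^ (J + 1)) a (a + e)) ψ ∧
      ψ.IsHomogeneous (4 ^ (J + 1) - 1) ∧
      ∀ r : V3, r 0 ≠ 0 → r 1 ≠ 0 → r 2 ≠ 0 → ¬ Sg ψ r := by
  have h0 : ∀ j : Fin 3, (X j : P3).IsHomogeneous 1 := fun j => isHomogeneous_X ℂ j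
  refine ⟨X 0 * (C (-1 / 4) * X 1 ^ 2) * aeval (![C (1 / 2) * (X 0 ^ 2 * X 1 ^ 2),
      C 2 * (X 0 ^ 2 * (X 1 * X 2)), C (1 / 8) * X 1 ^ 4] : Fin 3 → P3) φ, ?_, ?_,
      sing_step1 h3⟩
  · have h4 := Wt_succ (a := a) (b := a + e) (c := 2 * a) h1
      (Polynomial.C (C (1 / 4)) * (Polynomial.X ^ (2 * e) * Polynomial.C (X 2) ^ 2 -
        Polynomial.C (X 1) ^ 2))
      ![Polynomial.C (C (1 / 2)) * (Polynomial.C (X 0) ^ 2 * (Polynomial.C (X 1) ^ 2 +
          Polynomial.X ^ (2 * e) * Polynomial.C (X 2) ^ 2)) - Polynomial.C (C (1 / 16)) *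
          (Polynomial.X ^ (2 * a) * (Polynomial.X ^ (2 * e) * Polynomial.C (X 2) ^ 2 -
            Polynomial.C (X 1) ^ 2) ^ 2),
        Polynomial.C (C 2) * (Polynomial.C (X 0) ^ 2 * (Polynomial.C (X 1) * Polynomial.C (X 2))),
        Polynomial.C (C (1 / 8)) * (Polynomial.X ^ (2 * e) * Polynomial.C (X 2) ^ 2 -
          Polynomial.C (X 1) ^ 2) ^ 2]
      (by
        simp [sb, Polynomial.algebraMap_apply]
        ring)
      (by
        simp [sb, DD, Polynomial.algebraMap_apply]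
        ring)
      (by
        simp [sb, DD, Polynomial.algebraMap_apply]
        ring)
      (by
        simp [sb, DD, Polynomial.algebraMap_apply]
        ring)
    rw [weight_step] at h4
    rw [pow_succ', hh_double (2 ^ J) a (a + e) (Nat.one_le_pow _ _ (by norm_num)) (by omega),
      Nat.add_sub_cancel_left]
    convert h4 using 1
    have ha' : a ≠ 0 := by omega
    have he' : e ≠ 0 := by omega
    congr 1
    · rw [Polynomial.coeff_zero_eq_eval_zero]
      have h6 : (C (-1 / 4) : P3) = - C (1 / 4) := by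
        rw [← C_neg]
        norm_num
      simp [he', h6]
    · congr 2
      funext i
      fin_cases i
      · simp [Polynomial.coeff_zero_eq_eval_zero, ha', he']
      · simp [Polynomial.coeff_zero_eq_eval_zero]
      · simp [Polynomial.coeff_zero_eq_eval_zero, he']
        ring
  · refine hom_step ?_ ?_ h2
    · exact (h0 0).mul (hom_const _ ((h0 1).pow 2))
    · intro i
      fin_cases i
      · exact hom_const _ (((h0 0).pow 2).mul ((h0 1).pow 2))
      · exact hom_const _ hom_XX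
      · exact hom_const _ ((h0 1).pow 4)

/-- initial forms: the case `b < a` -/
theorem claim_gt {J b e : ℕ} (hb : 1 ≤ b) (he : 1 ≤ e) {φ : P3}
    (h1 : Wt J e (2 * b) (hh (2 ^ J) e (2 * b)) φ) (h2 : φ.IsHomogeneous (4 ^ J - 1))
    (h3 : ∀ r : V3, r 0 ≠ 0 → r 1 ≠ 0 → r 2 ≠ 0 → ¬ Sg φ r) :
    ∃ ψ, Wt (J + 1) (b + e) b (hh (2 ^ (J + 1)) (b + e) b) ψ ∧
      ψ.IsHomogeneous (4 ^ (J + 1) - 1) ∧
      ∀ r : V3, r 0 ≠ 0 → r 1 ≠ 0 → r 2 ≠ 0 → ¬ Sg ψ r := by
  have h0 : ∀ j : Fin 3, (X j : P3).IsHomogeneous 1 := fun j => isHomogeneous_X ℂ j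
  refine ⟨X 0 * (C (1 / 4) * X 2 ^ 2) * aeval (![C (1 / 2) * (X 0 ^ 2 * X 2 ^ 2),
      C 2 * (X 0 ^ 2 * (X 1 * X 2)), C (1 / 8) * X 2 ^ 4] : Fin 3 → P3) φ, ?_, ?_,
      sing_step2 h3⟩
  · have h4 := Wt_succ (a := b + e) (b := b) (c := 2 * b) h1
      (Polynomial.C (C (1 / 4)) * (Polynomial.C (X 2) ^ 2 -
        Polynomial.X ^ (2 * e) * Polynomial.C (X 1) ^ 2))
      ![Polynomial.C (C (1 / 2)) * (Polynomial.C (X 0) ^ 2 * (Polynomial.X ^ (2 * e) *
          Polynomial.C (X 1) ^ 2 + Polynomial.C (X 2) ^ 2)) - Polynomial.C (C (1 / 16)) *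
          (Polynomial.X ^ (2 * b) * (Polynomial.C (X 2) ^ 2 -
            Polynomial.X ^ (2 * e) * Polynomial.C (X 1) ^ 2) ^ 2),
        Polynomial.C (C 2) * (Polynomial.C (X 0) ^ 2 * (Polynomial.C (X 1) * Polynomial.C (X 2))),
        Polynomial.C (C (1 / 8)) * (Polynomial.C (X 2) ^ 2 -
          Polynomial.X ^ (2 * e) * Polynomial.C (X 1) ^ 2) ^ 2]
      (by
        simp [sb, Polynomial.algebraMap_apply]
        ring)
      (by
        simp [sb, DD, Polynomial.algebraMap_apply]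
        ring)
      (by
        simp [sb, DD, Polynomial.algebraMap_apply]
        ring)
      (by
        simp [sb, DD, Polynomial.algebraMap_apply]
        ring)
    rw [weight_step] at h4
    rw [hh_symm, pow_succ', hh_double (2 ^ J) b (b + e) (Nat.one_le_pow _ _ (by norm_num))
      (by omega), Nat.add_sub_cancel_left]
    convert h4 using 1
    have hb' : b ≠ 0 := by omega
    have he' : e ≠ 0 := by omega
    congr 1
    · rw [Polynomial.coeff_zero_eq_eval_zero]
      simp [he']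
    · congr 2
      funext i
      fin_cases i
      · simp [Polynomial.coeff_zero_eq_eval_zero, hb', he']
      · simp [Polynomial.coeff_zero_eq_eval_zero]
      · simp [Polynomial.coeff_zero_eq_eval_zero, he']
        ring
  · refine hom_step ?_ ?_ h2
    · exact (h0 0).mul (hom_const _ ((h0 2).pow 2))
    · intro i
      fin_cases i
      · exact hom_const _ (((h0 0).pow 2).mul ((h0 2).pow 2))
      · exact hom_const _ hom_XX
      · exact hom_const _ ((h0 2).pow 4)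

/-- initial forms: the case `a = b` -/
theorem claim_eq {J a : ℕ} (ha : 1 ≤ a) :
    ∃ ψ, Wt (J + 1) a a (hh (2 ^ (J + 1)) a a) ψ ∧
      ψ.IsHomogeneous (4 ^ (J + 1) - 1) ∧
      ∀ r : V3, r 0 ≠ 0 → r 1 ≠ 0 → r 2 ≠ 0 → ¬ Sg ψ r := by
  have h0 : ∀ j : Fin 3, (X j : P3).IsHomogeneous 1 := fun j => isHomogeneous_X ℂ j
  refine ⟨X 0 * (C (1 / 4) * (X 2 ^ 2 - X 1 ^ 2)) *
      aeval (![C (1 / 2) * (X 0 ^ 2 * (X 1 ^ 2 + X 2 ^ 2)), X 0 ^ 2 * (X 1 * X 2),
        - (X 0 ^ 2 * (X 1 * X 2))] : Fin 3 → P3) (crv J), ?_, ?_, sing_step3 J⟩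
  · have h4 := Wt_succ (a := a) (b := a) (c := 2 * a) (Wt_trivial J (2 * a) (by omega))
      (Polynomial.C (C (1 / 4)) * (Polynomial.C (X 2) ^ 2 - Polynomial.C (X 1) ^ 2))
      ![Polynomial.C (C (1 / 2)) * (Polynomial.C (X 0) ^ 2 * (
          Polynomial.C (X 1) ^ 2 + Polynomial.C (X 2) ^ 2)) - Polynomial.C (C (1 / 16)) *
          (Polynomial.X ^ (2 * a) * (Polynomial.C (X 2) ^ 2 - Polynomial.C (X 1) ^ 2) ^ 2),
        Polynomial.C (C 2) * (Polynomial.C (X 0) ^ 2 * (Polynomial.C (X 1) * Polynomial.C (X 2))),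
        Polynomial.C (C (1 / 8)) * (Polynomial.C (X 2) ^ 2 - Polynomial.C (X 1) ^ 2) ^ 2]
      (by
        simp [sb, Polynomial.algebraMap_apply]
        ring)
      (by
        simp [sb, DD, Polynomial.algebraMap_apply]
        ring)
      (by
        simp [sb, DD, Polynomial.algebraMap_apply]
        ring)
      (by
        simp [sb, DD, Polynomial.algebraMap_apply]
        ring)
    rw [weight_step] at h4
    rw [pow_succ', hh_double (2 ^ J) a a (Nat.one_le_pow _ _ (by norm_num)) le_rfl,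
      Nat.sub_self, hh_zero]
    convert h4 using 1
    have ha' : a ≠ 0 := by omega
    congr 1
    · rw [Polynomial.coeff_zero_eq_eval_zero]
      simp
    · rw [PP, ← AlgHom.comp_apply, ← AlgHom.comp_apply, comp_aeval, comp_aeval]
      congr 2
      funext i
      have h5 : (C (2⁻¹) * C 2 : P3) = 1 := by
        rw [← C_mul]
        norm_num
      fin_cases i
      · simp [Polynomial.coeff_zero_eq_eval_zero, ha']
      · simp [Polynomial.coeff_zero_eq_eval_zero]
        linear_combination (- (X 0 ^ 2 * (X 1 * X 2)) : P3) * h5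
      · simp [Polynomial.coeff_zero_eq_eval_zero]
        linear_combination (- (X 0 ^ 2 * (X 1 * X 2)) : P3) * h5
  · refine hom_step ?_ ?_ (crv_hom J)
    · exact (h0 0).mul (hom_const _ (((h0 2).pow 2).sub ((h0 1).pow 2)))
    · intro i
      fin_cases i
      · exact hom_const _ (((h0 0).pow 2).mul (((h0 1).pow 2).add ((h0 2).pow 2)))
      · exact hom_XX
      · exact hom_XX.neg

/-- the initial forms of the curves -/
theorem claim (J : ℕ) : ∀ a b : ℕ, 1 ≤ a → 1 ≤ b →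
    ∃ φ, Wt J a b (hh (2 ^ J) a b) φ ∧ φ.IsHomogeneous (4 ^ J - 1) ∧
      ∀ r : V3, r 0 ≠ 0 → r 1 ≠ 0 → r 2 ≠ 0 → ¬ Sg φ r := by
  induction J with
  | zero =>
    intro a b _ _
    refine ⟨1, ⟨1, ?_, ?_⟩, isHomogeneous_one _ _, ?_⟩
    · rw [PP_zero, pow_zero, hh_one, map_one, pow_zero, one_mul]
    · simp
    · intro r _ _ _ h
      have := h.1
      rw [map_one] at this
      exact one_ne_zero this
  | succ J ih =>
    intro a b ha hb
    rcases lt_trichotomy a b with h | h | h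
    · obtain ⟨e, rfl⟩ : ∃ e, b = a + e := ⟨b - a, by omega⟩
      obtain ⟨φ, h1, h2, h3⟩ := ih e (2 * a) (by omega) (by omega)
      exact claim_lt ha (by omega) h1 h2 h3
    · subst h
      exact claim_eq ha
    · obtain ⟨e, rfl⟩ : ∃ e, a = b + e := ⟨a - b, by omega⟩
      obtain ⟨φ, h1, h2, h3⟩ := ih e (2 * b) (by omega) (by omega)
      exact claim_gt hb (by omega) h1 h2 h3

/-- `x = 1` -/
noncomputable def pr : P3 →ₐ[ℂ] P2 := aeval ![1, X 0, X 1]

theorem pr_PP (J : ℕ) : pr (PP J) = aeval rho0 (crv J) := by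
  rw [PP, pr, ← AlgHom.comp_apply, comp_aeval]
  congr 2
  funext i
  fin_cases i
  · simp [rho0]
  · simp [rho0]
  · simp [rho0]

/-- the scaling of two variables -/
noncomputable def sc (a b : ℕ) : P2 →ₐ[ℂ] Polynomial P2 :=
  aeval ![Polynomial.X ^ a * Polynomial.C (X 0), Polynomial.X ^ b * Polynomial.C (X 1)]

theorem sc_pr (a b : ℕ) (F : P3) :
    sc a b (pr F) = Polynomial.map pr.toRingHom (aeval (sb a b) F) := by
  have h : (sc a b).comp pr = (Polynomial.mapAlgHom pr).comp (aeval (sb a b)) := by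
    apply MvPolynomial.algHom_ext
    intro n
    fin_cases n
    · simp [pr, sb]
    · simp [pr, sb, sc]
    · simp [pr, sb, sc]
  exact DFunLike.congr_fun h F

theorem sc_eq (a b : ℕ) (G : P2) :
    sc a b G = ∑ s ∈ G.support, Polynomial.monomial (a * s 0 + b * s 1) (monomial s (coeff s G)) := by
  conv_lhs => rw [G.as_sum]
  rw [map_sum]
  refine Finset.sum_congr rfl fun s _ => ?_
  rw [sc, aeval_monomial, Finsupp.prod_fintype _ _ (by simp), Fin.prod_univ_two,
    ← Polynomial.C_mul_X_pow_eq_monomial, monomial_eq, Finsupp.prod_fintype _ _ (by simp),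
    Fin.prod_univ_two]
  simp only [Matrix.cons_val_zero, Matrix.cons_val_one, mul_pow, ← pow_mul, map_mul, map_pow,
    Polynomial.algebraMap_apply, algebraMap_eq]
  ring

theorem coeff_sc (a b t : ℕ) (G : P2) : (sc a b G).coeff t = face a b t G := by
  rw [sc_eq, Polynomial.finsetSum_coeff, face, Finset.sum_filter]
  refine Finset.sum_congr rfl fun s _ => ?_
  rw [Polynomial.coeff_monomial]

theorem coeff_face (a b : ℕ) (G : P2) (s : Fin 2 →₀ ℕ) :
    coeff s (face a b (a * s 0 + b * s 1) G) = coeff s G := by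
  rw [face, coeff_sum, Finset.sum_eq_single s]
  · rw [coeff_monomial, if_pos rfl]
  · intro t _ ht
    rw [coeff_monomial, if_neg ht]
  · intro h
    rw [Finset.mem_filter, not_and] at h
    rw [coeff_monomial, if_pos rfl]
    by_contra h'
    exact h (mem_support_iff.2 h') rfl

theorem good_crv (J : ℕ) : Good (2 ^ J) (aeval rho0 (crv J)) := by
  intro a b ha hb
  obtain ⟨φ, ⟨T, hT, hφ⟩, hhom, hsg⟩ := claim J a b ha hb
  have h1 : sc a b (aeval rho0 (crv J)) =
      Polynomial.X ^ (hh (2 ^ J) a b) * Polynomial.map pr.toRingHom T := by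
    rw [← pr_PP, sc_pr, hT, Polynomial.map_mul, Polynomial.map_pow, Polynomial.map_X]
  have h2 : face a b (hh (2 ^ J) a b) (aeval rho0 (crv J)) = pr φ := by
    rw [← coeff_sc, h1, Polynomial.coeff_X_pow_mul', if_pos le_rfl, Nat.sub_self,
      Polynomial.coeff_map, hφ]
    rfl
  refine ⟨fun s hs => ?_, ?_⟩
  · by_contra h
    rw [not_le] at h
    rw [mem_support_iff] at hs
    apply hs
    rw [← coeff_face a b, ← coeff_sc, h1, Polynomial.coeff_X_pow_mul', if_neg (not_le.2 h),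
      coeff_zero]
  · intro x y hx hy h
    rw [h2] at h
    obtain ⟨e0, e1, e2⟩ := h
    have h3 : ∀ F : P3, eval ![x, y] (pr F) = eval ![1, x, y] F := by
      intro F
      induction F using MvPolynomial.induction_on with
      | C c => simp
      | add p q hp hq => simp only [map_add, hp, hq]
      | mul_X p n hp =>
        rw [map_mul, map_mul, map_mul, hp]
        congr 1
        fin_cases n
        · simp [pr]
        · simp [pr]
        · simp [pr]
    have h4 : ∀ (F : P3) (i : Fin 2), pderiv i (pr F) = pr (pderiv i.succ F) := by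
      intro F i
      rw [pr, pderiv_aeval, Finset.sum_eq_single i.succ]
      · fin_cases i
        · simp
        · simp
      · intro j _ hj
        fin_cases i <;> fin_cases j <;> simp at hj ⊢
      · simp
    rw [h4, h3] at e1 e2
    rw [h3] at e0
    refine hsg ![1, x, y] one_ne_zero hx hy ⟨e0, ?_⟩
    have h5 := congrArg (eval ![1, x, y]) hhom.sum_X_mul_pderiv
    rw [map_sum] at h5
    simp only [Fin.sum_univ_three, map_mul, eval_X, map_nsmul] at h5
    have e1' : eval ![1, x, y] (pderiv 1 φ) = 0 := e1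
    have e2' : eval ![1, x, y] (pderiv 2 φ) = 0 := e2
    rw [e1', e2', e0, smul_zero, mul_zero, mul_zero, add_zero, add_zero] at h5
    have h6 : eval ![1, x, y] (pderiv 0 φ) = 0 := by
      simpa using h5
    intro i
    fin_cases i
    · exact h6
    · exact e1'
    · exact e2'

end Pool.Agent.Helper90.HC
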