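import Pool.Agent.Helper90.HC.Ord

/-!
# Linear changes of coordinates
-/

open MvPolynomial

namespace Pool.Agent.Helper90.HC

/-- the curve `F ∘ M` -/
noncomputable def lin (M : Matrix (Fin 3) (Fin 3) ℂ) (F : P3) : P3 :=
  aeval (fun i => ∑ j, C (M i j) * X j) F

/-- the parametrisation `M ρ` -/
noncomputable def linPar (M : Matrix (Fin 3) (Fin 3) ℂ) (ρ : Par) : Par :=
  fun i => ∑ j, C (M i j) * ρ j

/-- the vectors of the standard basis -/
def e0 : V3 := ![1, 0, 0]
/-- the vectors of the standard basis -/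
def e1 : V3 := ![0, 1, 0]
/-- the vectors of the standard basis -/
def e2 : V3 := ![0, 0, 1]

lemma aeval_lin {A : Type*} [CommRing A] [Algebra ℂ A] (M : Matrix (Fin 3) (Fin 3) ℂ) (F : P3)
    (v : Fin 3 → A) : aeval v (lin M F) = aeval (fun i => ∑ j, algebraMap ℂ A (M i j) * v j) F := by
  rw [lin, ← AlgHom.comp_apply, comp_aeval]
  congr 2
  funext i
  simp

theorem eval_lin (M : Matrix (Fin 3) (Fin 3) ℂ) (F : P3) (r : V3) :
    eval r (lin M F) = eval (M.mulVec r) F := aeval_lin M F r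

theorem pt_linPar (M : Matrix (Fin 3) (Fin 3) ℂ) (ρ : Par) :
    pt (linPar M ρ) = M.mulVec (pt ρ) := by
  funext i
  simp only [pt, linPar, coeff_sum, coeff_C_mul]
  rfl

theorem dX_linPar (M : Matrix (Fin 3) (Fin 3) ℂ) (ρ : Par) :
    dX (linPar M ρ) = M.mulVec (dX ρ) := by
  funext i
  simp only [dX, linPar, coeff_sum, coeff_C_mul]
  rfl

theorem dY_linPar (M : Matrix (Fin 3) (Fin 3) ℂ) (ρ : Par) :
    dY (linPar M ρ) = M.mulVec (dY ρ) := by
  funext i
  simp only [dY, linPar, coeff_sum, coeff_C_mul]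
  rfl

lemma linPar_linPar (M N : Matrix (Fin 3) (Fin 3) ℂ) (ρ : Par) :
    linPar M (linPar N ρ) = linPar (M * N) ρ := by
  funext i
  simp only [linPar, Matrix.mul_apply, map_sum, C_mul, Finset.sum_mul, Finset.mul_sum]
  rw [Finset.sum_comm]
  refine Finset.sum_congr rfl fun j _ => Finset.sum_congr rfl fun k _ => by ring

lemma linPar_one (ρ : Par) : linPar 1 ρ = ρ := by
  funext i
  simp only [linPar]
  rw [Finset.sum_eq_single i]
  · simp
  · intro j _ hj
    rw [Matrix.one_apply_ne hj.symm, C_0, zero_mul]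
  · simp

lemma aeval_linPar_lin (M N : Matrix (Fin 3) (Fin 3) ℂ) (hMN : M * N = 1) (F : P3) (ρ : Par) :
    aeval (linPar N ρ) (lin M F) = aeval ρ F := by
  rw [aeval_lin]
  have : (fun i => ∑ j, algebraMap ℂ P2 (M i j) * linPar N ρ j) = linPar M (linPar N ρ) := rfl
  rw [this, linPar_linPar, hMN, linPar_one]

lemma lin_lin (M N : Matrix (Fin 3) (Fin 3) ℂ) (F : P3) : lin N (lin M F) = lin (M * N) F := by
  rw [lin, aeval_lin, lin]
  congr 2
  funext i
  simp only [Matrix.mul_apply, map_sum, C_mul, Finset.sum_mul, Finset.mul_sum, algebraMap_eq]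
  rw [Finset.sum_comm]
  refine Finset.sum_congr rfl fun j _ => Finset.sum_congr rfl fun k _ => by ring

lemma lin_one (F : P3) : lin 1 F = F := by
  have : (fun i => ∑ j, C ((1 : Matrix (Fin 3) (Fin 3) ℂ) i j) * X j : Fin 3 → P3) = X := by
    funext i
    rw [Finset.sum_eq_single i]
    · simp
    · intro j _ hj
      rw [Matrix.one_apply_ne hj.symm, C_0, zero_mul]
    · simp
  rw [lin, this, aeval_X_left, AlgHom.id_apply]

lemma ordGe_lin {M N : Matrix (Fin 3) (Fin 3) ℂ} (hMN : M * N = 1) {F : P3} {m : ℕ} {s : V3}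
    (h : OrdGe m (tr s F)) : OrdGe m (tr (N.mulVec s) (lin M F)) := by
  have h1 : tr (N.mulVec s) (lin M F) =
      aeval (fun i => ∑ j, C (M i j) * X j : Fin 3 → P3) (tr s F) := by
    rw [tr, aeval_lin, tr, ← AlgHom.comp_apply, comp_aeval]
    congr 2
    funext i
    simp only [map_add, algHom_C, aeval_X, algebraMap_eq, mul_add, Finset.sum_add_distrib]
    congr 1
    simp only [← C_mul, ← map_sum]
    congr 1
    have h2 : M.mulVec (N.mulVec s) i = s i := by
      rw [Matrix.mulVec_mulVec, hMN, Matrix.one_mulVec]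
    exact h2
  rw [h1]
  refine h.aeval _ fun i => ?_
  simp [coeff_sum]

/-- invariance of the states under linear changes of coordinates -/
theorem St.lin {d : ℕ} {F : P3} {D : List (V3 × ℕ)} {A : List Act} (h : St d F D A)
    (M N : Matrix (Fin 3) (Fin 3) ℂ) (hMN : M * N = 1) (hNM : N * M = 1) :
    St d (lin M F) (D.map fun s => (N.mulVec s.1, s.2))
      (A.map fun a => ⟨linPar N a.ρ, a.G, a.N, a.Q⟩) := by
  have hpts : pts (D.map fun s => (N.mulVec s.1, s.2))
      (A.map fun a => ⟨linPar N a.ρ, a.G, a.N, a.Q⟩) = (pts D A).map N.mulVec := by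
    simp only [pts, List.map_append, List.map_map]
    congr 1
    apply List.map_congr_left
    intro b _
    exact pt_linPar N b.ρ
  have hMNv : ∀ v : V3, M.mulVec (N.mulVec v) = v := fun v => by
    rw [Matrix.mulVec_mulVec, hMN, Matrix.one_mulVec]
  have hNMv : ∀ v : V3, N.mulVec (M.mulVec v) = v := fun v => by
    rw [Matrix.mulVec_mulVec, hNM, Matrix.one_mulVec]
  refine ⟨?_, ?_, ?_, ?_, ?_, ?_⟩
  · intro h0
    apply h.ne
    have h1 := lin_lin M N F
    rw [hMN, lin_one, h0] at h1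
    rw [← h1, HC.lin, map_zero]
  · have h1 := h.hom.aeval (fun i => ∑ j, C (M i j) * X j : Fin 3 → P3) (n := 1)
      (fun i => IsHomogeneous.sum _ _ _ fun j _ => by
        have := (isHomogeneous_C (Fin 3) (M i j)).mul (isHomogeneous_X ℂ j)
        rwa [zero_add] at this)
    rwa [one_mul] at h1
  · intro b hb
    obtain ⟨a, ha, rfl⟩ := List.mem_map.1 hb
    obtain ⟨k1, k2, k3⟩ := h.act a ha
    refine ⟨?_, ?_, k3⟩
    · unfold Etale at k1 ⊢
      simp only [pt_linPar, dX_linPar, dY_linPar]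
      have h1 : Matrix.of ![N.mulVec (pt a.ρ), N.mulVec (dX a.ρ), N.mulVec (dY a.ρ)] =
          Matrix.of ![pt a.ρ, dX a.ρ, dY a.ρ] * N.transpose := by
        ext i j
        rw [Matrix.mul_apply]
        simp only [Matrix.transpose_apply]
        fin_cases i
        · show ∑ k, N j k * pt a.ρ k = ∑ k, pt a.ρ k * N j k
          exact Finset.sum_congr rfl fun k _ => mul_comm _ _
        · show ∑ k, N j k * dX a.ρ k = ∑ k, dX a.ρ k * N j k
          exact Finset.sum_congr rfl fun k _ => mul_comm _ _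
        · show ∑ k, N j k * dY a.ρ k = ∑ k, dY a.ρ k * N j k
          exact Finset.sum_congr rfl fun k _ => mul_comm _ _
      rw [h1, Matrix.det_mul, Matrix.det_transpose]
      refine mul_ne_zero k1 fun h0 => ?_
      have h2 := congrArg Matrix.det hMN
      rw [Matrix.det_mul, h0, mul_zero, Matrix.det_one] at h2
      exact zero_ne_one h2
    · obtain ⟨U, hU, hl⟩ := k2
      refine ⟨U, hU, ?_⟩
      rw [aeval_linPar_lin M N hMN]
      exact hl
  · intro s hs
    obtain ⟨s', hs', rfl⟩ := List.mem_map.1 hs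
    obtain ⟨k1, k2⟩ := h.don s' hs'
    refine ⟨fun h0 => k1 ?_, ordGe_lin hMN k2⟩
    rw [← hMNv s'.1]
    simp only at h0
    rw [h0, Matrix.mulVec_zero]
  · rw [hpts, List.pairwise_map]
    refine h.dis.imp fun {r s} hrs hp => hrs ?_
    obtain ⟨c, hc, hp⟩ := hp
    refine ⟨c, hc, ?_⟩
    rw [← hMNv s, hp, Matrix.mulVec_smul, hMNv]
  · intro r hr hs
    have h1 : Sg F (M.mulVec r) := by
      rw [sg_iff] at hs ⊢
      have h2 := ordGe_lin hNM hs
      rwa [lin_lin, hMN, lin_one] at h2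
    obtain ⟨s, hs1, c, hc, hs2⟩ := h.sing (M.mulVec r) (fun h0 => hr (by
      rw [← hNMv r, h0, Matrix.mulVec_zero])) h1
    rw [hpts]
    refine ⟨N.mulVec s, List.mem_map_of_mem hs1, c, hc, ?_⟩
    rw [← Matrix.mulVec_smul, ← hs2, hNMv]

/-! ### General position -/

/-- the cross product -/
def crs (a b : V3) : V3 :=
  ![a 1 * b 2 - a 2 * b 1, a 2 * b 0 - a 0 * b 2, a 0 * b 1 - a 1 * b 0]

/-- the dot product -/
def dot (a b : V3) : ℂ := a 0 * b 0 + a 1 * b 1 + a 2 * b 2

lemma crs_ne {a b : V3} (ha : a ≠ 0) (hb : b ≠ 0) (h : ¬ Prl a b) : crs a b ≠ 0 := by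
  intro h0
  apply h
  have z0 : a 1 * b 2 - a 2 * b 1 = 0 := congrFun h0 0
  have z1 : a 2 * b 0 - a 0 * b 2 = 0 := congrFun h0 1
  have z2 : a 0 * b 1 - a 1 * b 0 = 0 := congrFun h0 2
  obtain ⟨i, hi⟩ := Function.ne_iff.1 ha
  simp only [Pi.zero_apply] at hi
  have key : ∀ j, a i * b j = b i * a j := by
    intro j
    fin_cases i <;> fin_cases j <;> simp only [Fin.zero_eta, Fin.mk_one, Fin.reduceFinMk] at * <;>
      first
      | exact mul_comm _ _
      | linear_combination z0
      | linear_combination z1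
      | linear_combination z2
      | linear_combination (-1 : ℂ) * z0
      | linear_combination (-1 : ℂ) * z1
      | linear_combination (-1 : ℂ) * z2
  have hb' : b = (b i / a i) • a := by
    funext j
    rw [Pi.smul_apply, smul_eq_mul, div_mul_eq_mul_div, eq_div_iff hi, mul_comm (b j), key]
  refine ⟨b i / a i, fun h1 => hb ?_, hb'⟩
  rw [hb', h1, zero_smul]

lemma exists_avoid (F : P3) (hF : F ≠ 0) (L : List V3) (hL : ∀ l ∈ L, l ≠ 0) :
    ∃ p : V3, eval p F ≠ 0 ∧ ∀ l ∈ L, dot l p ≠ 0 := by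
  let lf : V3 → P3 := fun l => C (l 0) * X 0 + C (l 1) * X 1 + C (l 2) * X 2
  have hlf : ∀ l p, eval p (lf l) = dot l p := by
    intro l p
    simp [lf, dot]
  have hlf0 : ∀ l, l ≠ 0 → lf l ≠ 0 := by
    intro l hl h0
    apply hl
    funext i
    have h1 : ∀ p, dot l p = 0 := fun p => by rw [← hlf, h0, map_zero]
    have h2 := h1 (Pi.single i 1)
    fin_cases i <;> simpa [dot, Pi.single_apply] using h2
  have hG : F * (L.map lf).prod ≠ 0 := by
    refine mul_ne_zero hF ?_
    rw [Ne, List.prod_eq_zero_iff]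
    rintro hm
    obtain ⟨l, hl, h0⟩ := List.mem_map.1 hm
    exact hlf0 l (hL l hl) h0
  obtain ⟨p, hp⟩ : ∃ p, eval p (F * (L.map lf).prod) ≠ 0 := by
    by_contra h
    push Not at h
    exact hG (MvPolynomial.funext fun p => by rw [h p, map_zero])
  rw [map_mul] at hp
  refine ⟨p, left_ne_zero_of_mul hp, fun l hl h0 => right_ne_zero_of_mul hp ?_⟩
  rw [map_list_prod, List.prod_eq_zero_iff, List.map_map]
  refine List.mem_map.2 ⟨l, hl, ?_⟩
  rw [Function.comp_apply, hlf, h0]

/-- coordinates in general position -/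
theorem exists_generic (F : P3) (hF : F ≠ 0) (r : V3) (hr : r ≠ 0) (T U : List V3)
    (hT : ∀ s ∈ T, s ≠ 0 ∧ ¬ Prl r s) (hU : ∀ s ∈ U, s ≠ 0 ∧ ¬ Prl r s) :
    ∃ M N : Matrix (Fin 3) (Fin 3) ℂ, M * N = 1 ∧ N * M = 1 ∧ N.mulVec r = e0 ∧
      eval (M.mulVec e1) F ≠ 0 ∧ eval (M.mulVec e2) F ≠ 0 ∧
      (∀ s ∈ T, ∀ i, N.mulVec s i ≠ 0) ∧
      (∀ s ∈ U, N.mulVec s 1 ≠ 0 ∧ N.mulVec s 2 ≠ 0) := by
  -- the first point
  obtain ⟨w, hw⟩ : ∃ w : V3, crs r w ≠ 0 := by
    obtain ⟨i, hi⟩ := Function.ne_iff.1 hr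
    simp only [Pi.zero_apply] at hi
    fin_cases i
    · refine ⟨![0, 1, 0], fun h0 => hi ?_⟩
      simpa [crs] using congrFun h0 2
    · refine ⟨![0, 0, 1], fun h0 => hi ?_⟩
      simpa [crs] using congrFun h0 0
    · refine ⟨![1, 0, 0], fun h0 => hi ?_⟩
      simpa [crs] using congrFun h0 1
  obtain ⟨p, hp1, hp2⟩ := exists_avoid F hF (crs r w :: (T ++ U).map (crs r)) (by
    intro l hl
    rcases List.mem_cons.1 hl with rfl | hl
    · exact hw
    · obtain ⟨s, hs, rfl⟩ := List.mem_map.1 hl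
      have h1 : s ≠ 0 ∧ ¬ Prl r s := by
        rcases List.mem_append.1 hs with hs | hs
        · exact hT s hs
        · exact hU s hs
      exact crs_ne hr h1.1 h1.2)
  have hrp : crs r p ≠ 0 := by
    intro h0
    apply hp2 (crs r w) (by simp)
    have z0 : r 1 * p 2 - r 2 * p 1 = 0 := congrFun h0 0
    have z1 : r 2 * p 0 - r 0 * p 2 = 0 := congrFun h0 1
    have z2 : r 0 * p 1 - r 1 * p 0 = 0 := congrFun h0 2
    simp only [dot, crs, Matrix.cons_val_zero, Matrix.cons_val_one, Matrix.cons_val]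
    linear_combination (-w 0) * z0 - w 1 * z1 - w 2 * z2
  have hps : ∀ s ∈ T ++ U, dot (crs r s) p ≠ 0 := fun s hs =>
    hp2 _ (List.mem_cons_of_mem _ (List.mem_map_of_mem hs))
  have hsp : ∀ s ∈ T, crs s p ≠ 0 := by
    intro s hs h0
    apply hps s (List.mem_append_left _ hs)
    have z0 : s 1 * p 2 - s 2 * p 1 = 0 := congrFun h0 0
    have z1 : s 2 * p 0 - s 0 * p 2 = 0 := congrFun h0 1
    have z2 : s 0 * p 1 - s 1 * p 0 = 0 := congrFun h0 2
    simp only [dot, crs, Matrix.cons_val_zero, Matrix.cons_val_one, Matrix.cons_val]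
    linear_combination r 0 * z0 + r 1 * z1 + r 2 * z2
  -- the second point
  obtain ⟨q, hq1, hq2⟩ := exists_avoid F hF
    (crs r p :: (T.map (fun s => crs s p) ++ (T ++ U).map (crs r))) (by
    intro l hl
    rcases List.mem_cons.1 hl with rfl | hl
    · exact hrp
    · rcases List.mem_append.1 hl with hl | hl
      · obtain ⟨s, hs, rfl⟩ := List.mem_map.1 hl
        exact hsp s hs
      · obtain ⟨s, hs, rfl⟩ := List.mem_map.1 hl
        have h1 : s ≠ 0 ∧ ¬ Prl r s := by
          rcases List.mem_append.1 hs with hs | hs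
          · exact hT s hs
          · exact hU s hs
        exact crs_ne hr h1.1 h1.2)
  have hD : dot (crs r p) q ≠ 0 := hq2 _ (by simp)
  have hsq : ∀ s ∈ T, dot (crs s p) q ≠ 0 := fun s hs =>
    hq2 _ (List.mem_cons_of_mem _ (List.mem_append_left _
      (List.mem_map.2 ⟨s, hs, rfl⟩)))
  have hrs : ∀ s ∈ T ++ U, dot (crs r s) q ≠ 0 := fun s hs =>
    hq2 _ (List.mem_cons_of_mem _ (List.mem_append_right _
      (List.mem_map.2 ⟨s, hs, rfl⟩)))
  set Δ : ℂ := dot (crs r p) q with hΔ
  let M : Matrix (Fin 3) (Fin 3) ℂ := Matrix.of ![![r 0, p 0, q 0], ![r 1, p 1, q 1],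
    ![r 2, p 2, q 2]]
  let N : Matrix (Fin 3) (Fin 3) ℂ := Matrix.of ![Δ⁻¹ • crs p q, Δ⁻¹ • crs q r, Δ⁻¹ • crs r p]
  have hN0 : ∀ s, N.mulVec s 0 = Δ⁻¹ * dot (crs p q) s := by
    intro s
    simp [N, Matrix.mulVec, dotProduct, Fin.sum_univ_three, dot]
    ring
  have hN1 : ∀ s, N.mulVec s 1 = Δ⁻¹ * dot (crs q r) s := by
    intro s
    simp [N, Matrix.mulVec, dotProduct, Fin.sum_univ_three, dot]
    ring
  have hN2 : ∀ s, N.mulVec s 2 = Δ⁻¹ * dot (crs r p) s := by
    intro s
    simp [N, Matrix.mulVec, dotProduct, Fin.sum_univ_three, dot]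
    ring
  have hNr : N.mulVec r = e0 := by
    funext i
    fin_cases i
    · show N.mulVec r 0 = 1
      rw [hN0]
      have : dot (crs p q) r = Δ := by
        rw [hΔ]
        simp only [dot, crs, Matrix.cons_val_zero, Matrix.cons_val_one, Matrix.cons_val]
        ring
      rw [this, inv_mul_cancel₀ hD]
    · show N.mulVec r 1 = 0
      rw [hN1]
      simp only [dot, crs, Matrix.cons_val_zero, Matrix.cons_val_one, Matrix.cons_val]
      ring
    · show N.mulVec r 2 = 0
      rw [hN2]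
      simp only [dot, crs, Matrix.cons_val_zero, Matrix.cons_val_one, Matrix.cons_val]
      ring
  have hNp : N.mulVec p = e1 := by
    funext i
    fin_cases i
    · show N.mulVec p 0 = 0
      rw [hN0]
      simp only [dot, crs, Matrix.cons_val_zero, Matrix.cons_val_one, Matrix.cons_val]
      ring
    · show N.mulVec p 1 = 1
      rw [hN1]
      have : dot (crs q r) p = Δ := by
        rw [hΔ]
        simp only [dot, crs, Matrix.cons_val_zero, Matrix.cons_val_one, Matrix.cons_val]
        ring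
      rw [this, inv_mul_cancel₀ hD]
    · show N.mulVec p 2 = 0
      rw [hN2]
      simp only [dot, crs, Matrix.cons_val_zero, Matrix.cons_val_one, Matrix.cons_val]
      ring
  have hNq : N.mulVec q = e2 := by
    funext i
    fin_cases i
    · show N.mulVec q 0 = 0
      rw [hN0]
      simp only [dot, crs, Matrix.cons_val_zero, Matrix.cons_val_one, Matrix.cons_val]
      ring
    · show N.mulVec q 1 = 0
      rw [hN1]
      simp only [dot, crs, Matrix.cons_val_zero, Matrix.cons_val_one, Matrix.cons_val]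
      ring
    · show N.mulVec q 2 = 1
      rw [hN2, inv_mul_cancel₀ hD]
  have hMe1 : M.mulVec e1 = p := by
    funext i
    fin_cases i <;> simp [M, Matrix.mulVec, dotProduct, Fin.sum_univ_three, e1]
  have hMe2 : M.mulVec e2 = q := by
    funext i
    fin_cases i <;> simp [M, Matrix.mulVec, dotProduct, Fin.sum_univ_three, e2]
  have hNM : N * M = 1 := by
    ext i j
    have hcol : ∀ j, (N * M) i j = N.mulVec (fun k => M k j) i := fun j => rfl
    rw [hcol]
    fin_cases j
    · have : (fun k => M k 0) = r := by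
        funext k
        fin_cases k <;> rfl
      show N.mulVec (fun k => M k 0) i = _
      rw [this, hNr]
      fin_cases i <;> simp [e0]
    · have : (fun k => M k 1) = p := by
        funext k
        fin_cases k <;> rfl
      show N.mulVec (fun k => M k 1) i = _
      rw [this, hNp]
      fin_cases i <;> simp [e1]
    · have : (fun k => M k 2) = q := by
        funext k
        fin_cases k <;> rfl
      show N.mulVec (fun k => M k 2) i = _
      rw [this, hNq]
      fin_cases i <;> simp [e2]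
  have hMN : M * N = 1 := mul_eq_one_comm.1 hNM
  have hinv : Δ⁻¹ ≠ 0 := inv_ne_zero hD
  have c1 : ∀ s, dot (crs q r) s = dot (crs r s) q := by
    intro s
    simp only [dot, crs, Matrix.cons_val_zero, Matrix.cons_val_one, Matrix.cons_val]
    ring
  have c2 : ∀ s, dot (crs r p) s = - dot (crs r s) p := by
    intro s
    simp only [dot, crs, Matrix.cons_val_zero, Matrix.cons_val_one, Matrix.cons_val]
    ring
  have c3 : ∀ s, dot (crs p q) s = dot (crs s p) q := by
    intro s
    simp only [dot, crs, Matrix.cons_val_zero, Matrix.cons_val_one, Matrix.cons_val]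
    ring
  refine ⟨M, N, hMN, hNM, hNr, by rw [hMe1]; exact hp1, by rw [hMe2]; exact hq1, ?_, ?_⟩
  · intro s hs i
    fin_cases i
    · show N.mulVec s 0 ≠ 0
      rw [hN0, c3]
      exact mul_ne_zero hinv (hsq s hs)
    · show N.mulVec s 1 ≠ 0
      rw [hN1, c1]
      exact mul_ne_zero hinv (hrs s (List.mem_append_left _ hs))
    · show N.mulVec s 2 ≠ 0
      rw [hN2, c2]
      exact mul_ne_zero hinv (neg_ne_zero.2 (hps s (List.mem_append_left _ hs)))
  · intro s hs
    rw [hN1, hN2, c1, c2]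
    exact ⟨mul_ne_zero hinv (hrs s (List.mem_append_right _ hs)),
      mul_ne_zero hinv (neg_ne_zero.2 (hps s (List.mem_append_right _ hs)))⟩

end Pool.Agent.Helper90.HC
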