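import Pool.Agent.Helper90.HC.Crem

/-!
# The Cremona machine
-/

open MvPolynomial

namespace Pool.Agent.Helper90.HC

lemma St.ne_zero {d : ℕ} {F : P3} {D : List (V3 × ℕ)} {A : List Act} (h : St d F D A) {s : V3}
    (hs : s ∈ pts D A) : s ≠ 0 := by
  rcases List.mem_append.1 hs with hs | hs
  · obtain ⟨s', hs', rfl⟩ := List.mem_map.1 hs
    exact (h.don s' hs').1
  · obtain ⟨b, hb, rfl⟩ := List.mem_map.1 hs
    exact pt_ne_zero (h.act b hb).1

lemma mem_pts_cons {D : List (V3 × ℕ)} {a : Act} {A : List Act} {s : V3} :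
    s ∈ pts D (a :: A) ↔ s = pt a.ρ ∨ s ∈ pts D A := by
  simp only [pts, List.map_cons, List.mem_append, List.mem_cons]
  tauto

lemma pts_sublist (D : List (V3 × ℕ)) (a : Act) (A : List Act) :
    (pts D A).Sublist (pts D (a :: A)) := by
  rw [pts, pts, List.map_cons]
  exact List.Sublist.append_left (List.sublist_cons_self _ _) _

lemma not_prl_of_mem {d : ℕ} {F : P3} {D : List (V3 × ℕ)} {a : Act} {A : List Act}
    (h : St d F D (a :: A)) {s : V3} (hs : s ∈ pts D A) : ¬ Prl (pt a.ρ) s := by
  have h1 : (pts D (a :: A)).Perm (pt a.ρ :: pts D A) := by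
    rw [pts, pts, List.map_cons]
    exact List.perm_middle
  have h2 := (h1.pairwise_iff (fun {x y} hxy hyx => hxy hyx.symm)).1 h.dis
  exact (List.pairwise_cons.1 h2).1 s hs

lemma Etale.lin_indep {ρ : Par} (h : Etale ρ) :
    (dX ρ ≠ 0 ∧ ¬ Prl (pt ρ) (dX ρ)) ∧ (dY ρ ≠ 0 ∧ ¬ Prl (pt ρ) (dY ρ)) := by
  unfold Etale at h
  rw [det_pq] at h
  refine ⟨⟨?_, ?_⟩, ⟨?_, ?_⟩⟩
  · intro h0
    apply h
    rw [h0]
    simp
  · rintro ⟨c, -, hc⟩
    apply h
    rw [hc]
    simp only [Pi.smul_apply, smul_eq_mul]
    ring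
  · intro h0
    apply h
    rw [h0]
    simp
  · rintro ⟨c, -, hc⟩
    apply h
    rw [hc]
    simp only [Pi.smul_apply, smul_eq_mul]
    ring

/-- removing an active point with a trivial tree -/
lemma St.remove {d : ℕ} {F : P3} {D : List (V3 × ℕ)} {a : Act} {A : List Act}
    (h : St d F D (a :: A)) (ha : ¬ OrdGe 2 a.G) : St d F D A := by
  refine ⟨h.ne, h.hom, fun b hb => h.act b (List.mem_cons_of_mem _ hb), h.don,
    h.dis.sublist (pts_sublist D a A), ?_⟩
  intro r hr hs
  obtain ⟨s, hs1, hs2⟩ := h.sing r hr hs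
  rcases mem_pts_cons.1 hs1 with rfl | hs1
  · exfalso
    apply not_sg_of_loc (h.act a List.mem_cons_self).2.1 ha
    obtain ⟨c, hc, hc'⟩ := hs2.symm
    rw [hc']
    exact sg_smul h.hom hc hs
  · exact ⟨s, hs1, hs2⟩

/-- All the infinitely near singular points can be made proper points. -/
theorem machine {d : ℕ} {F : P3} {D : List (V3 × ℕ)} {A : List Act} (h : St d F D A) :
    ∃ (d' : ℕ) (F' : P3) (D' : List (V3 × ℕ)), St d' F' D' [] ∧
      D'.length ≤ D.length + 3 * Ns A ∧
      (d' : ℤ) ^ 2 - sqs D' = (d : ℤ) ^ 2 - sqs D - Qs A := by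
  induction hn : 2 * Ns A + A.length using Nat.strong_induction_on generalizing d F D A with
  | _ n ih =>
    subst hn
    match A, h, ih with
    | [], h, _ =>
      exact ⟨d, F, D, h, by simp, by simp [Qs]⟩
    | a :: A, h, ih =>
      obtain ⟨hρ, hloc, htr⟩ := h.act a List.mem_cons_self
      obtain ⟨ρ, G, N, Q⟩ := a
      simp only at hρ hloc htr
      cases htr with
      | leaf _ hG =>
        obtain ⟨d', F', D', hS, h1, h2⟩ := ih (2 * Ns A + A.length)
          (by simp [Ns]) (h.remove hG) rfl
        refine ⟨d', F', D', hS, ?_, ?_⟩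
        · simpa [Ns] using h1
        · rw [h2]
          simp [Qs]
      | node _ m KR KL N1 Q1 N2 Q2 hG hR hL hc t1 t2 =>
        obtain ⟨⟨x1, x2⟩, ⟨y1, y2⟩⟩ := hρ.lin_indep
        obtain ⟨M, N', hMN, hNM, g1, g2, g3, g4, g5⟩ := exists_generic F h.ne (pt ρ)
          (pt_ne_zero hρ) (pts D A) [dX ρ, dY ρ]
          (fun s hs => ⟨h.ne_zero (mem_pts_cons.2 (Or.inr hs)), not_prl_of_mem h hs⟩)
          (by
            intro s hs
            simp only [List.mem_cons, List.not_mem_nil, or_false] at hs
            rcases hs with rfl | rfl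
            · exact ⟨x1, x2⟩
            · exact ⟨y1, y2⟩)
        have hS := h.lin M N' hMN hNM
        rw [List.map_cons] at hS
        obtain ⟨d1, F1, D1, A1, hS1, k1, k2, k3, k4, k5⟩ := cremona_step hS
          (by rw [pt_linPar]; exact g1) (by rw [eval_lin]; exact g2) (by rw [eval_lin]; exact g3)
          (by
            intro s hs
            have hp : pts (D.map fun s => (N'.mulVec s.1, s.2))
                (A.map fun a => ⟨linPar N' a.ρ, a.G, a.N, a.Q⟩) = (pts D A).map N'.mulVec := by
              simp only [pts, List.map_append, List.map_map]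
              congr 1
              apply List.map_congr_left
              intro b _
              exact pt_linPar N' b.ρ
            rw [hp] at hs
            obtain ⟨s', hs', rfl⟩ := List.mem_map.1 hs
            exact g4 s' hs')
          (by
            simp only [dX_linPar]
            exact g5 (dX ρ) (by simp))
          (by
            simp only [dY_linPar]
            exact g5 (dY ρ) (by simp)) hG hR hL hc t1 t2
        have e1 : Ns (A.map fun a => (⟨linPar N' a.ρ, a.G, a.N, a.Q⟩ : Act)) = Ns A := by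
          simp only [Ns, List.map_map]
          rfl
        have e2 : Qs (A.map fun a => (⟨linPar N' a.ρ, a.G, a.N, a.Q⟩ : Act)) = Qs A := by
          simp only [Qs, List.map_map]
          rfl
        have e3 : sqs (D.map fun s => (N'.mulVec s.1, s.2)) = sqs D := by
          simp only [sqs, List.map_map]
          rfl
        rw [List.length_map] at k1 k2
        rw [e1] at k3
        rw [e2] at k4
        rw [e3] at k5
        have e4 : Ns (⟨ρ, G, 1 + N1 + N2, m ^ 2 + Q1 + Q2⟩ :: A) = 1 + N1 + N2 + Ns A := by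
          simp [Ns]
        have e5 : Qs (⟨ρ, G, 1 + N1 + N2, m ^ 2 + Q1 + Q2⟩ :: A) =
            (m : ℤ) ^ 2 + Q1 + Q2 + Qs A := by
          simp [Qs]
        obtain ⟨d', F', D', hS', h1, h2⟩ := ih (2 * Ns A1 + A1.length)
          (by rw [e4, k3, k2, List.length_cons]; omega) hS1 rfl
        refine ⟨d', F', D', hS', ?_, ?_⟩
        · rw [e4]
          omega
        · rw [h2, e5, k5, k4]
          ring

end Pool.Agent.Helper90.HC
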