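import Pool.Agent.Helper90.HC.Init

/-!
# The resolution trees of the torsion curves
-/

open MvPolynomial

namespace Pool.Agent.Helper90.HC

theorem ell_zero_right (a : ℕ) : ell a 0 = 0 := by
  cases a <;> simp [ell]

theorem ell_lt {a b : ℕ} (ha : 0 < a) (hab : a < b) : ell a b = 1 + ell a (b - a) := by
  obtain ⟨a', rfl⟩ : ∃ a', a = a' + 1 := ⟨a - 1, by omega⟩
  obtain ⟨b', rfl⟩ : ∃ b', b = b' + 1 := ⟨b - 1, by omega⟩
  rw [ell]
  have h1 : a' < b' := by omega
  rw [if_pos h1]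
  congr 2
  omega

theorem ell_gt {a b : ℕ} (hb : 0 < b) (hab : b < a) : ell a b = 1 + ell (a - b) b := by
  obtain ⟨a', rfl⟩ : ∃ a', a = a' + 1 := ⟨a - 1, by omega⟩
  obtain ⟨b', rfl⟩ : ∃ b', b = b' + 1 := ⟨b - 1, by omega⟩
  rw [ell]
  have h1 : ¬ a' < b' := by omega
  have h2 : b' < a' := by omega
  rw [if_neg h1, if_pos h2]
  congr 2
  omega

theorem ell_self {a : ℕ} (ha : 0 < a) : ell a a = 1 := by
  obtain ⟨a', rfl⟩ : ∃ a', a = a' + 1 := ⟨a - 1, by omega⟩
  rw [ell]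
  simp

theorem ell_pos {a b : ℕ} (ha : 0 < a) (hb : 0 < b) : 1 ≤ ell a b := by
  rcases lt_trichotomy a b with h | h | h
  · rw [ell_lt ha h]; omega
  · rw [h, ell_self hb]
  · rw [ell_gt hb h]; omega

/-- the transform of `G` in the cone spanned by `(a₁, b₁)` and `(a₂, b₂)` -/
noncomputable def gg (k a₁ b₁ a₂ b₂ : ℕ) (G : P2) : P2 :=
  ∑ s ∈ G.support, C (coeff s G) * X 0 ^ (a₁ * s 0 + b₁ * s 1 - hh k a₁ b₁) *
    X 1 ^ (a₂ * s 0 + b₂ * s 1 - hh k a₂ b₂)

/-- the strict transform of `gg` at a point of the exceptional curve -/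
noncomputable def gc (k a b a₂ b₂ : ℕ) (c : ℂ) (G : P2) : P2 :=
  ∑ s ∈ G.support, C (coeff s G) * X 0 ^ (a * s 0 + b * s 1 - hh k a b) *
    (C c + X 1) ^ (a₂ * s 0 + b₂ * s 1 - hh k a₂ b₂)

theorem hh_le {k : ℕ} {G : P2} (hG : Good k G) (a b : ℕ) {s : Fin 2 →₀ ℕ} (hs : s ∈ G.support) :
    hh k a b ≤ a * s 0 + b * s 1 := by
  rcases Nat.eq_zero_or_pos a with rfl | ha
  · simp [hh]
  rcases Nat.eq_zero_or_pos b with rfl | hb
  · simp [hh]
  exact (hG a b ha hb).1 s hs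

theorem hh_add (k a₁ b₁ a₂ b₂ : ℕ) : hh k a₁ b₁ + hh k a₂ b₂ ≤ hh k (a₁ + a₂) (b₁ + b₂) := by
  unfold hh
  rw [← mul_add, ← Finset.sum_add_distrib]
  apply Nat.mul_le_mul_left
  apply Finset.sum_le_sum
  intro i _
  have h1 := min_le_left ((k - i) * a₁) (i * b₁)
  have h2 := min_le_right ((k - i) * a₁) (i * b₁)
  have h3 := min_le_left ((k - i) * a₂) (i * b₂)
  have h4 := min_le_right ((k - i) * a₂) (i * b₂)
  apply le_min
  · rw [mul_add]; omega
  · rw [mul_add]; omega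

theorem chartR_gg {k : ℕ} {G : P2} (hG : Good k G) {a₁ b₁ a₂ b₂ m : ℕ} (c : ℂ)
    (hm : hh k (a₁ + a₂) (b₁ + b₂) = hh k a₁ b₁ + hh k a₂ b₂ + m) :
    chartR c (gg k a₁ b₁ a₂ b₂ G) = X 0 ^ m * gc k (a₁ + a₂) (b₁ + b₂) a₂ b₂ c G := by
  unfold chartR gg gc
  rw [map_sum, Finset.mul_sum]
  apply Finset.sum_congr rfl
  intro s hs
  have h1 := hh_le hG a₁ b₁ hs
  have h2 := hh_le hG a₂ b₂ hs
  have h3 := hh_le hG (a₁ + a₂) (b₁ + b₂) hs
  simp only [map_mul, map_pow, aeval_C, aeval_X, Matrix.cons_val_zero, Matrix.cons_val_one]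
  have h4 : (a₁ * s 0 + b₁ * s 1 - hh k a₁ b₁) + (a₂ * s 0 + b₂ * s 1 - hh k a₂ b₂) =
      m + ((a₁ + a₂) * s 0 + (b₁ + b₂) * s 1 - hh k (a₁ + a₂) (b₁ + b₂)) := by
    rw [add_mul, add_mul] at h3 ⊢
    omega
  rw [mul_pow]
  have h5 : (X 0 : P2) ^ (a₁ * s 0 + b₁ * s 1 - hh k a₁ b₁) *
      X 0 ^ (a₂ * s 0 + b₂ * s 1 - hh k a₂ b₂) =
      X 0 ^ m * X 0 ^ ((a₁ + a₂) * s 0 + (b₁ + b₂) * s 1 - hh k (a₁ + a₂) (b₁ + b₂)) := by
    rw [← pow_add, h4, pow_add]
  simp only [algebraMap_eq]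
  linear_combination (C (coeff s G) * (C c + X 1) ^ (a₂ * s 0 + b₂ * s 1 - hh k a₂ b₂)) * h5

theorem gc_zero (k a b a₂ b₂ : ℕ) (G : P2) : gc k a b a₂ b₂ 0 G = gg k a b a₂ b₂ G := by
  unfold gc gg
  simp

theorem chartL_gg {k : ℕ} {G : P2} (hG : Good k G) {a₁ b₁ a₂ b₂ m : ℕ}
    (hm : hh k (a₁ + a₂) (b₁ + b₂) = hh k a₁ b₁ + hh k a₂ b₂ + m) :
    chartL (gg k a₁ b₁ a₂ b₂ G) = X 1 ^ m * gg k a₁ b₁ (a₁ + a₂) (b₁ + b₂) G := by
  unfold chartL gg
  rw [map_sum, Finset.mul_sum]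
  apply Finset.sum_congr rfl
  intro s hs
  have h1 := hh_le hG a₁ b₁ hs
  have h2 := hh_le hG a₂ b₂ hs
  have h3 := hh_le hG (a₁ + a₂) (b₁ + b₂) hs
  simp only [map_mul, map_pow, aeval_C, aeval_X, Matrix.cons_val_zero, Matrix.cons_val_one]
  have h4 : (a₁ * s 0 + b₁ * s 1 - hh k a₁ b₁) + (a₂ * s 0 + b₂ * s 1 - hh k a₂ b₂) =
      m + ((a₁ + a₂) * s 0 + (b₁ + b₂) * s 1 - hh k (a₁ + a₂) (b₁ + b₂)) := by
    rw [add_mul, add_mul] at h3 ⊢
    omega
  rw [mul_pow]
  have h5 : (X 1 : P2) ^ (a₁ * s 0 + b₁ * s 1 - hh k a₁ b₁) *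
      X 1 ^ (a₂ * s 0 + b₂ * s 1 - hh k a₂ b₂) =
      X 1 ^ m * X 1 ^ ((a₁ + a₂) * s 0 + (b₁ + b₂) * s 1 - hh k (a₁ + a₂) (b₁ + b₂)) := by
    rw [← pow_add, h4, pow_add]
  simp only [algebraMap_eq]
  linear_combination (C (coeff s G) * X 0 ^ (a₁ * s 0 + b₁ * s 1 - hh k a₁ b₁)) * h5

theorem ordGe_sum {ι : Type} (S : Finset ι) (f : ι → P2) (m : ℕ) (h : ∀ i ∈ S, OrdGe m (f i)) :
    OrdGe m (∑ i ∈ S, f i) := by
  classical
  induction S using Finset.induction_on with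
  | empty => intro s hs; simp at hs
  | insert a S ha ih =>
    rw [Finset.sum_insert ha]
    exact (h a (Finset.mem_insert_self _ _)).add (ih fun i hi => h i (Finset.mem_insert_of_mem hi))

theorem C_X_X (c : ℂ) (e f : ℕ) : (C c * X 0 ^ e * X 1 ^ f : P2) =
    monomial (Finsupp.single 0 e + Finsupp.single 1 f) c := by
  rw [X_pow_eq_monomial, X_pow_eq_monomial, mul_assoc, monomial_mul, C_mul_monomial]
  simp

theorem ordGe_term (c : ℂ) (e f m : ℕ) (h : m ≤ e + f) : OrdGe m (C c * X 0 ^ e * X 1 ^ f : P2) := by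
  rw [C_X_X]
  intro s hs
  have hs' := support_monomial_subset hs
  rw [Finset.mem_singleton] at hs'
  rw [hs', map_add, Finsupp.degree_single, Finsupp.degree_single]
  exact h

theorem ordGe_gg {k : ℕ} {G : P2} (hG : Good k G) {a₁ b₁ a₂ b₂ m : ℕ}
    (hm : hh k (a₁ + a₂) (b₁ + b₂) = hh k a₁ b₁ + hh k a₂ b₂ + m) :
    OrdGe m (gg k a₁ b₁ a₂ b₂ G) := by
  unfold gg
  apply ordGe_sum
  intro s hs
  apply ordGe_term
  have h1 := hh_le hG a₁ b₁ hs
  have h2 := hh_le hG a₂ b₂ hs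
  have h3 := hh_le hG (a₁ + a₂) (b₁ + b₂) hs
  rw [add_mul, add_mul] at h3
  omega

theorem ordGe_dvd {m : ℕ} {H : P2} (h : OrdGe m H) :
    (Polynomial.X : Polynomial ℂ) ^ m ∣ aeval ![(0 : Polynomial ℂ), Polynomial.X] H := by
  rw [H.as_sum, map_sum]
  apply Finset.dvd_sum
  intro s hs
  rw [aeval_monomial, Finsupp.prod_fintype _ _ (by intro i; simp), Fin.prod_univ_two]
  simp only [Matrix.cons_val_zero, Matrix.cons_val_one]
  have h1 := h s hs
  have h2 : s.degree = s 0 + s 1 := by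
    rw [Finsupp.degree_eq_sum, Fin.sum_univ_two]
  rcases Nat.eq_zero_or_pos (s 0) with h0 | h0
  · have h3 : m ≤ s 1 := by omega
    exact Dvd.dvd.mul_left (Dvd.dvd.mul_left (pow_dvd_pow _ h3) _) _
  · rw [zero_pow (by omega)]
    simp

theorem eval_face (a b h : ℕ) (G : P2) (x y : ℂ) :
    eval ![x, y] (face a b h G) =
      ∑ s ∈ G.support with a * s 0 + b * s 1 = h, coeff s G * (x ^ s 0 * y ^ s 1) := by
  unfold face
  rw [map_sum]
  apply Finset.sum_congr rfl
  intro s _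
  rw [eval_monomial, Finsupp.prod_fintype _ _ (by intro i; simp), Fin.prod_univ_two]
  simp

theorem eval_pderiv_monomial (s : Fin 2 →₀ ℕ) (c : ℂ) (x y : ℂ) (i : Fin 2) :
    (![x, y] i) * eval ![x, y] (pderiv i (monomial s c)) =
      c * (s i : ℂ) * (x ^ s 0 * y ^ s 1) := by
  rw [pderiv_monomial, eval_monomial, Finsupp.prod_fintype _ _ (by intro i; simp),
    Fin.prod_univ_two]
  fin_cases i
  · simp only [Fin.zero_eta, Fin.isValue, Matrix.cons_val_zero, Finsupp.coe_tsub, Pi.sub_apply,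
      Finsupp.single_eq_same, Matrix.cons_val_one]
    have h1 : (Finsupp.single (0 : Fin 2) 1 : Fin 2 →₀ ℕ) 1 = 0 := by simp
    rw [h1, Nat.sub_zero]
    rcases Nat.eq_zero_or_pos (s 0) with h0 | h0
    · rw [h0]; simp
    · have : x ^ s 0 = x * x ^ (s 0 - 1) := by
        rw [← pow_succ']
        congr 1
        omega
      rw [this]; ring
  · simp only [Fin.mk_one, Fin.isValue, Matrix.cons_val_zero, Finsupp.coe_tsub, Pi.sub_apply,
      Finsupp.single_eq_same, Matrix.cons_val_one]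
    have h1 : (Finsupp.single (1 : Fin 2) 1 : Fin 2 →₀ ℕ) 0 = 0 := by simp
    rw [h1, Nat.sub_zero]
    rcases Nat.eq_zero_or_pos (s 1) with h0 | h0
    · rw [h0]; simp
    · have : y ^ s 1 = y * y ^ (s 1 - 1) := by
        rw [← pow_succ']
        congr 1
        omega
      rw [this]; ring

theorem eval_pderiv_face (a b h : ℕ) (G : P2) (x y : ℂ) (i : Fin 2) :
    (![x, y] i) * eval ![x, y] (pderiv i (face a b h G)) =
      ∑ s ∈ G.support with a * s 0 + b * s 1 = h,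
        coeff s G * (s i : ℂ) * (x ^ s 0 * y ^ s 1) := by
  unfold face
  rw [map_sum, map_sum, Finset.mul_sum]
  apply Finset.sum_congr rfl
  intro s _
  exact eval_pderiv_monomial s _ x y i

/-- the points of the exceptional curve outside the two toric ones are not singular -/
theorem gc_not_ordGe {k : ℕ} {G : P2} (hG : Good k G) {a b a₂ b₂ : ℕ} (ha : 1 ≤ a) (hb : 1 ≤ b)
    (hdet : a * b₂ = a₂ * b + 1) {c : ℂ} (hc : c ≠ 0) : ¬ OrdGe 2 (gc k a b a₂ b₂ c G) := by
  intro hord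
  obtain ⟨q, hq⟩ := ordGe_dvd hord
  have hE : aeval ![(0 : Polynomial ℂ), Polynomial.X] (gc k a b a₂ b₂ c G) =
      ∑ s ∈ G.support with a * s 0 + b * s 1 = hh k a b,
        Polynomial.C (coeff s G) * (Polynomial.C c + Polynomial.X) ^
          (a₂ * s 0 + b₂ * s 1 - hh k a₂ b₂) := by
    unfold gc
    rw [map_sum, Finset.sum_filter]
    apply Finset.sum_congr rfl
    intro s hs
    have h1 := hh_le hG a b hs
    simp only [map_mul, map_pow, aeval_C, aeval_X, Matrix.cons_val_zero, Matrix.cons_val_one,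
      map_add]
    split_ifs with h2
    · rw [h2, Nat.sub_self]
      simp
    · rw [zero_pow (by omega)]
      simp
  rw [hE] at hq
  have e0 := congrArg (Polynomial.eval 0) hq
  have e1 := congrArg (fun p => Polynomial.eval 0 (Polynomial.derivative p)) hq
  simp only [Polynomial.eval_finsetSum, Polynomial.eval_mul, Polynomial.eval_C,
    Polynomial.eval_pow, Polynomial.eval_add, Polynomial.eval_X, add_zero] at e0
  simp only [Polynomial.derivative_sum, Polynomial.derivative_mul, Polynomial.derivative_C,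
    zero_mul, zero_add, Polynomial.derivative_pow, Polynomial.derivative_add,
    Polynomial.derivative_X, Polynomial.eval_finsetSum, Polynomial.eval_mul, Polynomial.eval_C,
    Polynomial.eval_pow, Polynomial.eval_add, Polynomial.eval_X, add_zero, mul_one] at e1
  norm_num at e0 e1
  set S := G.support.filter (fun s => a * s 0 + b * s 1 = hh k a b) with hS
  have hx : c ^ a₂ ≠ 0 := pow_ne_zero _ hc
  have hy : c ^ b₂ ≠ 0 := pow_ne_zero _ hc
  have hmon : ∀ s ∈ S, (c ^ a₂) ^ s 0 * (c ^ b₂) ^ s 1 =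
      c ^ hh k a₂ b₂ * c ^ (a₂ * s 0 + b₂ * s 1 - hh k a₂ b₂) := by
    intro s hs
    have h2 := hh_le hG a₂ b₂ (Finset.mem_filter.1 hs).1
    rw [← pow_mul, ← pow_mul, ← pow_add, ← pow_add]
    congr 1
    omega
  have A0 : ∑ s ∈ S, coeff s G * ((c ^ a₂) ^ s 0 * (c ^ b₂) ^ s 1) = 0 := by
    rw [← mul_zero (c ^ hh k a₂ b₂), ← e0, Finset.mul_sum]
    apply Finset.sum_congr rfl
    intro s hs
    rw [hmon s hs]
    ring
  have B : ∑ s ∈ S, coeff s G * ((a₂ * s 0 + b₂ * s 1 : ℕ) : ℂ) *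
      ((c ^ a₂) ^ s 0 * (c ^ b₂) ^ s 1) = 0 := by
    have : ∑ s ∈ S, coeff s G * ((a₂ * s 0 + b₂ * s 1 : ℕ) : ℂ) *
        ((c ^ a₂) ^ s 0 * (c ^ b₂) ^ s 1) =
        (hh k a₂ b₂ : ℂ) * (∑ s ∈ S, coeff s G * ((c ^ a₂) ^ s 0 * (c ^ b₂) ^ s 1)) +
        c ^ hh k a₂ b₂ * c * (∑ s ∈ S, coeff s G *
          (((a₂ * s 0 + b₂ * s 1 - hh k a₂ b₂ : ℕ) : ℂ) *
            c ^ (a₂ * s 0 + b₂ * s 1 - hh k a₂ b₂ - 1))) := by
      rw [Finset.mul_sum, Finset.mul_sum, ← Finset.sum_add_distrib]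
      apply Finset.sum_congr rfl
      intro s hs
      rw [hmon s hs]
      have h2 := hh_le hG a₂ b₂ (Finset.mem_filter.1 hs).1
      obtain ⟨f, hf⟩ : ∃ f, a₂ * s 0 + b₂ * s 1 = hh k a₂ b₂ + f := ⟨_, (by omega : _ = hh k a₂ b₂ +
        (a₂ * s 0 + b₂ * s 1 - hh k a₂ b₂))⟩
      rw [hf, Nat.add_sub_cancel_left]
      rcases Nat.eq_zero_or_pos f with rfl | hf0
      · simp
        ring
      · have : c ^ f = c * c ^ (f - 1) := by
          rw [← pow_succ']
          congr 1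
          omega
        rw [this]
        push_cast
        ring
    rw [this, A0, e1]
    ring
  have E : ∑ s ∈ S, coeff s G * ((a * s 0 + b * s 1 : ℕ) : ℂ) *
      ((c ^ a₂) ^ s 0 * (c ^ b₂) ^ s 1) = 0 := by
    rw [← mul_zero (hh k a b : ℂ), ← A0, Finset.mul_sum]
    apply Finset.sum_congr rfl
    intro s hs
    rw [(Finset.mem_filter.1 hs).2]
    ring
  set A1 := ∑ s ∈ S, coeff s G * (s 0 : ℂ) * ((c ^ a₂) ^ s 0 * (c ^ b₂) ^ s 1) with hA1
  set A2 := ∑ s ∈ S, coeff s G * (s 1 : ℂ) * ((c ^ a₂) ^ s 0 * (c ^ b₂) ^ s 1) with hA2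
  have B' : (a₂ : ℂ) * A1 + b₂ * A2 = 0 := by
    rw [← B, hA1, hA2, Finset.mul_sum, Finset.mul_sum, ← Finset.sum_add_distrib]
    apply Finset.sum_congr rfl
    intro s _
    push_cast
    ring
  have E' : (a : ℂ) * A1 + b * A2 = 0 := by
    rw [← E, hA1, hA2, Finset.mul_sum, Finset.mul_sum, ← Finset.sum_add_distrib]
    apply Finset.sum_congr rfl
    intro s _
    push_cast
    ring
  have hdet' : (a : ℂ) * b₂ = a₂ * b + 1 := by exact_mod_cast hdet
  have z1 : A1 = 0 := by linear_combination (b₂ : ℂ) * E' - b * B' - A1 * hdet'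
  have z2 : A2 = 0 := by linear_combination (a : ℂ) * B' - a₂ * E' - A2 * hdet'
  apply (hG a b ha hb).2 (c ^ a₂) (c ^ b₂) hx hy
  refine ⟨?_, ?_, ?_⟩
  · rw [eval_face]
    exact A0
  · have := eval_pderiv_face a b (hh k a b) G (c ^ a₂) (c ^ b₂) 0
    rw [← hS, ← hA1, z1] at this
    exact (mul_eq_zero.1 this).resolve_left hx
  · have := eval_pderiv_face a b (hh k a b) G (c ^ a₂) (c ^ b₂) 1
    rw [← hS, ← hA2, z2] at this
    exact (mul_eq_zero.1 this).resolve_left hy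

/-- a cone without walls inside is a leaf -/
theorem gg_leaf {k : ℕ} {G : P2} (hG : Good k G) {a₁ b₁ a₂ b₂ : ℕ}
    (hdet : a₁ * b₂ = a₂ * b₁ + 1)
    (hm : hh k (a₁ + a₂) (b₁ + b₂) = hh k a₁ b₁ + hh k a₂ b₂) :
    ¬ OrdGe 2 (gg k a₁ b₁ a₂ b₂ G) := by
  classical
  intro hord
  have ha : 1 ≤ a₁ + a₂ := by
    rcases Nat.eq_zero_or_pos a₁ with h | h
    · rw [h] at hdet; omega
    · omega
  have hb : 1 ≤ b₁ + b₂ := by
    rcases Nat.eq_zero_or_pos b₂ with h | h
    · rw [h] at hdet; omega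
    · omega
  have hne : ∃ s ∈ G.support, (a₁ + a₂) * s 0 + (b₁ + b₂) * s 1 = hh k (a₁ + a₂) (b₁ + b₂) := by
    by_contra hcon
    push Not at hcon
    have hf : face (a₁ + a₂) (b₁ + b₂) (hh k (a₁ + a₂) (b₁ + b₂)) G = 0 := by
      unfold face
      rw [Finset.filter_false_of_mem hcon, Finset.sum_empty]
    apply (hG _ _ ha hb).2 1 1 one_ne_zero one_ne_zero
    rw [hf]
    simp [Sg2]
  obtain ⟨s₀, hs₀, hs₁⟩ := hne
  have key : ∀ s ∈ G.support, a₁ * s 0 + b₁ * s 1 = hh k a₁ b₁ →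
      a₂ * s 0 + b₂ * s 1 = hh k a₂ b₂ → s = s₀ := by
    intro s hs h1 h2
    have h3 := hh_le hG a₁ b₁ hs₀
    have h4 := hh_le hG a₂ b₂ hs₀
    have h5 : (a₁ + a₂) * s₀ 0 + (b₁ + b₂) * s₀ 1 =
        (a₁ * s₀ 0 + b₁ * s₀ 1) + (a₂ * s₀ 0 + b₂ * s₀ 1) := by ring
    have h6 : a₁ * s₀ 0 + b₁ * s₀ 1 = hh k a₁ b₁ := by omega
    have h7 : a₂ * s₀ 0 + b₂ * s₀ 1 = hh k a₂ b₂ := by omega
    have e1 : (a₁ : ℤ) * s 0 + b₁ * s 1 = a₁ * s₀ 0 + b₁ * s₀ 1 := by
      exact_mod_cast h1.trans h6.symm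
    have e2 : (a₂ : ℤ) * s 0 + b₂ * s 1 = a₂ * s₀ 0 + b₂ * s₀ 1 := by
      exact_mod_cast h2.trans h7.symm
    have hdet' : (a₁ : ℤ) * b₂ = a₂ * b₁ + 1 := by exact_mod_cast hdet
    have z0 : (s 0 : ℤ) = s₀ 0 := by
      linear_combination (b₂ : ℤ) * e1 - b₁ * e2 - ((s 0 : ℤ) - s₀ 0) * hdet'
    have z1 : (s 1 : ℤ) = s₀ 1 := by
      linear_combination (a₁ : ℤ) * e2 - a₂ * e1 - ((s 1 : ℤ) - s₀ 1) * hdet'
    ext i
    fin_cases i
    · exact_mod_cast z0
    · exact_mod_cast z1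
  have hco : constantCoeff (gg k a₁ b₁ a₂ b₂ G) = coeff s₀ G := by
    unfold gg
    rw [map_sum, Finset.sum_eq_single s₀]
    · have h3 := hh_le hG a₁ b₁ hs₀
      have h4 := hh_le hG a₂ b₂ hs₀
      have h5 : (a₁ + a₂) * s₀ 0 + (b₁ + b₂) * s₀ 1 =
          (a₁ * s₀ 0 + b₁ * s₀ 1) + (a₂ * s₀ 0 + b₂ * s₀ 1) := by ring
      have h6 : a₁ * s₀ 0 + b₁ * s₀ 1 = hh k a₁ b₁ := by omega
      have h7 : a₂ * s₀ 0 + b₂ * s₀ 1 = hh k a₂ b₂ := by omega
      rw [h6, h7]
      simp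
    · intro s hs hss
      simp only [map_mul, map_pow, constantCoeff_C, constantCoeff_X]
      have h3 := hh_le hG a₁ b₁ hs
      have h4 := hh_le hG a₂ b₂ hs
      rcases Nat.eq_zero_or_pos (a₁ * s 0 + b₁ * s 1 - hh k a₁ b₁) with h5 | h5
      · rcases Nat.eq_zero_or_pos (a₂ * s 0 + b₂ * s 1 - hh k a₂ b₂) with h6 | h6
        · exact absurd (key s hs (by omega) (by omega)) hss
        · rw [zero_pow (by omega : a₂ * s 0 + b₂ * s 1 - hh k a₂ b₂ ≠ 0)]
          simp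
      · rw [zero_pow (by omega : a₁ * s 0 + b₁ * s 1 - hh k a₁ b₁ ≠ 0)]
        simp
    · intro h
      exact absurd hs₀ h
  have h0 : coeff 0 (gg k a₁ b₁ a₂ b₂ G) = 0 := by
    by_contra hne
    have := hord 0 (mem_support_iff.2 hne)
    simp at this
  rw [constantCoeff_eq] at hco
  rw [h0] at hco
  exact (mem_support_iff.1 hs₀) hco.symm

theorem hh_walls {k a₁ b₁ a₂ b₂ : ℕ} {W : Finset ℕ} {α β : ℕ → ℕ} (hW : W ⊆ Finset.Ico 1 k)
    (h1 : ∀ i ∈ W, (k - i) * a₁ = i * b₁ + β i ∧ i * b₂ = (k - i) * a₂ + α i)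
    (h2 : ∀ i ∈ Finset.Ico 1 k, i ∉ W → ((k - i) * a₁ ≤ i * b₁ ∧ (k - i) * a₂ ≤ i * b₂) ∨
      (i * b₁ ≤ (k - i) * a₁ ∧ i * b₂ ≤ (k - i) * a₂)) :
    hh k (a₁ + a₂) (b₁ + b₂) = hh k a₁ b₁ + hh k a₂ b₂ + 2 * ∑ i ∈ W, min (α i) (β i) := by
  classical
  have hs : ∑ i ∈ W, min (α i) (β i) =
      ∑ i ∈ Finset.Ico 1 k, if i ∈ W then min (α i) (β i) else 0 := by
    rw [← Finset.sum_filter]
    apply Finset.sum_congr _ (fun _ _ => rfl)
    ext i
    rw [Finset.mem_filter]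
    exact ⟨fun h => ⟨hW h, h⟩, fun h => h.2⟩
  unfold hh
  rw [hs, ← mul_add, ← mul_add, ← Finset.sum_add_distrib, ← Finset.sum_add_distrib]
  congr 1
  apply Finset.sum_congr rfl
  intro i hi
  rw [mul_add, mul_add]
  split_ifs with h
  · obtain ⟨e1, e2⟩ := h1 i h
    rw [e1, e2]
    rcases le_total (α i) (β i) with h3 | h3
    · rw [min_eq_left h3]
      omega
    · rw [min_eq_right h3]
      omega
  · rcases h2 i hi h with h3 | h3
    · omega
    · omega

theorem min_identity (a b c d : ℕ) : min (a * d) (c * b) = min a b * min c d +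
    (if a < b then (if c < d then min (a * (d - c)) (c * (b - a)) else 0) else 0) +
    (if b < a then (if d < c then min ((a - b) * d) ((c - d) * b) else 0) else 0) := by
  rcases lt_trichotomy a b with h | h | h
  · rw [if_pos h, if_neg (by omega : ¬ b < a), min_eq_left h.le]
    rcases lt_or_ge c d with h' | h'
    · rw [if_pos h', min_eq_left h'.le]
      obtain ⟨e, rfl⟩ : ∃ e, b = a + e := ⟨b - a, by omega⟩
      obtain ⟨f, rfl⟩ : ∃ f, d = c + f := ⟨d - c, by omega⟩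
      rw [Nat.add_sub_cancel_left, Nat.add_sub_cancel_left, mul_add, mul_add, mul_comm c a,
        min_add_add_left]
      ring
    · rw [if_neg (by omega), min_eq_right h']
      have : a * d ≤ c * b := by nlinarith
      rw [min_eq_left this]
      ring
  · subst h
    rw [if_neg (by omega), if_neg (by omega), min_self, mul_comm c a]
    rcases le_total c d with h' | h'
    · rw [min_eq_left h', min_eq_right (Nat.mul_le_mul_left a h')]
      ring
    · rw [min_eq_right h', min_eq_left (Nat.mul_le_mul_left a h')]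
      ring
  · rw [if_neg (by omega : ¬ a < b), if_pos h, min_eq_right h.le]
    rcases lt_or_ge d c with h' | h'
    · rw [if_pos h', min_eq_right h'.le]
      obtain ⟨e, rfl⟩ : ∃ e, a = b + e := ⟨a - b, by omega⟩
      obtain ⟨f, rfl⟩ : ∃ f, c = d + f := ⟨c - d, by omega⟩
      rw [Nat.add_sub_cancel_left, Nat.add_sub_cancel_left, add_mul, add_mul, mul_comm d b,
        min_add_add_left]
      ring
    · rw [if_neg (by omega), min_eq_left h']
      have : c * b ≤ a * d := by nlinarith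
      rw [min_eq_right this]
      ring

theorem sum_identity (W : Finset ℕ) (α β : ℕ → ℕ) :
    4 * ∑ i ∈ W, ∑ j ∈ W, min (α i * β j) (α j * β i) =
      (2 * ∑ i ∈ W, min (α i) (β i)) ^ 2 +
      4 * ∑ i ∈ W with α i < β i, ∑ j ∈ W with α j < β j,
        min (α i * (β j - α j)) (α j * (β i - α i)) +
      4 * ∑ i ∈ W with β i < α i, ∑ j ∈ W with β j < α j,
        min ((α i - β i) * β j) ((α j - β j) * β i) := by
  have h1 : (2 * ∑ i ∈ W, min (α i) (β i)) ^ 2 =
      4 * ∑ i ∈ W, ∑ j ∈ W, min (α i) (β i) * min (α j) (β j) := by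
    rw [mul_pow, sq (∑ i ∈ W, min (α i) (β i)), Finset.sum_mul_sum]
    norm_num
  rw [h1, ← mul_add, ← mul_add]
  congr 1
  rw [Finset.sum_filter, Finset.sum_filter, ← Finset.sum_add_distrib, ← Finset.sum_add_distrib]
  apply Finset.sum_congr rfl
  intro i _
  rw [Finset.sum_filter, Finset.sum_filter]
  have h2 : (if α i < β i then ∑ j ∈ W, if α j < β j then
      min (α i * (β j - α j)) (α j * (β i - α i)) else 0 else 0) =
      ∑ j ∈ W, if α i < β i then (if α j < β j then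
        min (α i * (β j - α j)) (α j * (β i - α i)) else 0) else 0 := by
    split_ifs <;> simp
  have h3 : (if β i < α i then ∑ j ∈ W, if β j < α j then
      min ((α i - β i) * β j) ((α j - β j) * β i) else 0 else 0) =
      ∑ j ∈ W, if β i < α i then (if β j < α j then
        min ((α i - β i) * β j) ((α j - β j) * β i) else 0) else 0 := by
    split_ifs <;> simp
  rw [h2, h3, ← Finset.sum_add_distrib, ← Finset.sum_add_distrib]
  apply Finset.sum_congr rfl
  intro j _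
  exact min_identity (α i) (β i) (α j) (β j)

theorem tree_aux {k : ℕ} {G : P2} (hG : Good k G) : ∀ (n a₁ b₁ a₂ b₂ : ℕ) (W : Finset ℕ)
    (α β : ℕ → ℕ), a₁ * b₂ = a₂ * b₁ + 1 → W ⊆ Finset.Ico 1 k →
    (∀ i ∈ W, 0 < α i ∧ 0 < β i) →
    (∀ i ∈ W, (k - i) * a₁ = i * b₁ + β i ∧ i * b₂ = (k - i) * a₂ + α i) →
    (∀ i ∈ Finset.Ico 1 k, i ∉ W → ((k - i) * a₁ ≤ i * b₁ ∧ (k - i) * a₂ ≤ i * b₂) ∨
      (i * b₁ ≤ (k - i) * a₁ ∧ i * b₂ ≤ (k - i) * a₂)) →
    ∑ i ∈ W, (α i + β i) ≤ n →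
    ∃ N Q : ℕ, Tr (gg k a₁ b₁ a₂ b₂ G) N Q ∧ N ≤ ∑ i ∈ W, ell (α i) (β i) ∧
      Q = 4 * ∑ i ∈ W, ∑ j ∈ W, min (α i * β j) (α j * β i) := by
  classical
  intro n
  induction n with
  | zero =>
    intro a₁ b₁ a₂ b₂ W α β hdet hW hpos h1 h2 hn
    have hempty : W = ∅ := by
      rw [Finset.eq_empty_iff_forall_notMem]
      intro i hi
      have h3 := Finset.single_le_sum (f := fun i => α i + β i) (fun i _ => Nat.zero_le _) hi
      have h4 := (hpos i hi).1
      have h5 : α i + β i ≤ 0 := h3.trans hn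
      omega
    subst hempty
    have hm := hh_walls hW h1 h2
    rw [Finset.sum_empty, mul_zero, add_zero] at hm
    exact ⟨0, 0, Tr.leaf _ (gg_leaf hG hdet hm), by simp, by simp⟩
  | succ n ih =>
    intro a₁ b₁ a₂ b₂ W α β hdet hW hpos h1 h2 hn
    have hm := hh_walls hW h1 h2
    rcases W.eq_empty_or_nonempty with rfl | hne
    · rw [Finset.sum_empty, mul_zero, add_zero] at hm
      exact ⟨0, 0, Tr.leaf _ (gg_leaf hG hdet hm), by simp, by simp⟩
    set m := 2 * ∑ i ∈ W, min (α i) (β i) with hmdef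
    obtain ⟨i₀, hi₀⟩ := hne
    have hi₀' := hpos i₀ hi₀
    have ha : 1 ≤ a₁ + a₂ := by
      rcases Nat.eq_zero_or_pos a₁ with h | h
      · rw [h] at hdet; omega
      · omega
    have hb : 1 ≤ b₁ + b₂ := by
      rcases Nat.eq_zero_or_pos b₂ with h | h
      · rw [h] at hdet; omega
      · omega
    -- the right chart
    obtain ⟨N1, Q1, t1, n1, q1⟩ := ih (a₁ + a₂) (b₁ + b₂) a₂ b₂ (W.filter fun i => α i < β i) α
      (fun i => β i - α i) (by rw [add_mul, mul_add, hdet]; ring)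
      ((Finset.filter_subset _ _).trans hW)
      (by
        intro i hi
        rw [Finset.mem_filter] at hi
        exact ⟨(hpos i hi.1).1, by omega⟩)
      (by
        intro i hi
        rw [Finset.mem_filter] at hi
        obtain ⟨e1, e2⟩ := h1 i hi.1
        refine ⟨?_, e2⟩
        rw [mul_add, mul_add]
        omega)
      (by
        intro i hi hi'
        by_cases h : i ∈ W
        · obtain ⟨e1, e2⟩ := h1 i h
          have h3 : β i ≤ α i := by
            by_contra hcon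
            exact hi' (Finset.mem_filter.2 ⟨h, by omega⟩)
          left
          rw [mul_add, mul_add]
          omega
        · rw [mul_add, mul_add]
          rcases h2 i hi h with h3 | h3
          · left; omega
          · right; omega)
      (by
        have h3 : ∑ i ∈ W.filter (fun i => α i < β i), (α i + (β i - α i)) ≤
            ∑ i ∈ W, β i := by
          rw [Finset.sum_filter]
          apply Finset.sum_le_sum
          intro i _
          split_ifs with h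
          · omega
          · omega
        have h4 : ∑ i ∈ W, (α i + β i) = ∑ i ∈ W, α i + ∑ i ∈ W, β i := Finset.sum_add_distrib
        have h5 : α i₀ ≤ ∑ i ∈ W, α i :=
          Finset.single_le_sum (f := α) (fun i _ => Nat.zero_le _) hi₀
        omega)
    -- the left chart
    obtain ⟨N2, Q2, t2, n2, q2⟩ := ih a₁ b₁ (a₁ + a₂) (b₁ + b₂) (W.filter fun i => β i < α i)
      (fun i => α i - β i) β (by rw [mul_add, add_mul, hdet]; ring)
      ((Finset.filter_subset _ _).trans hW)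
      (by
        intro i hi
        rw [Finset.mem_filter] at hi
        exact ⟨by omega, (hpos i hi.1).2⟩)
      (by
        intro i hi
        rw [Finset.mem_filter] at hi
        obtain ⟨e1, e2⟩ := h1 i hi.1
        refine ⟨e1, ?_⟩
        rw [mul_add, mul_add]
        omega)
      (by
        intro i hi hi'
        by_cases h : i ∈ W
        · obtain ⟨e1, e2⟩ := h1 i h
          have h3 : α i ≤ β i := by
            by_contra hcon
            exact hi' (Finset.mem_filter.2 ⟨h, by omega⟩)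
          right
          rw [mul_add, mul_add]
          omega
        · rw [mul_add, mul_add]
          rcases h2 i hi h with h3 | h3
          · left; omega
          · right; omega)
      (by
        have h3 : ∑ i ∈ W.filter (fun i => β i < α i), ((α i - β i) + β i) ≤
            ∑ i ∈ W, α i := by
          rw [Finset.sum_filter]
          apply Finset.sum_le_sum
          intro i _
          split_ifs with h
          · omega
          · omega
        have h4 : ∑ i ∈ W, (α i + β i) = ∑ i ∈ W, α i + ∑ i ∈ W, β i := Finset.sum_add_distrib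
        have h5 : β i₀ ≤ ∑ i ∈ W, β i :=
          Finset.single_le_sum (f := β) (fun i _ => Nat.zero_le _) hi₀
        omega)
    refine ⟨1 + N1 + N2, m ^ 2 + Q1 + Q2, Tr.node _ m _ _ N1 Q1 N2 Q2 (ordGe_gg hG hm)
      (by rw [chartR_gg hG 0 hm, gc_zero]) (chartL_gg hG hm) ?_ t1 t2, ?_, ?_⟩
    · intro c hc H hH
      rw [chartR_gg hG c hm] at hH
      have hX : (X 0 : P2) ^ m ≠ 0 := pow_ne_zero _ (X_ne_zero _)
      have hH' := mul_left_cancel₀ hX hH
      rw [← hH']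
      exact gc_not_ordGe hG ha hb (by rw [add_mul, mul_add, hdet]; ring) hc
    · have h3 : ∑ i ∈ W, ell (α i) (β i) = ∑ i ∈ W, (1 + ((if α i < β i then
          ell (α i) (β i - α i) else 0) + (if β i < α i then ell (α i - β i) (β i) else 0))) := by
        apply Finset.sum_congr rfl
        intro i hi
        have hp := hpos i hi
        rcases lt_trichotomy (α i) (β i) with h | h | h
        · rw [if_pos h, if_neg (by omega), ell_lt hp.1 h]
          omega
        · rw [if_neg (by omega), if_neg (by omega), h, ell_self hp.2]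
        · rw [if_neg (by omega), if_pos h, ell_gt hp.2 h]
          omega
      have h4 : (1 : ℕ) ≤ ∑ i ∈ W, 1 := by
        rw [Finset.sum_const, smul_eq_mul, mul_one]
        exact Finset.card_pos.2 ⟨i₀, hi₀⟩
      rw [h3, Finset.sum_add_distrib, Finset.sum_add_distrib, ← Finset.sum_filter,
        ← Finset.sum_filter]
      omega
    · rw [sum_identity, q1, q2, hmdef]

theorem gg_start (k : ℕ) (G : P2) : gg k 1 0 0 1 G = G := by
  have h1 : hh k 1 0 = 0 := by simp [hh]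
  have h2 : hh k 0 1 = 0 := by simp [hh]
  unfold gg
  rw [h1, h2]
  conv_rhs => rw [G.as_sum]
  apply Finset.sum_congr rfl
  intro s _
  rw [C_X_X]
  have he : (Finsupp.single 0 (1 * s 0 + 0 * s 1 - 0) + Finsupp.single 1 (0 * s 0 + 1 * s 1 - 0) :
      Fin 2 →₀ ℕ) = s := by
    ext i
    fin_cases i
    · simp
    · simp
  rw [he]

theorem tree_of_good (k : ℕ) (hk : 1 ≤ k) (G : P2) (hG : Good k G) :
    ∃ N Q : ℕ, Tr G N Q ∧ N ≤ ∑ i ∈ Finset.Ico 1 k, ell i (k - i) ∧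
      Q = 4 * ∑ i ∈ Finset.Ico 1 k, ∑ j ∈ Finset.Ico 1 k, min (i * (k - j)) (j * (k - i)) := by
  have _ := hk
  have h := tree_aux hG (∑ i ∈ Finset.Ico 1 k, (i + (k - i))) 1 0 0 1 (Finset.Ico 1 k)
    (fun i => i) (fun i => k - i) (by norm_num) (Finset.Subset.refl _)
    (by
      intro i hi
      rw [Finset.mem_Ico] at hi
      exact ⟨by omega, by omega⟩)
    (by intro i _; simp) (by intro i hi hi'; exact absurd hi hi') le_rfl
  rw [gg_start] at h
  exact h

end Pool.Agent.Helper90.HC
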