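import Pool.Agent.Helper90.HC.Machine
import Pool.Agent.Helper90.HC.Final
import Pool.Agent.Helper90.HC.Tree
import Pool.Agent.Helper90.HC.Comb

/-!
# H-constants are unbounded
-/

open MvPolynomial

namespace Pool.Agent.Helper90.HC

/-- the parametrisation at the vertex `(0, 1, 0)` -/
noncomputable def rho1 : Par := ![C (1 / 2) * (X 1 - X 0), 1, C (1 / 2) * (X 0 + X 1)]
/-- the parametrisation at the vertex `(0, 0, 1)` -/
noncomputable def rho2 : Par := ![C (1 / 2) * (X 0 + X 1), C (1 / 2) * (X 1 - X 0), 1]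

lemma aeval_cyc (J : ℕ) (a b c : P2) : aeval ![b, c, a] (crv J) = aeval ![a, b, c] (crv J) := by
  conv_rhs => rw [← crv_cyc J]
  rw [← AlgHom.comp_apply, comp_aeval]
  congr 2
  funext i
  fin_cases i <;> simp

lemma aeval_rho1 (J : ℕ) : aeval rho1 (crv J) = aeval rho0 (crv J) := by
  rw [rho1, aeval_cyc, aeval_cyc, rho0]

lemma aeval_rho2 (J : ℕ) : aeval rho2 (crv J) = aeval rho0 (crv J) := by
  rw [rho2, aeval_cyc, rho0]

lemma dv_one (i : Fin 2) : coeff (Finsupp.single i 1) (1 : P2) = 0 := by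
  classical
  rw [coeff_one, if_neg]
  intro h
  have := DFunLike.congr_fun h i
  simp at this

lemma dv_X (i : Fin 2) : coeff (Finsupp.single i 1) (X i : P2) = 1 := by
  classical
  rw [coeff_X, if_pos rfl]

lemma dv_X' {i j : Fin 2} (h : i ≠ j) : coeff (Finsupp.single i 1) (X j : P2) = 0 := by
  classical
  rw [coeff_X, if_neg]
  intro h'
  have := DFunLike.congr_fun h' j
  simp [h] at this

lemma pt_rho0 : pt rho0 = e0 := by
  funext i
  fin_cases i <;> simp [pt, rho0, e0]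

lemma pt_rho1 : pt rho1 = e1 := by
  funext i
  fin_cases i <;> simp [pt, rho1, e1]

lemma pt_rho2 : pt rho2 = e2 := by
  funext i
  fin_cases i <;> simp [pt, rho2, e2]

lemma etale_rho0 : Etale rho0 := by
  have hX : dX rho0 = ![0, 1 / 2, - (1 / 2)] := by
    funext i
    fin_cases i
    · exact dv_one 0
    · show coeff (Finsupp.single 0 1) (C (1 / 2) * (X 0 + X 1) : P2) = 1 / 2
      rw [coeff_C_mul, coeff_add, dv_X, dv_X' (by decide)]
      ring
    · show coeff (Finsupp.single 0 1) (C (1 / 2) * (X 1 - X 0) : P2) = - (1 / 2)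
      rw [coeff_C_mul, coeff_sub, dv_X, dv_X' (by decide)]
      ring
  have hY : dY rho0 = ![0, 1 / 2, 1 / 2] := by
    funext i
    fin_cases i
    · exact dv_one 1
    · show coeff (Finsupp.single 1 1) (C (1 / 2) * (X 0 + X 1) : P2) = 1 / 2
      rw [coeff_C_mul, coeff_add, dv_X, dv_X' (by decide)]
      ring
    · show coeff (Finsupp.single 1 1) (C (1 / 2) * (X 1 - X 0) : P2) = 1 / 2
      rw [coeff_C_mul, coeff_sub, dv_X, dv_X' (by decide)]
      ring
  unfold Etale
  rw [det_pq, pt_rho0, hX, hY]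
  simp only [e0, Matrix.cons_val_zero, Matrix.cons_val_one, Matrix.cons_val]
  norm_num

lemma etale_rho1 : Etale rho1 := by
  have hX : dX rho1 = ![- (1 / 2), 0, 1 / 2] := by
    funext i
    fin_cases i
    · show coeff (Finsupp.single 0 1) (C (1 / 2) * (X 1 - X 0) : P2) = - (1 / 2)
      rw [coeff_C_mul, coeff_sub, dv_X, dv_X' (by decide)]
      ring
    · exact dv_one 0
    · show coeff (Finsupp.single 0 1) (C (1 / 2) * (X 0 + X 1) : P2) = 1 / 2
      rw [coeff_C_mul, coeff_add, dv_X, dv_X' (by decide)]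
      ring
  have hY : dY rho1 = ![1 / 2, 0, 1 / 2] := by
    funext i
    fin_cases i
    · show coeff (Finsupp.single 1 1) (C (1 / 2) * (X 1 - X 0) : P2) = 1 / 2
      rw [coeff_C_mul, coeff_sub, dv_X, dv_X' (by decide)]
      ring
    · exact dv_one 1
    · show coeff (Finsupp.single 1 1) (C (1 / 2) * (X 0 + X 1) : P2) = 1 / 2
      rw [coeff_C_mul, coeff_add, dv_X, dv_X' (by decide)]
      ring
  unfold Etale
  rw [det_pq, pt_rho1, hX, hY]
  simp only [e1, Matrix.cons_val_zero, Matrix.cons_val_one, Matrix.cons_val]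
  norm_num

lemma etale_rho2 : Etale rho2 := by
  have hX : dX rho2 = ![1 / 2, - (1 / 2), 0] := by
    funext i
    fin_cases i
    · show coeff (Finsupp.single 0 1) (C (1 / 2) * (X 0 + X 1) : P2) = 1 / 2
      rw [coeff_C_mul, coeff_add, dv_X, dv_X' (by decide)]
      ring
    · show coeff (Finsupp.single 0 1) (C (1 / 2) * (X 1 - X 0) : P2) = - (1 / 2)
      rw [coeff_C_mul, coeff_sub, dv_X, dv_X' (by decide)]
      ring
    · exact dv_one 0
  have hY : dY rho2 = ![1 / 2, 1 / 2, 0] := by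
    funext i
    fin_cases i
    · show coeff (Finsupp.single 1 1) (C (1 / 2) * (X 0 + X 1) : P2) = 1 / 2
      rw [coeff_C_mul, coeff_add, dv_X, dv_X' (by decide)]
      ring
    · show coeff (Finsupp.single 1 1) (C (1 / 2) * (X 1 - X 0) : P2) = 1 / 2
      rw [coeff_C_mul, coeff_sub, dv_X, dv_X' (by decide)]
      ring
    · exact dv_one 1
  unfold Etale
  rw [det_pq, pt_rho2, hX, hY]
  simp only [e2, Matrix.cons_val_zero, Matrix.cons_val_one, Matrix.cons_val]
  norm_num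

/-- the initial state -/
theorem initial_state (J : ℕ) : ∃ A : List Act, St (4 ^ J - 1) (crv J) [] A ∧
    Ns A ≤ 3 * ∑ i ∈ Finset.Ico 1 (2 ^ J), ell i (2 ^ J - i) ∧
      Qs A = (2 ^ J) ^ 2 * ((2 ^ J) ^ 2 - 1) := by
  have hk : 1 ≤ 2 ^ J := Nat.one_le_two_pow
  obtain ⟨N, Q, hT, hN, hQ⟩ := tree_of_good (2 ^ J) hk _ (good_crv J)
  refine ⟨[⟨rho0, aeval rho0 (crv J), N, Q⟩, ⟨rho1, aeval rho0 (crv J), N, Q⟩,
    ⟨rho2, aeval rho0 (crv J), N, Q⟩], ⟨crv_ne J, crv_hom J, ?_, ?_, ?_, ?_⟩, ?_, ?_⟩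
  · intro a ha
    simp only [List.mem_cons, List.not_mem_nil, or_false] at ha
    have h1 : coeff 0 (1 : P2) ≠ 0 := by simp
    rcases ha with rfl | rfl | rfl
    · exact ⟨etale_rho0, ⟨1, h1, (one_mul _).symm⟩, hT⟩
    · exact ⟨etale_rho1, ⟨1, h1, by rw [one_mul, aeval_rho1]⟩, hT⟩
    · exact ⟨etale_rho2, ⟨1, h1, by rw [one_mul, aeval_rho2]⟩, hT⟩
  · intro s hs
    exact absurd hs List.not_mem_nil
  · simp only [pts, List.map_nil, List.nil_append, List.map_cons, pt_rho0, pt_rho1, pt_rho2]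
    refine List.pairwise_cons.2 ⟨?_, List.pairwise_cons.2 ⟨?_, List.pairwise_cons.2
      ⟨?_, List.Pairwise.nil⟩⟩⟩
    · intro s hs hp
      have z0 := hp.zero_iff 0
      simp only [List.mem_cons, List.not_mem_nil, or_false] at hs
      rcases hs with rfl | rfl
      · simp [e0, e1] at z0
      · simp [e0, e2] at z0
    · intro s hs hp
      have z1 := hp.zero_iff 1
      simp only [List.mem_cons, List.not_mem_nil, or_false] at hs
      subst hs
      simp [e1, e2] at z1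
    · intro s hs
      exact absurd hs List.not_mem_nil
  · intro r hr hs
    simp only [pts, List.map_nil, List.nil_append, List.map_cons, pt_rho0, pt_rho1, pt_rho2]
    rcases crv_sing J r hr hs with h | h | h
    · exact ⟨e0, by simp, h⟩
    · exact ⟨e1, by simp, h⟩
    · exact ⟨e2, by simp, h⟩
  · simp only [Ns, List.map_cons, List.map_nil, List.sum_cons, List.sum_nil]
    omega
  · simp only [Qs, List.map_cons, List.map_nil, List.sum_cons, List.sum_nil]
    have h1 := sum_min (2 ^ J) hk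
    rw [← hQ] at h1
    have h2 : ((3 * Q : ℕ) : ℤ) = (((2 ^ J) ^ 2 * ((2 ^ J) ^ 2 - 1) : ℕ) : ℤ) := by rw [h1]
    have h3 : ((((2 ^ J) ^ 2 - 1 : ℕ)) : ℤ) = (2 ^ J) ^ 2 - 1 := by
      rw [Nat.cast_sub (Nat.one_le_pow _ _ (by omega))]
      push_cast
      rfl
    rw [Nat.cast_mul, Nat.cast_mul, h3] at h2
    push_cast at h2
    linarith

theorem exists_curve (T : ℕ) : ∃ (d : ℕ) (F : P3) (D : List (V3 × ℕ)), St d F D [] ∧
    (d : ℤ) ^ 2 - sqs D + T * D.length < 0 := by
  obtain ⟨J, hJ, h1⟩ := sum_ell (9 * (T + 1))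
  obtain ⟨A, hS, hN, hQ⟩ := initial_state J
  obtain ⟨d, F, D, hS', h2, h3⟩ := machine hS
  refine ⟨d, F, D, hS', ?_⟩
  rw [h3, hQ]
  set k : ℕ := 2 ^ J with hk
  set L : ℕ := ∑ i ∈ Finset.Ico 1 k, ell i (k - i) with hL
  have hk1 : 1 ≤ k := Nat.one_le_two_pow
  have h4 : 4 ^ J = k ^ 2 := by
    rw [hk, ← pow_mul, mul_comm J 2, pow_mul]
    norm_num
  have h5 : ((4 ^ J - 1 : ℕ) : ℤ) = (k : ℤ) ^ 2 - 1 := by
    rw [h4, Nat.cast_sub (Nat.one_le_pow _ _ hk1)]
    push_cast
    rfl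
  have h6 : ((2 : ℤ) ^ J) = k := by
    rw [hk]
    push_cast
    rfl
  have h7 : sqs ([] : List (V3 × ℕ)) = 0 := rfl
  rw [h5, h6, h7]
  have h8 : ((9 * (T + 1) * (1 + L) : ℕ) : ℤ) ≤ (k : ℤ) ^ 2 - 1 := by
    have : ((9 * (T + 1) * (1 + L) : ℕ) : ℤ) ≤ ((k ^ 2 - 1 : ℕ) : ℤ) := by exact_mod_cast h1
    rw [Nat.cast_sub (Nat.one_le_pow _ _ hk1)] at this
    push_cast at this ⊢
    exact this
  have h9 : (D.length : ℤ) ≤ 9 * L := by
    have : D.length ≤ 9 * L := by
      simp only [List.length_nil, zero_add] at h2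
      omega
    exact_mod_cast this
  have h10 : (T : ℤ) * D.length ≤ T * (9 * L) := mul_le_mul_of_nonneg_left h9 (Nat.cast_nonneg T)
  push_cast at h8
  have h11 : (0 : ℤ) ≤ T := Nat.cast_nonneg T
  have h12 : (0 : ℤ) ≤ L := Nat.cast_nonneg L
  nlinarith

/-- H-constants of plane curves are not bounded below -/
theorem unbounded (c : ℝ) : ∃ (d : ℕ) (F : P3), F.IsHomogeneous d ∧ Squarefree F ∧
    (singSet F).Nonempty ∧
      (((d : ℝ) ^ 2 -
            ∑ᶠ p ∈ singSet F,
              (((sInf {k : ℕ | ∃ s ∈ (MvPolynomial.aeval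
                    (fun i : Fin 3 =>
                      (MvPolynomial.C (p.rep i) + MvPolynomial.X i : MvPolynomial (Fin 3) ℂ))
                    F).support, ∑ j : Fin 3, s j = k} : ℕ) : ℝ) ^ 2)) /
          (((singSet F).ncard : ℕ) : ℝ)) < c := by
  obtain ⟨T, hT⟩ := exists_nat_gt (1 - c)
  obtain ⟨d, F, D, hS, hneg⟩ := exists_curve (T + 1)
  have h0 : (0 : ℤ) ≤ D.length := Nat.cast_nonneg _
  have hneg' : (d : ℤ) ^ 2 - sqs D + D.length < 0 := by
    push_cast at hneg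
    have : (0 : ℤ) ≤ T * D.length := mul_nonneg (Nat.cast_nonneg _) h0
    linarith
  have hlen : 0 < D.length := by
    rcases Nat.eq_zero_or_pos D.length with h | h
    · exfalso
      rw [List.length_eq_zero_iff] at h
      subst h
      have : sqs ([] : List (V3 × ℕ)) = 0 := rfl
      rw [this] at hneg'
      simp only [List.length_nil, Nat.cast_zero] at hneg'
      nlinarith [sq_nonneg (d : ℤ)]
    · exact h
  obtain ⟨h1, h2, h3⟩ := final_of_St hS hneg'
  refine ⟨d, F, hS.hom, h1, h2, lt_of_le_of_lt h3 ?_⟩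
  have hlen' : (0 : ℝ) < D.length := by exact_mod_cast hlen
  rw [div_lt_iff₀ hlen']
  have h4 : (((d : ℤ) ^ 2 - sqs D + ((T + 1 : ℕ) : ℤ) * D.length : ℤ) : ℝ) < 0 := by
    exact_mod_cast hneg
  push_cast at h4 ⊢
  nlinarith

end Pool.Agent.Helper90.HC
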