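import Pool.Agent.Helper90.HC.Defs

/-!
# Orders of vanishing: basic lemmas
-/

open MvPolynomial

namespace Pool.Agent.Helper90.HC

variable {σ τ : Type}

theorem ordGe_iff (m : ℕ) (G : MvPolynomial σ ℂ) : OrdGe m G ↔ G ∈ idealOfVars σ ℂ ^ m := by
  rw [mem_pow_idealOfVars_iff]
  rfl

theorem ordGe_iff' (m : ℕ) (G : MvPolynomial σ ℂ) :
    OrdGe m G ↔ ∀ s, s.degree < m → coeff s G = 0 := by
  rw [ordGe_iff, mem_pow_idealOfVars_iff']

theorem OrdGe.mono {m n : ℕ} {G : MvPolynomial σ ℂ} (h : OrdGe n G) (hmn : m ≤ n) : OrdGe m G :=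
  fun s hs => hmn.trans (h s hs)

theorem ordGe_zero (G : MvPolynomial σ ℂ) : OrdGe 0 G := fun _ _ => Nat.zero_le _

theorem OrdGe.add {m : ℕ} {G H : MvPolynomial σ ℂ} (hG : OrdGe m G) (hH : OrdGe m H) :
    OrdGe m (G + H) := by
  rw [ordGe_iff] at *
  exact add_mem hG hH

theorem OrdGe.sub {m : ℕ} {G H : MvPolynomial σ ℂ} (hG : OrdGe m G) (hH : OrdGe m H) :
    OrdGe m (G - H) := by
  rw [ordGe_iff] at *
  exact sub_mem hG hH

theorem OrdGe.sum {m : ℕ} {κ : Type*} (S : Finset κ) (G : κ → MvPolynomial σ ℂ)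
    (hG : ∀ i ∈ S, OrdGe m (G i)) : OrdGe m (∑ i ∈ S, G i) := by
  rw [ordGe_iff]
  exact sum_mem fun i hi => (ordGe_iff m (G i)).1 (hG i hi)

theorem OrdGe.mul {m n : ℕ} {G H : MvPolynomial σ ℂ} (hG : OrdGe m G) (hH : OrdGe n H) :
    OrdGe (m + n) (G * H) := by
  rw [ordGe_iff] at *
  rw [pow_add]
  exact Ideal.mul_mem_mul hG hH

theorem OrdGe.pow {m : ℕ} {G : MvPolynomial σ ℂ} (hG : OrdGe m G) (n : ℕ) :
    OrdGe (m * n) (G ^ n) := by
  rw [ordGe_iff] at *
  rw [pow_mul]
  exact Ideal.pow_mem_pow hG n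

theorem OrdGe.mul_left {m : ℕ} {G : MvPolynomial σ ℂ} (hG : OrdGe m G) (U : MvPolynomial σ ℂ) :
    OrdGe m (U * G) := by
  rw [ordGe_iff] at *
  exact Ideal.mul_mem_left _ _ hG

/-- powers of the maximal ideal of the origin are primary -/
theorem OrdGe.of_unit_mul {m : ℕ} {U G : MvPolynomial σ ℂ} (hU : coeff 0 U ≠ 0)
    (h : OrdGe m (U * G)) : OrdGe m G := by
  classical
  rw [ordGe_iff'] at *
  have key : ∀ n, ∀ s : σ →₀ ℕ, s.degree = n → s.degree < m → coeff s G = 0 := by
    intro n
    induction n using Nat.strong_induction_on with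
    | _ n ih =>
      intro s hs hm
      have h1 := h s hm
      rw [coeff_mul, Finset.sum_eq_single (0, s)] at h1
      · exact (mul_eq_zero.1 h1).resolve_left hU
      · rintro ⟨a, b⟩ hab hne
        rw [Finset.HasAntidiagonal.mem_antidiagonal] at hab
        simp only at hab
        have h2 : b.degree < s.degree := by
          rw [← hab, map_add]
          have : a.degree ≠ 0 := by
            intro h0
            rw [Finsupp.degree_eq_zero_iff] at h0
            subst h0
            apply hne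
            rw [zero_add] at hab
            rw [hab]
          omega
        simp only
        rw [ih b.degree (by omega) b rfl (by omega), mul_zero]
      · intro h0
        exact absurd (Finset.HasAntidiagonal.mem_antidiagonal.2 (zero_add s)) h0
  exact fun s hs => key _ s rfl hs

theorem ordGe_one_iff (G : MvPolynomial σ ℂ) : OrdGe 1 G ↔ coeff 0 G = 0 := by
  rw [ordGe_iff']
  constructor
  · intro h
    exact h 0 (by simp)
  · intro h s hs
    have : s.degree = 0 := by omega
    rw [Finsupp.degree_eq_zero_iff] at this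
    rw [this, h]

/-- substitution of polynomials without constant term -/
theorem OrdGe.aeval {m : ℕ} {G : MvPolynomial σ ℂ} (hG : OrdGe m G) (φ : σ → MvPolynomial τ ℂ)
    (hφ : ∀ i, coeff 0 (φ i) = 0) : OrdGe m (MvPolynomial.aeval φ G) := by
  rw [ordGe_iff] at *
  have h1 : (idealOfVars σ ℂ).map (MvPolynomial.aeval (R := ℂ) φ) ≤ idealOfVars τ ℂ := by
    rw [Ideal.map_le_iff_le_comap]
    change Ideal.span _ ≤ _
    rw [Ideal.span_le]
    rintro _ ⟨i, rfl⟩
    rw [SetLike.mem_coe, Ideal.mem_comap, aeval_X]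
    have := (ordGe_iff 1 (φ i)).1 ((ordGe_one_iff _).2 (hφ i))
    rwa [pow_one] at this
  have h2 := Ideal.mem_map_of_mem (MvPolynomial.aeval (R := ℂ) φ) hG
  rw [Ideal.map_pow] at h2
  exact Ideal.pow_right_mono h1 m h2

theorem ordGe_two_iff (G : MvPolynomial σ ℂ) :
    OrdGe 2 G ↔ coeff 0 G = 0 ∧ ∀ i, coeff (Finsupp.single i 1) G = 0 := by
  rw [ordGe_iff']
  constructor
  · intro h
    exact ⟨h 0 (by simp), fun i => h _ (by rw [Finsupp.degree_single]; norm_num)⟩
  · rintro ⟨h0, h1⟩ s hs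
    by_cases h : s = 0
    · rw [h, h0]
    · obtain ⟨i, hi⟩ : s.support.Nonempty := Finsupp.support_nonempty_iff.2 h
      have h2 : Finsupp.single i 1 ≤ s := by
        rw [Finsupp.single_le_iff]
        exact Nat.one_le_iff_ne_zero.2 (Finsupp.mem_support_iff.1 hi)
      obtain ⟨t, rfl⟩ := exists_add_of_le h2
      rw [map_add, Finsupp.degree_single] at hs
      have h3 : t.degree = 0 := by omega
      rw [Finsupp.degree_eq_zero_iff] at h3
      subst h3
      rw [add_zero, h1]

/-- the chain rule -/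
theorem pderiv_aeval [Fintype σ] (f : σ → MvPolynomial τ ℂ) (i : τ) (F : MvPolynomial σ ℂ) :
    pderiv i (MvPolynomial.aeval f F) =
      ∑ j, MvPolynomial.aeval f (pderiv j F) * pderiv i (f j) := by
  classical
  induction F using MvPolynomial.induction_on with
  | C a => simp
  | add p q hp hq =>
    simp only [map_add, hp, hq, add_mul, Finset.sum_add_distrib]
  | mul_X p n hp =>
    rw [map_mul, pderiv_mul, hp, aeval_X]
    simp only [pderiv_mul, map_add, map_mul, aeval_X, pderiv_X, add_mul, Finset.sum_add_distrib]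
    congr 1
    · rw [Finset.sum_mul]
      exact Finset.sum_congr rfl fun j _ => by ring
    · rw [Finset.sum_eq_single n]
      · simp
      · intro j _ hj
        simp [Ne.symm hj]
      · simp

theorem coeff_zero_aeval (f : σ → MvPolynomial τ ℂ) (F : MvPolynomial σ ℂ) :
    coeff 0 (MvPolynomial.aeval f F) = eval (fun i => coeff 0 (f i)) F := by
  rw [← constantCoeff_eq]
  induction F using MvPolynomial.induction_on with
  | C a => simp
  | add p q hp hq => simp only [map_add, hp, hq]
  | mul_X p n hp => simp only [map_mul, hp, aeval_X, eval_X, constantCoeff_eq]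

theorem coeff_zero_tr (r : V3) (F : P3) : coeff 0 (tr r F) = eval r F := by
  rw [tr, coeff_zero_aeval]
  simp

theorem pderiv_tr (r : V3) (F : P3) (i : Fin 3) : pderiv i (tr r F) = tr r (pderiv i F) := by
  rw [tr, pderiv_aeval, Finset.sum_eq_single i]
  · simp [tr]
  · intro j _ hj
    simp [hj]
  · simp

/-- `F` is singular at `r` if and only if its order there is at least two -/
theorem sg_iff (F : P3) (r : V3) : Sg F r ↔ OrdGe 2 (tr r F) := by
  rw [ordGe_two_iff, Sg, coeff_zero_tr]
  refine and_congr Iff.rfl (forall_congr' fun i => ?_)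
  have h1 := coeff_pderiv (i := i) (tr r F) 0
  rw [pderiv_tr, coeff_zero_tr] at h1
  simp at h1
  rw [h1]

theorem aeval_sub_tr (ρ : Par) (F : P3) :
    MvPolynomial.aeval (fun i => ρ i - C (pt ρ i)) (tr (pt ρ) F) = MvPolynomial.aeval ρ F := by
  rw [tr, ← AlgHom.comp_apply, comp_aeval]
  congr 2
  funext i
  simp

/-- the order of `F` at a point, computed in a parametrisation (easy direction) -/
theorem OrdGe.par {m : ℕ} {F : P3} {ρ : Par} (h : OrdGe m (tr (pt ρ) F)) :
    OrdGe m (MvPolynomial.aeval ρ F) := by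
  rw [← aeval_sub_tr]
  refine h.aeval _ fun i => ?_
  simp [pt]

/-- a point where the local equation has order at most one is not singular -/
theorem not_sg_of_loc {F : P3} {ρ : Par} {G : P2} (h : Loc F ρ G) (hG : ¬ OrdGe 2 G) :
    ¬ Sg F (pt ρ) := by
  rintro hs
  rw [sg_iff] at hs
  obtain ⟨U, hU, h⟩ := h
  have := hs.par
  rw [h] at this
  exact hG (this.of_unit_mul hU)

/-- homogeneity -/
theorem aeval_smul_of_hom {A : Type*} [CommRing A] [Algebra ℂ A] {d : ℕ} {F : P3}
    (hF : F.IsHomogeneous d) (a : A) (v : Fin 3 → A) :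
    MvPolynomial.aeval (fun i => a * v i) F = a ^ d * MvPolynomial.aeval v F := by
  rw [aeval_def, aeval_def, eval₂_eq', eval₂_eq', Finset.mul_sum]
  refine Finset.sum_congr rfl fun s hs => ?_
  have h1 : s.degree = d := by
    rw [← hF (mem_support_iff.1 hs)]
    exact DFunLike.congr_fun Finsupp.degree_eq_weight_one s
  have h2 : ∏ i, (a * v i) ^ s i = a ^ d * ∏ i, v i ^ s i := by
    simp only [mul_pow]
    rw [Finset.prod_mul_distrib, Finset.prod_pow_eq_pow_sum]
    congr 2
    rw [← h1, Finsupp.degree_eq_sum]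
  rw [h2]
  ring

/-- the order does not change along the line of a vector (homogeneous polynomials) -/
theorem ordGe_tr_smul {m d : ℕ} {F : P3} (hF : F.IsHomogeneous d) {r : V3} {c : ℂ} (hc : c ≠ 0)
    (h : OrdGe m (tr r F)) : OrdGe m (tr (c • r) F) := by
  have h1 : tr (c • r) F = C c ^ d * MvPolynomial.aeval (fun i => C c⁻¹ * X i) (tr r F) := by
    rw [tr, tr, ← AlgHom.comp_apply (MvPolynomial.aeval fun i => C c⁻¹ * X i), comp_aeval,
      ← aeval_smul_of_hom hF]
    congr 2
    funext i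
    simp only [Pi.smul_apply, smul_eq_mul, map_add, algHom_C, algebraMap_eq, aeval_X, map_mul]
    rw [mul_add, ← mul_assoc, ← C_mul, ← C_mul, mul_inv_cancel₀ hc, C_1, one_mul]
  rw [h1]
  exact (h.aeval _ fun i => by simp).mul_left _

theorem sg_smul {d : ℕ} {F : P3} (hF : F.IsHomogeneous d) {r : V3} {c : ℂ} (hc : c ≠ 0)
    (h : Sg F r) : Sg F (c • r) := by
  rw [sg_iff] at *
  exact ordGe_tr_smul hF hc h

theorem Prl.symm {r s : V3} (h : Prl r s) : Prl s r := by
  obtain ⟨c, hc, rfl⟩ := h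
  exact ⟨c⁻¹, inv_ne_zero hc, by rw [smul_smul, inv_mul_cancel₀ hc, one_smul]⟩

theorem Prl.trans {r s t : V3} (h : Prl r s) (h' : Prl s t) : Prl r t := by
  obtain ⟨c, hc, rfl⟩ := h
  obtain ⟨c', hc', rfl⟩ := h'
  exact ⟨c' * c, mul_ne_zero hc' hc, by rw [smul_smul]⟩

theorem Prl.refl (r : V3) : Prl r r := ⟨1, one_ne_zero, by rw [one_smul]⟩

theorem pt_ne_zero {ρ : Par} (h : Etale ρ) : pt ρ ≠ 0 := by
  intro h0
  apply h
  rw [h0]
  exact Matrix.det_eq_zero_of_row_eq_zero 0 fun j => by simp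

end Pool.Agent.Helper90.HC
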